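import Mathlib

/-! Hermite-Minkowski-Davenport reduction of a lattice in the sup norm. -/

open Filter Matrix Real

namespace Pool.Agent.Subspace

/-- Projection along `v` onto the coordinates different from `i0`. -/
noncomputable def prj {n : ℕ} (v : Fin (n + 1) → ℝ) (i0 : Fin (n + 1)) :
    (Fin (n + 1) → ℝ) →+ (Fin n → ℝ) where
  toFun x i := x (i0.succAbove i) - x i0 / v i0 * v (i0.succAbove i)
  map_zero' := by ext i; simp
  map_add' x y := by ext i; simp only [Pi.add_apply]; ring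

lemma prj_apply {n : ℕ} (v : Fin (n + 1) → ℝ) (i0 : Fin (n + 1)) (x : Fin (n + 1) → ℝ)
    (i : Fin n) : prj v i0 x i = x (i0.succAbove i) - x i0 / v i0 * v (i0.succAbove i) := rfl

lemma prj_self {n : ℕ} (v : Fin (n + 1) → ℝ) (i0 : Fin (n + 1)) (h : v i0 ≠ 0) :
    prj v i0 v = 0 := by
  ext i; simp [prj_apply, div_self h]

lemma exists_shortest {n : ℕ} (Λ : AddSubgroup (Fin n → ℝ))
    (hfin : ∀ r : ℝ, {x | x ∈ Λ ∧ ‖x‖ ≤ r}.Finite) {y : Fin n → ℝ} (hy : y ∈ Λ) (hy0 : y ≠ 0) :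
    ∃ v ∈ Λ, v ≠ 0 ∧ ∀ x ∈ Λ, x ≠ 0 → ‖v‖ ≤ ‖x‖ := by
  have hf : {x | x ∈ Λ ∧ ‖x‖ ≤ ‖y‖ ∧ x ≠ 0}.Finite :=
    (hfin ‖y‖).subset fun x hx => ⟨hx.1, hx.2.1⟩
  obtain ⟨v, hv, hmin⟩ := Set.exists_min_image _ (fun x => ‖x‖) hf ⟨y, hy, le_rfl, hy0⟩
  refine ⟨v, hv.1, hv.2.2, fun x hx hx0 => ?_⟩
  by_cases h : ‖x‖ ≤ ‖y‖
  · exact hmin x ⟨hx, h, hx0⟩
  · exact hv.2.1.trans (not_le.mp h).le

/-- Reduction of a lattice vector modulo the shortest vector. -/
lemma exists_lift {n : ℕ} (Λ : AddSubgroup (Fin (n + 1) → ℝ)) {v : Fin (n + 1) → ℝ}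
    (hv : v ∈ Λ) {i0 : Fin (n + 1)} (h0 : v i0 ≠ 0) (hi0 : |v i0| = ‖v‖)
    {x : Fin (n + 1) → ℝ} (hx : x ∈ Λ) :
    ∃ (m : ℤ) (x' : Fin (n + 1) → ℝ), x' ∈ Λ ∧ x = x' + m • v ∧ prj v i0 x' = prj v i0 x ∧
      |x' i0| ≤ ‖v‖ / 2 ∧ ∀ i, |x' (i0.succAbove i)| ≤ |prj v i0 x i| + ‖v‖ / 2 := by
  set m : ℤ := round (x i0 / v i0) with hm
  have hp : prj v i0 (x - m • v) = prj v i0 x := by
    rw [map_sub, map_zsmul, prj_self v i0 h0]; simp
  have hr : |x i0 / v i0 - m| ≤ 1 / 2 := abs_sub_round _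
  have hq : (x - m • v) i0 / v i0 = x i0 / v i0 - m := by
    rw [Pi.sub_apply, Pi.smul_apply, zsmul_eq_mul]; field_simp
  refine ⟨m, x - m • v, Λ.sub_mem hx (Λ.zsmul_mem hv m), by simp, hp, ?_, fun i => ?_⟩
  · have : (x - m • v) i0 = (x i0 / v i0 - m) * v i0 := by rw [← hq]; field_simp
    rw [this, abs_mul, hi0]
    nlinarith [norm_nonneg v]
  · have h1 : (x - m • v) (i0.succAbove i) =
        prj v i0 x i + (x i0 / v i0 - m) * v (i0.succAbove i) := by
      rw [← hp, prj_apply, hq]; ring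
    have h2 : |v (i0.succAbove i)| ≤ ‖v‖ := by
      simpa using norm_le_pi_norm v (i0.succAbove i)
    rw [h1]
    refine (abs_add_le _ _).trans ?_
    rw [abs_mul]
    nlinarith [abs_nonneg (v (i0.succAbove i)), abs_nonneg (x i0 / v i0 - m)]

lemma norm_le_of_coords {n : ℕ} (i0 : Fin (n + 1)) {x : Fin (n + 1) → ℝ} {r : ℝ}
    (h0 : |x i0| ≤ r) (h : ∀ i, |x (i0.succAbove i)| ≤ r) : ‖x‖ ≤ r := by
  refine (pi_norm_le_iff_of_nonneg ((abs_nonneg _).trans h0)).2 fun j => ?_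
  rw [Real.norm_eq_abs]
  exact Fin.succAboveCases i0 h0 h j

lemma det_step {n : ℕ} (v : Fin (n + 1) → ℝ) (i0 : Fin (n + 1)) (h0 : v i0 ≠ 0)
    (w : Fin n → Fin (n + 1) → ℝ) :
    |(Matrix.of (Fin.cons v w : Fin (n + 1) → Fin (n + 1) → ℝ)).det| =
      |v i0| * |(Matrix.of fun j => prj v i0 (w j)).det| := by
  set B : Matrix (Fin (n + 1)) (Fin (n + 1)) ℝ :=
    Matrix.of (Fin.cons v fun j k => w j k - w j i0 / v i0 * v k) with hB
  have h1 : (Matrix.of (Fin.cons v w : Fin (n + 1) → Fin (n + 1) → ℝ)).det = B.det := by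
    refine Matrix.det_eq_of_forall_row_eq_smul_add_const
      (Fin.cons 0 fun j => w j i0 / v i0) 0 rfl fun i j => ?_
    refine Fin.cases ?_ (fun i => ?_) i <;> simp [hB]
  rw [h1, Matrix.det_succ_column B i0, Fin.sum_univ_succ]
  have h2 : ∀ j : Fin n, B j.succ i0 = 0 := by
    intro j; simp [hB, h0]
  have h3 : B.submatrix (Fin.succAbove 0) i0.succAbove = Matrix.of fun j => prj v i0 (w j) := by
    ext j k; simp [hB, prj_apply]
  simp only [h2, mul_zero, zero_mul, Finset.sum_const_zero, add_zero, h3, abs_mul, abs_pow,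
    abs_neg, abs_one, one_pow, one_mul]
  simp [hB]

/-- TASK LATTICE, part 1: Hermite-Minkowski-Davenport reduction. -/
theorem lattice_reduction (n : ℕ) : ∃ C : ℝ, 1 ≤ C ∧ ∀ Λ : AddSubgroup (Fin n → ℝ),
    (∀ r : ℝ, {x | x ∈ Λ ∧ ‖x‖ ≤ r}.Finite) →
    (∀ w : Fin n → ℝ, (∀ x ∈ Λ, w ⬝ᵥ x = 0) → w = 0) →
    ∃ (v : Fin n → Fin n → ℝ) (pm : Equiv.Perm (Fin n)) (lam : Fin n → ℝ),
      (∀ j, v j ∈ Λ) ∧ (∀ x ∈ Λ, ∃ t : Fin n → ℤ, x = ∑ j, t j • v j) ∧ (∀ j, 0 < lam j) ∧
      Monotone lam ∧ (∀ i j, |v j (pm i)| ≤ C * min (lam i) (lam j)) ∧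
      ∏ j, lam j ≤ C * |(Matrix.of v).det| := by
  induction n with
  | zero =>
    refine ⟨1, le_rfl, fun Λ _ _ => ⟨fun _ => 0, 1, fun _ => 1, fun j => j.elim0,
      fun x _ => ⟨0, Subsingleton.elim _ _⟩, fun j => j.elim0, monotone_const,
      fun i => i.elim0, by simp⟩⟩
  | succ n ih =>
    obtain ⟨C, hC, ih⟩ := ih
    have h2C : (1 : ℝ) ≤ (2 * C) ^ n := one_le_pow₀ (by linarith)
    refine ⟨(2 * C) ^ n * (C + 1), by nlinarith, fun Λ hfin hspan => ?_⟩
    -- a shortest vector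
    obtain ⟨y, hy, hy0⟩ : ∃ y ∈ Λ, y ≠ 0 := by
      by_contra hcon
      push Not at hcon
      have := hspan (fun _ => 1) fun x hx => by rw [hcon x hx]; simp
      simpa using congrFun this 0
    obtain ⟨v, hv, hv0, hmin⟩ := exists_shortest Λ hfin hy hy0
    have hvpos : 0 < ‖v‖ := norm_pos_iff.2 hv0
    obtain ⟨i0, hi0⟩ : ∃ i0, |v i0| = ‖v‖ := by
      obtain ⟨i0, -, hi⟩ := Finset.exists_max_image Finset.univ (fun i => |v i|)
        Finset.univ_nonempty
      refine ⟨i0, le_antisymm (by simpa using norm_le_pi_norm v i0) ?_⟩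
      exact (pi_norm_le_iff_of_nonneg (abs_nonneg _)).2 fun j => by
        simpa using hi j (Finset.mem_univ _)
    have h0 : v i0 ≠ 0 := by
      intro h; rw [h, abs_zero] at hi0; exact hvpos.ne hi0
    have hlift := fun x (hx : x ∈ Λ) => exists_lift Λ hv h0 hi0 hx
    -- the projected lattice
    have hfin' : ∀ r : ℝ, {x | x ∈ Λ.map (prj v i0) ∧ ‖x‖ ≤ r}.Finite := by
      intro r
      refine ((hfin (r + ‖v‖ / 2)).image (prj v i0)).subset ?_
      rintro _ ⟨⟨x, hx, rfl⟩, hr⟩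
      obtain ⟨m, x', hx', -, hp, ha, hb⟩ := hlift x hx
      have hr0 : 0 ≤ r := (norm_nonneg _).trans hr
      refine ⟨x', ⟨hx', norm_le_of_coords i0 (by linarith) fun i => (hb i).trans ?_⟩, hp⟩
      have : |prj v i0 x i| ≤ ‖prj v i0 x‖ := by simpa using norm_le_pi_norm (prj v i0 x) i
      linarith
    have hspan' : ∀ w : Fin n → ℝ, (∀ x ∈ Λ.map (prj v i0), w ⬝ᵥ x = 0) → w = 0 := by
      intro w hw
      have := hspan (i0.insertNth (-(∑ i, w i * v (i0.succAbove i)) / v i0) w) fun x hx => by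
        have h1 := hw _ ⟨x, hx, rfl⟩
        simp only [dotProduct, prj_apply] at h1 ⊢
        rw [Fin.sum_univ_succAbove _ i0]
        simp only [Fin.insertNth_apply_same, Fin.insertNth_apply_succAbove]
        rw [← h1]
        simp only [mul_sub, Finset.sum_sub_distrib]
        have h2 : ∑ i, w i * (x i0 / v i0 * v (i0.succAbove i)) =
            x i0 / v i0 * ∑ i, w i * v (i0.succAbove i) := by
          rw [Finset.mul_sum]; exact Finset.sum_congr rfl fun i _ => by ring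
        rw [h2]; ring
      ext i
      simpa using congrFun this (i0.succAbove i)
    obtain ⟨v', pm', lam', hv', hgen', hpos', hmono', hbd', hdet'⟩ := ih _ hfin' hspan'
    -- lifts of the basis
    have hl : ∀ j, ∃ w ∈ Λ, prj v i0 w = v' j ∧ |w i0| ≤ ‖v‖ / 2 ∧
        ∀ i, |w (i0.succAbove i)| ≤ |v' j i| + ‖v‖ / 2 := by
      intro j
      obtain ⟨x, hx, hxj⟩ := hv' j
      obtain ⟨m, x', hx', -, hp, ha, hb⟩ := hlift x hx
      exact ⟨x', hx', hp.trans hxj, ha, fun i => hxj ▸ hb i⟩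
    choose w hw hwp hwa hwb using hl
    have hdet0 : (Matrix.of v').det ≠ 0 := by
      intro h
      have : 0 < ∏ j, lam' j := Finset.prod_pos fun j _ => hpos' j
      rw [h] at hdet'; simp at hdet'; linarith
    have hlow : ∀ j, ‖v‖ ≤ 2 * C * lam' j := by
      intro j
      have hw0 : w j ≠ 0 := by
        intro h
        apply hdet0
        refine Matrix.det_eq_zero_of_row_eq_zero j fun i => ?_
        rw [Matrix.of_apply, ← hwp j, h, map_zero]; rfl
      have h1 : ‖w j‖ ≤ C * lam' j + ‖v‖ / 2 := by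
        have hp : 0 ≤ C * lam' j := mul_nonneg (by linarith) (hpos' j).le
        refine norm_le_of_coords i0 (by linarith [hwa j]) fun i => (hwb j i).trans ?_
        have h2 := hbd' (pm'.symm i) j
        rw [Equiv.apply_symm_apply] at h2
        have h3 : C * min (lam' (pm'.symm i)) (lam' j) ≤ C * lam' j :=
          mul_le_mul_of_nonneg_left (min_le_right _ _) (by linarith)
        linarith
      linarith [hmin _ (hw j) hw0]
    let pm : Equiv.Perm (Fin (n + 1)) :=
      (finSuccEquiv n).trans (pm'.optionCongr.trans (finSuccEquiv' i0).symm)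
    have hpm0 : pm 0 = i0 := by simp [pm]
    have hpms : ∀ i, pm (Fin.succ i) = i0.succAbove (pm' i) := by intro i; simp [pm]
    have hCC : C + 1 ≤ (2 * C) ^ n * (C + 1) := by nlinarith
    refine ⟨Fin.cons v w, pm, Fin.cons ‖v‖ fun j => max ‖v‖ (lam' j), ?_, ?_, ?_, ?_, ?_, ?_⟩
    · intro j; exact Fin.cases hv hw j
    · intro x hx
      obtain ⟨t, ht⟩ := hgen' _ ⟨x, hx, rfl⟩
      have hz : x - ∑ j, t j • w j ∈ Λ :=
        Λ.sub_mem hx (Λ.sum_mem fun j _ => Λ.zsmul_mem (hw j) _)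
      have hpz : prj v i0 (x - ∑ j, t j • w j) = 0 := by
        rw [map_sub, map_sum, ht]; simp only [map_zsmul, hwp, sub_self]
      obtain ⟨m, x', hx', he, hp, ha, hb⟩ := hlift _ hz
      have hx0 : x' = 0 := by
        by_contra hne
        have h1 : ‖x'‖ ≤ ‖v‖ / 2 :=
          norm_le_of_coords i0 ha fun i => by
            have := hb i
            rw [hpz] at this
            simpa using this
        linarith [hmin _ hx' hne]
      refine ⟨Fin.cons m t, ?_⟩
      rw [Fin.sum_univ_succ]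
      simp only [Fin.cons_zero, Fin.cons_succ]
      rw [hx0, zero_add] at he
      rw [← he]; abel
    · intro j
      refine Fin.cases ?_ (fun j => ?_) j
      · simpa using hv0
      · simp only [Fin.cons_succ]; exact lt_max_of_lt_left hvpos
    · intro a b hab
      rcases Fin.eq_zero_or_eq_succ a with rfl | ⟨a, rfl⟩
      · refine Fin.cases ?_ (fun b => ?_) b <;> simp
      · rcases Fin.eq_zero_or_eq_succ b with rfl | ⟨b, rfl⟩
        · exact absurd hab (by simp)
        · simp only [Fin.cons_succ]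
          exact max_le_max le_rfl (hmono' (Fin.succ_le_succ_iff.1 hab))
    · intro i j
      have key : ∀ a b : ℝ, a ≤ (C + 1) * b → 0 ≤ b → a ≤ (2 * C) ^ n * (C + 1) * b :=
        fun a b h hb => h.trans (mul_le_mul_of_nonneg_right hCC hb)
      have hvc : ∀ k, |v k| ≤ ‖v‖ := fun k => by simpa using norm_le_pi_norm v k
      rcases Fin.eq_zero_or_eq_succ j with rfl | ⟨j, rfl⟩
      · have hm : min ((Fin.cons ‖v‖ fun j => max ‖v‖ (lam' j) : Fin (n + 1) → ℝ) i)
            ((Fin.cons ‖v‖ fun j => max ‖v‖ (lam' j) : Fin (n + 1) → ℝ) 0) = ‖v‖ := by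
          refine Fin.cases ?_ (fun i => ?_) i <;> simp
        rw [hm]
        refine key _ _ ?_ hvpos.le
        simp only [Fin.cons_zero]
        nlinarith [hvc (pm i)]
      · rcases Fin.eq_zero_or_eq_succ i with rfl | ⟨i, rfl⟩
        · simp only [Fin.cons_zero, Fin.cons_succ, hpm0, le_max_left, min_eq_left]
          refine key _ _ ?_ hvpos.le
          nlinarith [hwa j]
        · simp only [Fin.cons_succ, hpms]
          have hm1 : ‖v‖ ≤ min (max ‖v‖ (lam' i)) (max ‖v‖ (lam' j)) :=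
            le_min (le_max_left _ _) (le_max_left _ _)
          have hm2 : min (lam' i) (lam' j) ≤ min (max ‖v‖ (lam' i)) (max ‖v‖ (lam' j)) :=
            min_le_min (le_max_right _ _) (le_max_right _ _)
          refine key _ _ ?_ (hvpos.le.trans hm1)
          have h1 := hwb j (pm' i)
          have h2 := hbd' i j
          have h3 := mul_le_mul_of_nonneg_left hm2 (by linarith : 0 ≤ C)
          nlinarith
    · rw [det_step v i0 h0 w, Fin.prod_univ_succ, hi0]
      simp only [Fin.cons_zero, Fin.cons_succ, hwp]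
      have h1 : ∏ j, max ‖v‖ (lam' j) ≤ ∏ j : Fin n, (2 * C * lam' j) :=
        Finset.prod_le_prod (fun j _ => le_max_of_le_left hvpos.le) fun j _ =>
          max_le (hlow j) (by nlinarith [hpos' j])
      rw [Finset.prod_mul_distrib, Finset.prod_const, Finset.card_univ, Fintype.card_fin] at h1
      have h2 : ∏ j, lam' j ≤ (C + 1) * |(Matrix.of v').det| := by
        nlinarith [abs_nonneg (Matrix.of v').det]
      have h3 : (2 * C) ^ n * ∏ j, lam' j ≤ (2 * C) ^ n * ((C + 1) * |(Matrix.of v').det|) :=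
        mul_le_mul_of_nonneg_left h2 (by linarith)
      have h4 := mul_le_mul_of_nonneg_left (h1.trans h3) hvpos.le
      calc _ ≤ _ := h4
        _ = _ := by
          have : (Matrix.of fun j => v' j) = Matrix.of v' := rfl
          rw [this]; ring

end Pool.Agent.Subspace
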