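import Mathlib

/-! The places of `ℚ` attached to a finite set of primes. -/

open Real

namespace Pool.Agent.Subspace

/-- The places: `none` is the real place, `some p` the `p`-adic place. -/
noncomputable def plAbs (S : Finset ℕ) (hS : ∀ p ∈ S, p.Prime) : Option S → AbsoluteValue ℚ ℝ
  | none => Rat.AbsoluteValue.real
  | some p => @Rat.AbsoluteValue.padic p ⟨hS p p.2⟩

variable {S : Finset ℕ} {hS : ∀ p ∈ S, p.Prime}

lemma plAbs_none (x : ℚ) : plAbs S hS none x = |(x : ℝ)| := rfl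

lemma plAbs_none_int (z : ℤ) : plAbs S hS none (z : ℚ) = |(z : ℝ)| := by
  rw [plAbs_none]; simp

lemma plAbs_some (p : S) (x : ℚ) : plAbs S hS (some p) x = (padicNorm p x : ℝ) := rfl

lemma plAbs_some_int (p : S) {z : ℤ} (hz : z ≠ 0) :
    plAbs S hS (some p) (z : ℚ) = (((p : ℕ) : ℝ) ^ padicValInt p z)⁻¹ := by
  rw [plAbs_some, padicNorm.eq_zpow_of_nonzero (by exact_mod_cast hz), padicValRat.of_int]
  simp

lemma plAbs_le (v : Option S) (z : ℤ) : plAbs S hS v z ≤ |(z : ℝ)| := by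
  rcases v with _ | p
  · exact (plAbs_none_int z).le
  · by_cases hz : z = 0
    · simp [hz]
    · have h1 : (1 : ℝ) ≤ |(z : ℝ)| := by exact_mod_cast Int.one_le_abs hz
      exact (@Rat.AbsoluteValue.padic_le_one p ⟨hS p p.2⟩ z).trans h1

lemma one_le_prod_plAbs (z : ℤ) (hz : z ≠ 0) : 1 ≤ ∏ v, plAbs S hS v z := by
  rw [Fintype.prod_option, plAbs_none_int]
  simp only [plAbs_some_int _ hz]
  rw [Finset.prod_inv_distrib]
  have hd : (∏ p : S, ((p : ℕ) : ℤ) ^ padicValInt p z) ∣ z := by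
    refine Finset.prod_dvd_of_coprime ?_ fun p _ => padicValInt_dvd z
    intro p _ q _ hpq
    have : Nat.Coprime p q :=
      (Nat.coprime_primes (hS p p.2) (hS q q.2)).2 fun h => hpq (Subtype.ext h)
    exact (Nat.isCoprime_iff_coprime.2 this).pow
  have hle : (∏ p : S, ((p : ℕ) : ℝ) ^ padicValInt p z) ≤ |(z : ℝ)| := by
    have := Int.le_of_dvd (abs_pos.2 hz) ((dvd_abs _ _).2 hd)
    exact_mod_cast this
  have hpos : 0 < ∏ p : S, ((p : ℕ) : ℝ) ^ padicValInt p z :=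
    Finset.prod_pos fun p _ => pow_pos (by exact_mod_cast (hS p p.2).pos) _
  rw [← div_eq_mul_inv, le_div_iff₀ hpos, one_mul]
  exact hle

lemma log_pos_of_mem (hS : ∀ p ∈ S, p.Prime) (p : S) : 0 < log ((p : ℕ) : ℝ) :=
  Real.log_pos (by exact_mod_cast (hS p p.2).one_lt)

lemma inv_pow_eq_exp (hS : ∀ p ∈ S, p.Prime) (p : S) (e : ℕ) :
    (((p : ℕ) : ℝ) ^ e)⁻¹ = exp (-(e * log ((p : ℕ) : ℝ))) := by
  rw [Real.exp_neg, Real.exp_nat_mul, Real.exp_log (by exact_mod_cast (hS p p.2).pos)]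

lemma dvd_of_plAbs_le (p : S) {z : ℤ} {u : ℝ} (h : plAbs S hS (some p) (z : ℚ) ≤ exp u) :
    ((p : ℕ) : ℤ) ^ ⌈-u / log ((p : ℕ) : ℝ)⌉₊ ∣ z := by
  rw [padicValInt_dvd_iff_of_ne_one (hS p p.2).ne_one]
  by_cases hz : z = 0
  · exact Or.inl hz
  right
  rw [plAbs_some_int p hz, inv_pow_eq_exp hS, Real.exp_le_exp] at h
  rw [Nat.ceil_le, div_le_iff₀ (log_pos_of_mem hS p)]
  linarith

lemma plAbs_le_of_dvd (p : S) {z : ℤ} {e : ℕ} (h : ((p : ℕ) : ℤ) ^ e ∣ z) :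
    plAbs S hS (some p) (z : ℚ) ≤ exp (-(e * log ((p : ℕ) : ℝ))) := by
  by_cases hz : z = 0
  · simp [hz, (exp_pos _).le]
  rw [padicValInt_dvd_iff_of_ne_one (hS p p.2).ne_one] at h
  rw [plAbs_some_int p hz, inv_pow_eq_exp hS, Real.exp_le_exp]
  have h1 : (e : ℝ) ≤ padicValInt p z := by exact_mod_cast h.resolve_left hz
  nlinarith [log_pos_of_mem hS p]

end Pool.Agent.Subspace
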