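import Mathlib

/-! Compound matrices and the Cauchy-Binet formula. -/

open Matrix

namespace Pool.Agent.Subspace

/-- Subsets of `Fin N` with `p` elements. -/
abbrev PS (N p : ℕ) : Type := ↥(Set.powersetCard (Fin N) p)

/-- The increasing enumeration of a `p`-subset. -/
def emb {N p : ℕ} (J : PS N p) : Fin p → Fin N := J.1.orderEmbOfFin J.2

lemma emb_inj {N p : ℕ} (J : PS N p) : Function.Injective (emb J) :=
  (J.1.orderEmbOfFin J.2).injective

lemma emb_mem {N p : ℕ} (J : PS N p) (a : Fin p) : emb J a ∈ J.1 :=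
  Finset.orderEmbOfFin_mem J.1 J.2 a

lemma exists_emb {N p : ℕ} (J : PS N p) {i : Fin N} (hi : i ∈ J.1) : ∃ a, emb J a = i := by
  have : i ∈ Set.range (J.1.orderEmbOfFin J.2) := by
    rw [Finset.range_orderEmbOfFin]; exact hi
  exact this

lemma image_emb {N p : ℕ} (J : PS N p) : Finset.univ.image (emb J) = J.1 :=
  Finset.image_orderEmbOfFin_univ J.1 J.2

lemma sum_emb {N p : ℕ} (J : PS N p) (f : Fin N → ℝ) : ∑ a, f (emb J a) = ∑ i ∈ J.1, f i := by
  rw [← image_emb J, Finset.sum_image fun a _ b _ h => emb_inj J h]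

lemma exists_not_mem {N p : ℕ} {I J : PS N p} (h : I ≠ J) : ∃ a, emb I a ∉ J.1 := by
  obtain ⟨i, hi, hj⟩ := (Set.powersetCard.exists_mem_notMem_iff_ne I J).1 h
  obtain ⟨a, rfl⟩ := exists_emb I hi
  exact ⟨a, hj⟩

/-- The number of `p`-subsets through a point does not depend on the point. -/
lemma sum_sum_mem (N p : ℕ) : ∃ c : ℕ, ∀ w : Fin N → ℝ,
    ∑ J : PS N p, ∑ i ∈ J.1, w i = c * ∑ i, w i := by
  have hc : ∀ i j : Fin N, (Finset.univ.filter fun J : PS N p => i ∈ J.1).card =
      (Finset.univ.filter fun J : PS N p => j ∈ J.1).card := by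
    intro i j
    refine Finset.card_bij' (fun J _ => Set.powersetCard.map p (Equiv.swap i j).toEmbedding J)
      (fun J _ => Set.powersetCard.map p (Equiv.swap i j).toEmbedding J) ?_ ?_ ?_ ?_
    · intro J hJ
      simp only [Finset.mem_filter, Finset.mem_univ, true_and, Set.powersetCard.val_map,
        Finset.mem_map_equiv, Equiv.symm_swap, Equiv.swap_apply_right] at hJ ⊢
      exact hJ
    · intro J hJ
      simp only [Finset.mem_filter, Finset.mem_univ, true_and, Set.powersetCard.val_map,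
        Finset.mem_map_equiv, Equiv.symm_swap, Equiv.swap_apply_left] at hJ ⊢
      exact hJ
    · intro J _
      apply Subtype.ext
      ext k
      simp only [Set.powersetCard.val_map, Finset.mem_map_equiv, Equiv.symm_swap,
        Equiv.swap_apply_self]
    · intro J _
      apply Subtype.ext
      ext k
      simp only [Set.powersetCard.val_map, Finset.mem_map_equiv, Equiv.symm_swap,
        Equiv.swap_apply_self]
  rcases Nat.eq_zero_or_pos N with rfl | hN
  · exact ⟨0, fun w => by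
      simp only [Nat.cast_zero, zero_mul]
      exact Finset.sum_eq_zero fun J _ => Finset.sum_eq_zero fun i _ => i.elim0⟩
  refine ⟨(Finset.univ.filter fun J : PS N p => (⟨0, hN⟩ : Fin N) ∈ J.1).card, fun w => ?_⟩
  have h1 : ∀ J : PS N p, ∑ i ∈ J.1, w i = ∑ i, if i ∈ J.1 then w i else 0 := by
    intro J; rw [← Finset.sum_filter]; congr 1; ext i; simp
  simp_rw [h1]
  rw [Finset.sum_comm, Finset.mul_sum]
  refine Finset.sum_congr rfl fun i _ => ?_
  rw [← Finset.sum_filter, Finset.sum_const, nsmul_eq_mul, hc i ⟨0, hN⟩]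

variable {R : Type} [CommRing R]

/-- The `p`-th compound matrix. -/
def cmp {N : ℕ} (p : ℕ) (M : Matrix (Fin N) (Fin N) R) : Matrix (PS N p) (PS N p) R :=
  Matrix.of fun J I => (M.submatrix (emb J) (emb I)).det

lemma cmp_apply {N p : ℕ} (M : Matrix (Fin N) (Fin N) R) (J I : PS N p) :
    cmp p M J I = (M.submatrix (emb J) (emb I)).det := rfl

/-- The Cauchy-Binet formula. -/
theorem cauchy_binet {N p : ℕ} (G : Matrix (Fin N) (Fin N) R) (W : Matrix (Fin N) (Fin p) R)
    (J : PS N p) :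
    ((G * W).submatrix (emb J) id).det = ∑ I, cmp p G J I * (W.submatrix (emb I) id).det := by
  let b := Pi.basisFun R (Fin N)
  let φ : (⋀[R]^p (Fin N → R)) →ₗ[R] R :=
    (exteriorPower.ιMultiDual R p b J).comp (exteriorPower.map p (Matrix.mulVecLin G))
  have h1 : ∀ V : Matrix (Fin N) (Fin p) R,
      φ (exteriorPower.ιMulti R p fun a => Vᵀ a) = ((G * V).submatrix (emb J) id).det := by
    intro V
    simp only [φ, LinearMap.comp_apply, exteriorPower.map_apply_ιMulti,
      exteriorPower.ιMultiDual_apply_ιMulti]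
    rw [← Matrix.det_transpose]
    congr 1
  have h2 := (b.exteriorPower p).sum_repr (exteriorPower.ιMulti R p fun a => Wᵀ a)
  rw [← h1 W, ← h2, map_sum]
  refine Finset.sum_congr rfl fun I _ => ?_
  rw [map_smul, smul_eq_mul, mul_comm]
  congr 1
  · have h3 := h1 ((1 : Matrix (Fin N) (Fin N) R).submatrix id (emb I))
    have h4 : (G * (1 : Matrix (Fin N) (Fin N) R).submatrix id (emb I)).submatrix (emb J) id =
        G.submatrix (emb J) (emb I) := by
      ext a c; simp [Matrix.mul_apply, Matrix.one_apply]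
    rw [h4] at h3
    rw [cmp_apply, ← h3, exteriorPower.basis_apply, exteriorPower.ιMulti_family]
    congr 2
    ext a i
    simp only [b, Function.comp_apply, Pi.basisFun_apply, Matrix.transpose_apply,
      Matrix.submatrix_apply, id, Matrix.one_apply, Pi.single_apply]
    rfl
  · rw [exteriorPower.basis_repr_apply, exteriorPower.ιMultiDual_apply_ιMulti,
      ← Matrix.det_transpose]
    congr 1

lemma cmp_mul {N p : ℕ} (A B : Matrix (Fin N) (Fin N) R) :
    cmp p (A * B) = cmp p A * cmp p B := by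
  ext J I
  have := cauchy_binet A (B.submatrix id (emb I)) J
  rw [Matrix.mul_apply]
  exact this

lemma cmp_one {N p : ℕ} : cmp p (1 : Matrix (Fin N) (Fin N) R) = 1 := by
  ext J I
  rw [cmp_apply]
  by_cases h : J = I
  · subst h
    rw [Matrix.submatrix_one _ (emb_inj J)]; simp
  · obtain ⟨a, ha⟩ := exists_not_mem h
    rw [Matrix.one_apply_ne h]
    refine Matrix.det_eq_zero_of_row_eq_zero a fun c => ?_
    rw [Matrix.submatrix_apply, Matrix.one_apply_ne]
    intro he
    exact ha (he ▸ emb_mem I c)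

lemma cmp_map {N p : ℕ} (M : Matrix (Fin N) (Fin N) ℤ) :
    cmp p (M.map (Int.castRingHom ℚ)) = (cmp p M).map (Int.castRingHom ℚ) := by
  ext J I
  rw [cmp_apply, Matrix.map_apply, cmp_apply, RingHom.map_det]
  rfl

lemma det_map_ne_zero {ι : Type} [Fintype ι] [DecidableEq ι] {M : Matrix ι ι ℤ} :
    (M.map (Int.castRingHom ℚ)).det ≠ 0 ↔ M.det ≠ 0 := by
  have := (Int.castRingHom ℚ).map_det M
  rw [RingHom.mapMatrix_apply] at this
  rw [← this]; simp

lemma det_cmp_ne_zero {N p : ℕ} {M : Matrix (Fin N) (Fin N) ℤ} (h : M.det ≠ 0) :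
    (cmp p M).det ≠ 0 := by
  rw [← det_map_ne_zero, ← cmp_map]
  have h1 := Matrix.mul_nonsing_inv _ (isUnit_iff_ne_zero.2 (det_map_ne_zero.2 h))
  have h2 : (cmp p (M.map (Int.castRingHom ℚ))).det *
      (cmp p (M.map (Int.castRingHom ℚ))⁻¹).det = 1 := by
    rw [← Matrix.det_mul, ← cmp_mul, h1, cmp_one, Matrix.det_one]
  exact left_ne_zero_of_mul_eq_one h2

/-- From a linear relation between wedge products to a linear form. -/
theorem exists_form {N p : ℕ} (hp : 0 < p) (T : PS N p) (z : PS N p → ℤ) (hz : z ≠ 0) :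
    ∃ ζ : Fin N → ℚ, ζ ≠ 0 ∧ ∀ (G : Matrix (Fin N) (Fin N) ℤ) (t : Fin N → ℤ), G.det ≠ 0 →
      (∀ I, I ≠ T → ∑ J, z J * cmp p G J I = 0) → (∀ j ∈ T.1, t j = 0) →
      ζ ⬝ᵥ (fun j => ((G *ᵥ t) j : ℚ)) = 0 := by
  obtain ⟨J0, hJ0⟩ := Function.ne_iff.1 hz
  let a0 : Fin p := ⟨0, hp⟩
  let E : Matrix (Fin N) (Fin p) ℚ := (1 : Matrix (Fin N) (Fin N) ℚ).submatrix id (emb J0)
  let F : (Fin N → ℚ) →ₗ[ℚ] ℚ := ∑ J : PS N p, (z J : ℚ) •
    ((LinearMap.proj a0).comp ((Matrix.cramer (E.submatrix (emb J) id)).comp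
      (LinearMap.funLeft ℚ ℚ (emb J))))
  have hF : ∀ y, F y = ∑ J, (z J : ℚ) * ((E.updateCol a0 y).submatrix (emb J) id).det := by
    intro y
    simp only [F, LinearMap.sum_apply, LinearMap.smul_apply, LinearMap.comp_apply,
      LinearMap.proj_apply, Matrix.cramer_apply, smul_eq_mul]
    refine Finset.sum_congr rfl fun J _ => ?_
    congr 2
  have hlin : ∀ y, (fun i => F (Pi.single i 1)) ⬝ᵥ y = F y := by
    intro y
    rw [LinearMap.pi_apply_eq_sum_univ F y, dotProduct]
    refine Finset.sum_congr rfl fun i _ => ?_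
    rw [smul_eq_mul, mul_comm]
    congr 2
    ext j; simp [Pi.single_apply, eq_comm]
  refine ⟨fun i => F (Pi.single i 1), ?_, fun G t hG hrel ht => ?_⟩
  · intro h
    have h1 : F (Pi.single (emb J0 a0) 1) = 0 := congrFun h _
    have h2 : E.updateCol a0 (Pi.single (emb J0 a0) 1) = E := by
      conv_rhs => rw [← Matrix.updateCol_eq_self E a0]
      congr 1
      ext i; simp [E, Matrix.one_apply, Pi.single_apply]
    rw [hF, h2] at h1
    have h3 : ∀ J, (E.submatrix (emb J) id).det = (1 : Matrix (PS N p) (PS N p) ℚ) J J0 := by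
      intro J; rw [← cmp_one]; rfl
    simp only [h3, Matrix.one_apply, mul_ite, mul_one, mul_zero, Finset.sum_ite_eq',
      Finset.mem_univ, if_true] at h1
    exact hJ0 (by exact_mod_cast h1)
  · rw [hlin, hF]
    set G' := G.map (Int.castRingHom ℚ) with hG'
    have hu : IsUnit G'.det := isUnit_iff_ne_zero.2 (det_map_ne_zero.2 hG)
    set W := (G'⁻¹ * E).updateCol a0 fun j => (t j : ℚ) with hW
    have hGW : (E.updateCol a0 fun j => ((G *ᵥ t) j : ℚ)) = G' * W := by
      ext i c
      by_cases hc : c = a0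
      · subst hc
        simp [hW, Matrix.mul_apply, hG', Matrix.mulVec, dotProduct]
      · have : (G' * W) i c = (G' * (G'⁻¹ * E)) i c := by
          simp only [Matrix.mul_apply (M := G'), hW, Matrix.updateCol_ne hc]
        rw [this, Matrix.mul_nonsing_inv_cancel_left _ _ hu, Matrix.updateCol_ne hc]
    rw [hGW]
    simp_rw [cauchy_binet, Finset.mul_sum]
    rw [Finset.sum_comm]
    refine Finset.sum_eq_zero fun I _ => ?_
    by_cases hI : I = T
    · have : (W.submatrix (emb I) id).det = 0 := by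
        refine Matrix.det_eq_zero_of_column_eq_zero a0 fun a => ?_
        have hm : emb I a ∈ T.1 := hI ▸ emb_mem I a
        simp [hW, ht _ hm]
      simp [this]
    · simp_rw [← mul_assoc]
      rw [← Finset.sum_mul]
      have : ∑ J, (z J : ℚ) * cmp p G' J I = ((∑ J, z J * cmp p G J I : ℤ) : ℚ) := by
        rw [hG', cmp_map]; push_cast; rfl
      rw [this, hrel I hI]; simp

/-- Leibniz bound for an absolute value of a determinant. -/
lemma abv_det_le' {ι K : Type} [Fintype ι] [DecidableEq ι] [CommRing K] [Nontrivial K]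
    (ab : AbsoluteValue K ℝ) (M : Matrix ι ι K) (B : ℝ)
    (h : ∀ σ : Equiv.Perm ι, ∏ a, ab (M (σ a) a) ≤ B) :
    ab M.det ≤ (Fintype.card ι).factorial * B := by
  rw [Matrix.det_apply']
  refine (ab.sum_le _ _).trans ?_
  have : ∀ σ : Equiv.Perm ι, ab (((Equiv.Perm.sign σ : ℤ) : K) * ∏ i, M (σ i) i) ≤ B := by
    intro σ
    have h1 : ab ((Equiv.Perm.sign σ : ℤ) : K) = 1 := by
      rcases Int.units_eq_one_or (Equiv.Perm.sign σ) with h | h <;> simp [h]
    rw [map_mul, h1, one_mul, map_prod]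
    exact h σ
  refine (Finset.sum_le_card_nsmul _ _ B fun σ _ => this σ).trans ?_
  rw [Finset.card_univ, Fintype.card_perm, nsmul_eq_mul]

lemma abv_det_le {ι : Type} [Fintype ι] [DecidableEq ι] (ab : AbsoluteValue ℚ ℝ)
    (M : Matrix ι ι ℤ) (B : ℝ) (h : ∀ σ : Equiv.Perm ι, ∏ a, ab (M (σ a) a : ℤ) ≤ B) :
    ab (M.det : ℤ) ≤ (Fintype.card ι).factorial * B := by
  rw [Int.cast_det]
  exact abv_det_le' ab _ B h

/-- Leibniz bound with one bound per row. -/
lemma abv_det_le_rows {ι K : Type} [Fintype ι] [DecidableEq ι] [CommRing K] [Nontrivial K]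
    (ab : AbsoluteValue K ℝ) (M : Matrix ι ι K) (r : ι → ℝ) (h : ∀ i j, ab (M i j) ≤ r i) :
    ab M.det ≤ (Fintype.card ι).factorial * ∏ i, r i := by
  refine abv_det_le' ab M _ fun σ => ?_
  rw [← Equiv.prod_comp σ r]
  exact Finset.prod_le_prod (fun a _ => ab.nonneg _) fun a _ => h _ _

open Real in
/-- Bound for the entries of a compound matrix. -/
lemma abv_cmp_le {N p : ℕ} (ab : AbsoluteValue ℚ ℝ) (M : Matrix (Fin N) (Fin N) ℤ)
    (w : Fin N → ℝ) (h : ∀ i j, ab (M i j : ℤ) ≤ exp (w i)) (J I : PS N p) :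
    ab (cmp p M J I : ℤ) ≤ exp (∑ i ∈ J.1, w i + log p.factorial) := by
  rw [cmp_apply, exp_add, exp_log (by exact_mod_cast p.factorial_pos), mul_comm, ← sum_emb,
    exp_sum]
  have := abv_det_le ab (M.submatrix (emb J) (emb I)) (∏ a, exp (w (emb J a))) fun σ => by
    rw [← Equiv.prod_comp σ fun a => exp (w (emb J a))]
    exact Finset.prod_le_prod (fun a _ => ab.nonneg _) fun a _ => h _ _
  simpa using this

open Real in
/-- Improved bound for one row of a compound matrix. -/
lemma abv_cmp_le_gap {N p : ℕ} (ab : AbsoluteValue ℚ ℝ) (M : Matrix (Fin N) (Fin N) ℤ)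
    (w : Fin N → ℝ) (h : ∀ i j, ab (M i j : ℤ) ≤ exp (w i)) (g : ℝ) (J T I : PS N p)
    (hg : ∀ i ∈ J.1, ∀ j ∉ T.1, ab (M i j : ℤ) ≤ exp (w i - g)) (hI : I ≠ T) :
    ab (cmp p M J I : ℤ) ≤ exp (∑ i ∈ J.1, w i + log p.factorial - g) := by
  obtain ⟨c, hc⟩ := exists_not_mem hI
  have := abv_det_le ab (M.submatrix (emb J) (emb I)) (exp (∑ i ∈ J.1, w i - g)) fun σ => by
    have h1 : ∑ i ∈ J.1, w i - g = ∑ a, (w (emb J (σ a)) - if a = c then g else 0) := by
      rw [Finset.sum_sub_distrib, Equiv.sum_comp σ fun a => w (emb J a), sum_emb]; simp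
    rw [h1, exp_sum]
    refine Finset.prod_le_prod (fun a _ => ab.nonneg _) fun a _ => ?_
    by_cases ha : a = c
    · subst ha
      simpa using hg _ (emb_mem J (σ a)) _ hc
    · simpa [ha] using h _ _
  rw [cmp_apply]
  refine this.trans (le_of_eq ?_)
  rw [Fintype.card_fin, add_sub_right_comm, exp_add,
    exp_log (by exact_mod_cast p.factorial_pos), mul_comm]

end Pool.Agent.Subspace
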