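import Mathlib
import Pool.Agent.Shared.Subspace.Places
import Pool.Agent.Shared.Subspace.Lattice
import Pool.Agent.Shared.Subspace.Wedge

/-! A reduced basis for the lattice attached to an adelic box. -/

open Matrix Real

namespace Pool.Agent.Subspace

/-- If the columns of `G` generate all solutions of a system of congruences then the
determinant of `G` is at most the product of the moduli. -/
lemma abs_det_le_prod {N : ℕ} {κ : Type} [Fintype κ] (m : κ → ℕ) (hm : ∀ k, 0 < m k)
    (f : κ → (Fin N → ℤ) →+ ℤ) (G : Matrix (Fin N) (Fin N) ℤ) (hG : G.det ≠ 0)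
    (h : ∀ y, (∀ k, (m k : ℤ) ∣ f k y) → ∃ t, G *ᵥ t = y) :
    |(G.det : ℝ)| ≤ ∏ k, (m k : ℝ) := by
  have : ∀ k, NeZero (m k) := fun k => ⟨(hm k).ne'⟩
  let F : (Fin N → ℤ) →+ (∀ k, ZMod (m k)) :=
    AddMonoidHom.pi fun k => (Int.castAddHom (ZMod (m k))).comp (f k)
  have hinj : Function.Injective (Matrix.toLin' G) := Matrix.mulVec_injective_of_det_ne_zero hG
  have h1 := Submodule.natAbs_det_equiv (LinearMap.range (Matrix.toLin' G))
    (LinearEquiv.ofInjective _ hinj)
  have h2 : (LinearMap.range (Matrix.toLin' G)).subtype ∘ₗ AddMonoidHom.toIntLinearMap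
      ((LinearEquiv.ofInjective _ hinj :
        (Fin N → ℤ) ≃ₗ[ℤ] LinearMap.range (Matrix.toLin' G)) :
        (Fin N → ℤ) →+ LinearMap.range (Matrix.toLin' G)) = Matrix.toLin' G := by
    apply LinearMap.ext; intro y; rfl
  rw [h2, LinearMap.det_toLin'] at h1
  have h3 : F.ker ≤ (LinearMap.range (Matrix.toLin' G)).toAddSubgroup := by
    intro y hy
    refine h y fun k => ?_
    have := congrFun (AddMonoidHom.mem_ker.1 hy) k
    exact (ZMod.intCast_zmod_eq_zero_iff_dvd _ _).1 this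
  have h4 : F.ker.index ≤ ∏ k, m k := by
    rw [AddSubgroup.index_ker]
    refine (Nat.card_le_card_of_injective _ Subtype.val_injective).trans ?_
    rw [Nat.card_pi]; simp
  have h5 : G.det.natAbs ≤ ∏ k, m k := by
    rw [h1]
    exact (AddSubgroup.index_antitone h3).trans h4
  have h6 : |(G.det : ℝ)| = (G.det.natAbs : ℝ) := by simp
  rw [h6]
  exact_mod_cast h5

lemma finite_box {N : ℕ} (L : Matrix (Fin N) (Fin N) ℤ) (hL : L.det ≠ 0) (r : Fin N → ℝ) :
    {y : Fin N → ℤ | ∀ i, |((L *ᵥ y) i : ℝ)| ≤ r i}.Finite := by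
  have h1 : (Set.pi Set.univ fun i => Set.Icc (-⌈r i⌉) ⌈r i⌉).Finite :=
    Set.Finite.pi fun i => Set.finite_Icc _ _
  refine (h1.preimage (Matrix.mulVec_injective_of_det_ne_zero hL).injOn).subset ?_
  intro y hy i _
  have h2 : (|(L *ᵥ y) i| : ℤ) ≤ ⌈r i⌉ := by
    have := (hy i).trans (Int.le_ceil (r i))
    exact_mod_cast this
  exact abs_le.1 h2

/-- Cramer bound for the coordinates of a short vector. -/
lemma cramer_bound {N : ℕ} (v : Fin N → Fin N → ℝ) (lam : Fin N → ℝ) (C : ℝ) (hC : 1 ≤ C)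
    (hpos : ∀ j, 0 < lam j) (hv : ∀ j i, |v j i| ≤ C * lam j)
    (hdet : ∏ j, lam j ≤ C * |(Matrix.of v).det|) (t : Fin N → ℝ)
    (ht : ∀ i, |(∑ j, t j • v j) i| ≤ 1) (j : Fin N) :
    |t j| * lam j ≤ N.factorial * C ^ (N + 1) := by
  have h1 := Matrix.det_updateRow_sum (Matrix.of v) j t
  have h2 := abv_det_le_rows AbsoluteValue.abs
    ((Matrix.of v).updateRow j (∑ k, t k • (Matrix.of v) k))
    (fun k => C * Function.update lam j 1 k) fun k i => by
      by_cases hk : k = j
      · subst hk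
        simp only [Matrix.updateRow_self, AbsoluteValue.abs_apply, Function.update_self, mul_one]
        exact (ht i).trans hC
      · simp only [Matrix.updateRow_ne hk, AbsoluteValue.abs_apply, Function.update_of_ne hk]
        exact hv k i
  rw [h1, Finset.prod_mul_distrib, Finset.prod_update_of_mem (Finset.mem_univ j)] at h2
  simp only [smul_eq_mul, AbsoluteValue.abs_apply, abs_mul, Fintype.card_fin, Finset.prod_const,
    Finset.card_univ, one_mul] at h2
  have h3 : ∏ k, lam k = lam j * ∏ k ∈ Finset.univ \ {j}, lam k := by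
    rw [← Finset.mul_prod_erase _ _ (Finset.mem_univ j), Finset.sdiff_singleton_eq_erase]
  set P := ∏ k ∈ Finset.univ \ {j}, lam k with hP
  have hP0 : 0 < P := Finset.prod_pos fun k _ => hpos k
  rw [h3] at hdet
  have h4 : |t j| * lam j * P ≤ N.factorial * C ^ (N + 1) * P :=
    calc |t j| * lam j * P = |t j| * (lam j * P) := by ring
      _ ≤ |t j| * (C * |(Matrix.of v).det|) := mul_le_mul_of_nonneg_left hdet (abs_nonneg _)
      _ = C * (|t j| * |(Matrix.of v).det|) := by ring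
      _ ≤ C * (N.factorial * (C ^ N * P)) := mul_le_mul_of_nonneg_left h2 (by linarith)
      _ = _ := by ring
  exact le_of_mul_le_mul_right h4 hP0

theorem box_basis (S : Finset ℕ) (hS : ∀ p ∈ S, p.Prime) (N : ℕ)
    (L : Option S → Matrix (Fin N) (Fin N) ℤ) (hL : ∀ v, (L v).det ≠ 0) :
    ∃ b : ℝ, 1 ≤ b ∧ ∀ (u : Option S → Fin N → ℝ) (x : Fin N → ℤ),
      (∀ v i, plAbs S hS v ((L v *ᵥ x) i : ℤ) ≤ exp (u v i)) →
      ∃ (G : Matrix (Fin N) (Fin N) ℤ) (t : Fin N → ℤ) (u' : S → Fin N → ℝ) (l : Fin N → ℝ)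
        (pm : Equiv.Perm (Fin N)), G.det ≠ 0 ∧ x = G *ᵥ t ∧
        (∀ p i, u' p i ≤ u (some p) i ∧ |u' p i| ≤ |u (some p) i| + b) ∧
        (∀ p i j, plAbs S hS (some p) ((L (some p) * G) i j : ℤ) ≤ exp (u' p i)) ∧
        (∀ i j, |((L none * G) (pm i) j : ℝ)| ≤ exp (u none (pm i) + min (l i) (l j) + b)) ∧
        ∑ j, l j + ∑ i, u none i + ∑ p, ∑ i, u' p i ≤ b ∧
        ∀ j, |(t j : ℝ)| ≤ exp (b - l j) := by
  obtain ⟨C, hC, hred⟩ := lattice_reduction N
  have hd1 : (1 : ℝ) ≤ |((L none).det : ℝ)| := by exact_mod_cast Int.one_le_abs (hL none)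
  have hlC : 0 ≤ log C := log_nonneg hC
  have hld : 0 ≤ log |((L none).det : ℝ)| := log_nonneg hd1
  have hF1 : (1 : ℝ) ≤ N.factorial * C ^ (N + 1) :=
    one_le_mul_of_one_le_of_one_le (by exact_mod_cast N.factorial_pos) (one_le_pow₀ hC)
  have hlF : 0 ≤ log (N.factorial * C ^ (N + 1)) := log_nonneg hF1
  have hlS : 0 ≤ ∑ p : S, log ((p : ℕ) : ℝ) :=
    Finset.sum_nonneg fun p _ => (log_pos_of_mem hS p).le
  set b := 1 + log C + log |((L none).det : ℝ)| + log (N.factorial * C ^ (N + 1)) +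
    ∑ p : S, log ((p : ℕ) : ℝ) with hb
  refine ⟨b, by linarith, fun u x hx => ?_⟩
  let e : S → Fin N → ℕ := fun p i => ⌈-u (some p) i / log ((p : ℕ) : ℝ)⌉₊
  let Λ0 : AddSubgroup (Fin N → ℤ) :=
    { carrier := {y | ∀ (p : S) i, ((p : ℕ) : ℤ) ^ e p i ∣ (L (some p) *ᵥ y) i}
      add_mem' := fun {y z} hy hz p i => by
        rw [Matrix.mulVec_add]; exact dvd_add (hy p i) (hz p i)
      zero_mem' := fun p i => by simp
      neg_mem' := fun {y} hy p i => by
        rw [Matrix.mulVec_neg]; exact (dvd_neg.2 (hy p i)) }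
  let φ : (Fin N → ℤ) →+ (Fin N → ℝ) :=
    { toFun := fun y i => exp (-u none i) * ((L none *ᵥ y) i : ℝ)
      map_zero' := by ext i; simp
      map_add' := fun y z => by ext i; simp [Matrix.mulVec_add, mul_add] }
  have hφ : ∀ y i, φ y i = exp (-u none i) * ((L none *ᵥ y) i : ℝ) := fun _ _ => rfl
  have hφ' : ∀ y i, ((L none *ᵥ y) i : ℝ) = exp (u none i) * φ y i := by
    intro y i; rw [hφ, ← mul_assoc, ← exp_add]; simp
  have hinj : Function.Injective φ := by
    intro y z h
    apply Matrix.mulVec_injective_of_det_ne_zero (hL none)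
    ext i
    have : ((L none *ᵥ y) i : ℝ) = (L none *ᵥ z) i := by rw [hφ', hφ', h]
    exact_mod_cast this
  have hfin : ∀ r : ℝ, {x | x ∈ Λ0.map φ ∧ ‖x‖ ≤ r}.Finite := by
    intro r
    refine ((finite_box (L none) (hL none) fun i => exp (u none i) * r).image φ).subset ?_
    rintro _ ⟨⟨y, -, rfl⟩, hr⟩
    refine ⟨y, fun i => ?_, rfl⟩
    rw [hφ', abs_mul, abs_of_pos (exp_pos _)]
    refine mul_le_mul_of_nonneg_left ?_ (exp_pos _).le
    have : |φ y i| ≤ ‖φ y‖ := by simpa using norm_le_pi_norm (φ y) i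
    exact this.trans hr
  have hspan : ∀ w : Fin N → ℝ, (∀ x ∈ Λ0.map φ, w ⬝ᵥ x = 0) → w = 0 := by
    intro w hw
    ext i
    let P : ℤ := ∏ k : S × Fin N, ((k.1 : ℕ) : ℤ) ^ e k.1 k.2
    have hP : P ≠ 0 := Finset.prod_ne_zero_iff.2 fun k _ =>
      pow_ne_zero _ (by exact_mod_cast (hS k.1 k.1.2).ne_zero)
    have hy : P • ((L none).adjugate *ᵥ Pi.single i 1) ∈ Λ0 := by
      intro p k
      rw [Matrix.mulVec_smul]
      exact Dvd.dvd.mul_right (Finset.dvd_prod_of_mem
        (fun k : S × Fin N => ((k.1 : ℕ) : ℤ) ^ e k.1 k.2) (Finset.mem_univ (p, k))) _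
    have h1 := hw _ ⟨_, hy, rfl⟩
    have h2 : L none *ᵥ (P • ((L none).adjugate *ᵥ Pi.single i 1)) =
        Pi.single i (P * (L none).det) := by
      rw [Matrix.mulVec_smul, Matrix.mulVec_mulVec, Matrix.mul_adjugate, Matrix.smul_mulVec,
        Matrix.one_mulVec]
      ext k
      by_cases hk : k = i
      · subst hk; simp
      · simp [hk]
    simp only [dotProduct, hφ, h2] at h1
    rw [Finset.sum_eq_single i (fun k _ hk => by simp [hk]) (by simp)] at h1
    have h3 : exp (-u none i) * ((P : ℝ) * (L none).det) ≠ 0 :=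
      mul_ne_zero (exp_pos _).ne' (mul_ne_zero (by exact_mod_cast hP) (by exact_mod_cast hL none))
    simp only [Pi.single_eq_same, Int.cast_mul] at h1
    exact (mul_eq_zero.1 h1).resolve_right h3
  obtain ⟨v, pm, lam, hv, hgen, hpos, -, hbd, hdet⟩ := hred _ hfin hspan
  choose g hg hgv using hv
  let G : Matrix (Fin N) (Fin N) ℤ := Matrix.of fun i j => g j i
  have hLG : ∀ (M : Matrix (Fin N) (Fin N) ℤ) i j, (M * G) i j = (M *ᵥ g j) i := fun _ _ _ => rfl
  have hGt : ∀ t : Fin N → ℤ, G *ᵥ t = ∑ j, t j • g j := by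
    intro t; ext i; simp [G, Matrix.mulVec, dotProduct, mul_comm]
  have hgen0 : ∀ y ∈ Λ0, ∃ t, G *ᵥ t = y ∧ φ y = ∑ j, t j • v j := by
    intro y hy
    obtain ⟨t, ht⟩ := hgen _ ⟨y, hy, rfl⟩
    refine ⟨t, hinj ?_, ht⟩
    rw [hGt, ht, map_sum]; simp only [map_zsmul, hgv]
  have hdv : (Matrix.of v).det = exp (-∑ i, u none i) * ((L none).det * G.det) := by
    have h1 : (Matrix.of v)ᵀ = Matrix.of fun i j =>
        exp (-u none i) * ((L none * G).map (Int.castRingHom ℝ)) i j := by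
      ext i j
      simp only [Matrix.transpose_apply, Matrix.of_apply, Matrix.map_apply, hLG, ← hgv, hφ]
      rfl
    rw [← Matrix.det_transpose, h1, Matrix.det_mul_column, ← exp_sum, Finset.sum_neg_distrib]
    congr 1
    have := (Int.castRingHom ℝ).map_det (L none * G)
    rw [RingHom.mapMatrix_apply] at this
    rw [← this, Matrix.det_mul]; simp
  have hprod : 0 < ∏ j, lam j := Finset.prod_pos fun j _ => hpos j
  have hG : G.det ≠ 0 := by
    intro h
    rw [hdv, h] at hdet; simp at hdet; linarith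
  have hx0 : x ∈ Λ0 := fun p i => dvd_of_plAbs_le p (hx (some p) i)
  obtain ⟨t, ht, hφt⟩ := hgen0 x hx0
  have hlogp : ∀ p : S, log ((p : ℕ) : ℝ) ≤ b := by
    intro p
    have := Finset.single_le_sum (f := fun p : S => log ((p : ℕ) : ℝ))
      (fun p _ => (log_pos_of_mem hS p).le) (Finset.mem_univ p)
    linarith
  refine ⟨G, t, fun p i => -(e p i * log ((p : ℕ) : ℝ)), fun j => log (lam j), pm, hG, ht.symm,
    fun p i => ?_, fun p i j => plAbs_le_of_dvd p (hg j p i), fun i j => ?_, ?_, fun j => ?_⟩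
  · have hp := log_pos_of_mem hS p
    have h1 : -u (some p) i / log ((p : ℕ) : ℝ) ≤ e p i := Nat.le_ceil _
    rw [div_le_iff₀ hp] at h1
    refine ⟨by linarith, ?_⟩
    have h2 : (e p i : ℝ) ≤ |u (some p) i| / log ((p : ℕ) : ℝ) + 1 := by
      have h3 : e p i ≤ ⌈|u (some p) i| / log ((p : ℕ) : ℝ)⌉₊ :=
        Nat.ceil_mono (div_le_div_of_nonneg_right (neg_le_abs _) hp.le)
      have h4 := Nat.ceil_lt_add_one (div_nonneg (abs_nonneg (u (some p) i)) hp.le)
      have h5 : (e p i : ℝ) ≤ ⌈|u (some p) i| / log ((p : ℕ) : ℝ)⌉₊ := by exact_mod_cast h3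
      linarith
    rw [abs_neg, abs_of_nonneg (by positivity)]
    have h6 := mul_le_mul_of_nonneg_right h2 hp.le
    rw [add_mul, div_mul_cancel₀ _ hp.ne', one_mul] at h6
    linarith [hlogp p]
  · rw [hLG, hφ', hgv, abs_mul, abs_of_pos (exp_pos _), add_assoc, exp_add]
    refine mul_le_mul_of_nonneg_left ((hbd i j).trans ?_) (exp_pos _).le
    have h1 : min (lam i) (lam j) = exp (min (log (lam i)) (log (lam j))) := by
      rw [exp_monotone.map_min, exp_log (hpos i), exp_log (hpos j)]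
    have h2 : C ≤ exp b := by
      rw [← exp_log (by linarith : 0 < C), exp_le_exp]; linarith
    rw [h1, exp_add, mul_comm]
    exact mul_le_mul_of_nonneg_left h2 (exp_pos _).le
  · have h1 := abs_det_le_prod (κ := S × Fin N) (fun k => (k.1 : ℕ) ^ e k.1 k.2)
      (fun k => pow_pos (hS k.1 k.1.2).pos _)
      (fun k => (Pi.evalAddMonoidHom (fun _ => ℤ) k.2).comp
        (Matrix.mulVecLin (L (some k.1))).toAddMonoidHom) G hG fun y hy => by
        obtain ⟨t, ht, -⟩ := hgen0 y fun p i => by simpa using hy (p, i)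
        exact ⟨t, ht⟩
    have h2 : ∏ k : S × Fin N, (((k.1 : ℕ) ^ e k.1 k.2 : ℕ) : ℝ) =
        exp (-∑ p : S, ∑ i, -(e p i * log ((p : ℕ) : ℝ))) := by
      rw [← Finset.sum_product', ← Finset.sum_neg_distrib, exp_sum]
      refine Finset.prod_congr rfl fun k _ => ?_
      rw [neg_neg, exp_nat_mul, exp_log (by exact_mod_cast (hS k.1 k.1.2).pos)]; simp
    rw [h2] at h1
    have h3 : ∏ j, lam j = exp (∑ j, log (lam j)) := by
      rw [exp_sum]; exact Finset.prod_congr rfl fun j _ => (exp_log (hpos j)).symm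
    have h4 : C * |(Matrix.of v).det| ≤ exp (log C + -∑ i, u none i + log |((L none).det : ℝ)| +
        -∑ p : S, ∑ i, -(e p i * log ((p : ℕ) : ℝ))) := by
      rw [hdv, exp_add, exp_add, exp_add, exp_log (by linarith), exp_log (by linarith), abs_mul,
        abs_mul, abs_of_pos (exp_pos _), mul_assoc, mul_assoc]
      gcongr
    have h5 := exp_le_exp.1 ((h3 ▸ hdet).trans h4)
    linarith
  · have h1 := cramer_bound v lam C hC hpos (fun j i => by
      have := hbd (pm.symm i) j
      rw [Equiv.apply_symm_apply] at this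
      exact this.trans (mul_le_mul_of_nonneg_left (min_le_right _ _) (by linarith))) hdet
      (fun j => (t j : ℝ)) (fun i => by
        have h2 : (∑ j, (t j : ℝ) • v j) = φ x := by
          rw [hφt]; simp only [Int.cast_smul_eq_zsmul]
        have h3 := hx none i
        rw [plAbs_none_int] at h3
        rw [h2, hφ, abs_mul, abs_of_pos (exp_pos _), Real.exp_neg, inv_mul_le_iff₀ (exp_pos _),
          mul_one]
        exact h3) j
    have h2 : (N.factorial : ℝ) * C ^ (N + 1) ≤ exp b := by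
      rw [← exp_log (by linarith : (0 : ℝ) < N.factorial * C ^ (N + 1)), exp_le_exp]; linarith
    rw [exp_sub, exp_log (hpos j), le_div_iff₀ (hpos j)]
    exact h1.trans h2

end Pool.Agent.Subspace
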