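import Mathlib
import Pool.Agent.Shared.Subspace.Box

/-! A gap between the minima, and the reduction of the Subspace Theorem to the penultimate
minimum theorem. -/

open Filter Matrix Real

namespace Pool.Agent.Subspace

lemma exists_gap {N : ℕ} (l : Fin N → ℝ) {g : ℝ} (hg : 0 < g) (j0 : Fin N) (h : N * g ≤ l j0) :
    ∃ T : Finset (Fin N), T.Nonempty ∧ (∀ j ∈ T, g ≤ l j) ∧ ∀ i ∉ T, ∀ j ∈ T, l i + g ≤ l j := by
  have h1 : ∃ m : Fin N, ∀ i, ¬ ((m : ℝ) * g ≤ l i ∧ l i < (m + 1) * g) := by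
    by_contra hcon
    push Not at hcon
    choose f hf1 hf2 using hcon
    have hinj : Function.Injective f := by
      intro m m' hm
      have a1 := hf1 m; have a2 := hf2 m; have a3 := hf1 m'; have a4 := hf2 m'
      rw [hm] at a1 a2
      have b1 : (m : ℝ) < m' + 1 := lt_of_mul_lt_mul_right (a1.trans_lt a4) hg.le
      have b2 : (m' : ℝ) < m + 1 := lt_of_mul_lt_mul_right (a3.trans_lt a2) hg.le
      have c1 : (m : ℕ) < m' + 1 := by exact_mod_cast b1
      have c2 : (m' : ℕ) < m + 1 := by exact_mod_cast b2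
      exact Fin.ext (by omega)
    obtain ⟨m, rfl⟩ := Finite.injective_iff_surjective.1 hinj j0
    have b1 : (N : ℝ) < m + 1 := lt_of_mul_lt_mul_right (h.trans_lt (hf2 m)) hg.le
    have c1 : N < (m : ℕ) + 1 := by exact_mod_cast b1
    omega
  obtain ⟨m, hm⟩ := h1
  have hm0 : (0 : ℝ) ≤ m := Nat.cast_nonneg _
  have hmN : (m : ℝ) + 1 ≤ N := by exact_mod_cast m.2
  refine ⟨Finset.univ.filter fun j => (m + 1) * g ≤ l j, ⟨j0, ?_⟩, fun j hj => ?_,
    fun i hi j hj => ?_⟩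
  · simp only [Finset.mem_filter, Finset.mem_univ, true_and]; nlinarith
  · simp only [Finset.mem_filter, Finset.mem_univ, true_and] at hj; nlinarith
  · simp only [Finset.mem_filter, Finset.mem_univ, true_and, not_le] at hi hj
    have : l i < m * g := by
      by_contra hc
      exact hm i ⟨not_lt.1 hc, hi⟩
    linarith

theorem static_step (S : Finset ℕ) (hS : ∀ p ∈ S, p.Prime) (N : ℕ)
    (L : Option S → Matrix (Fin N) (Fin N) ℤ) (hL : ∀ v, (L v).det ≠ 0) :
    ∃ B : ℝ, 1 ≤ B ∧ ∀ (a g : ℝ) (u : Option S → Fin N → ℝ) (x : Fin N → ℤ),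
      (∀ v i, |u v i| ≤ a) → B < g → ∑ v, ∑ i, u v i ≤ -(N ^ 2 * g + B) →
      (∀ v i, plAbs S hS v ((L v *ᵥ x) i : ℤ) ≤ exp (u v i)) →
      ∃ T : Finset (Fin N), T.Nonempty ∧ ∃ (G : Matrix (Fin N) (Fin N) ℤ) (t : Fin N → ℤ)
        (w : Option S → Fin N → ℝ) (T' : Finset (Fin N)), T'.card = T.card ∧ G.det ≠ 0 ∧
        x = G *ᵥ t ∧ (∀ j ∈ T, t j = 0) ∧ (∀ v i, |w v i| ≤ B * (a + B)) ∧
        ∑ v, ∑ i, w v i ≤ B ∧ (∀ v i j, plAbs S hS v ((L v * G) i j : ℤ) ≤ exp (w v i)) ∧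
        ∀ i ∈ T', ∀ j ∉ T, plAbs S hS none ((L none * G) i j : ℤ) ≤ exp (w none i - g) := by
  obtain ⟨b, hb, hbox⟩ := box_basis S hS N L hL
  have hab : ∀ v, 0 < plAbs S hS v ((L v).det : ℤ) := fun v =>
    (plAbs S hS v).pos (by exact_mod_cast hL v)
  set β := ∑ v, |log (N.factorial / plAbs S hS v ((L v).det : ℤ))| with hβ
  have hβ0 : 0 ≤ β := Finset.sum_nonneg fun _ _ => abs_nonneg _
  have hN0 : (0 : ℝ) ≤ N := Nat.cast_nonneg _
  have hs0 : (0 : ℝ) ≤ S.card := Nat.cast_nonneg _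
  set K : ℝ := 3 + 2 * N + S.card * N with hK
  have hsN : (0 : ℝ) ≤ S.card * N := by positivity
  have hK1 : 1 ≤ K := by linarith
  have hKb : K ≤ K * b := by nlinarith
  have hKb' : (N + 1) * b ≤ K * b := by nlinarith
  have hNb : 0 ≤ N * b := by positivity
  refine ⟨K * b + β, by linarith, fun a g u x hu hg hsum hx => ?_⟩
  obtain ⟨G, t, u', l, pm, hG, hxG, hu', hp, hr, hl, ht⟩ := hbox u x hx
  have hN : Nonempty (Fin N) := by
    by_contra hc
    rw [not_nonempty_iff] at hc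
    simp only [Finset.univ_eq_empty, Finset.sum_empty, Finset.sum_const_zero] at hsum
    nlinarith [sq_nonneg (N : ℝ)]
  have ha : 0 ≤ a := (abs_nonneg _).trans (hu none hN.some)
  let w : Option S → Fin N → ℝ := fun v =>
    Option.rec (fun i => u none i + l (pm.symm i) + b) u' v
  have hw0 : ∀ i, w none i = u none i + l (pm.symm i) + b := fun _ => rfl
  have hw1 : ∀ p, w (some p) = u' p := fun _ => rfl
  have hr' : ∀ i j, plAbs S hS none ((L none * G) i j : ℤ) ≤
      exp (u none i + min (l (pm.symm i)) (l j) + b) := by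
    intro i j
    have := hr (pm.symm i) j
    rw [Equiv.apply_symm_apply] at this
    rw [plAbs_none_int]; exact this
  have hall : ∀ v i j, plAbs S hS v ((L v * G) i j : ℤ) ≤ exp (w v i) := by
    intro v i j
    rcases v with _ | p
    · refine (hr' i j).trans (exp_le_exp.2 ?_)
      rw [hw0]; linarith [min_le_left (l (pm.symm i)) (l j)]
    · exact hp p i j
  have hwsum : ∑ v, ∑ i, w v i = ∑ j, l j + ∑ i, u none i + ∑ p, ∑ i, u' p i + N * b := by
    rw [Fintype.sum_option]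
    simp only [hw0, hw1, Finset.sum_add_distrib, Equiv.sum_comp pm.symm l, Finset.sum_const,
      Finset.card_univ, Fintype.card_fin, nsmul_eq_mul]
    ring
  -- product formula
  have hpf : 0 ≤ β + ∑ v, ∑ i, w v i := by
    have h1 : ∀ v, plAbs S hS v (G.det : ℤ) ≤
        exp (|log (N.factorial / plAbs S hS v ((L v).det : ℤ))| + ∑ i, w v i) := by
      intro v
      have h2 := abv_det_le (plAbs S hS v) (L v * G) (∏ i, exp (w v i)) fun σ => by
        rw [← Equiv.prod_comp σ fun i => exp (w v i)]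
        exact Finset.prod_le_prod (fun a _ => (plAbs S hS v).nonneg _) fun a _ => hall _ _ _
      rw [Matrix.det_mul, Int.cast_mul, map_mul, Fintype.card_fin, ← exp_sum] at h2
      have h3 : (N.factorial : ℝ) / plAbs S hS v ((L v).det : ℤ) ≤
          exp |log (N.factorial / plAbs S hS v ((L v).det : ℤ))| :=
        (le_exp_log _).trans (exp_le_exp.2 (le_abs_self _))
      rw [exp_add]
      refine le_trans ?_ (mul_le_mul_of_nonneg_right h3 (exp_pos _).le)
      rw [div_mul_eq_mul_div, le_div_iff₀ (hab v), mul_comm]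
      exact h2
    have h4 := (one_le_prod_plAbs (hS := hS) G.det hG).trans
      (Finset.prod_le_prod (fun v _ => (plAbs S hS v).nonneg _) fun v _ => h1 v)
    rw [← exp_sum, Finset.sum_add_distrib, one_le_exp_iff] at h4
    exact h4
  have hsum' : ∑ i, u none i + ∑ p, ∑ i, u' p i ≤ ∑ v, ∑ i, u v i := by
    rw [Fintype.sum_option]
    gcongr with p _ i _
    exact (hu' p i).1
  have hbig : ∃ j, N * g ≤ l j := by
    have : ∑ _j : Fin N, N * g ≤ ∑ j, l j := by
      rw [Finset.sum_const, Finset.card_univ, Fintype.card_fin, nsmul_eq_mul]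
      nlinarith
    obtain ⟨j, -, hj⟩ := Finset.exists_le_of_sum_le Finset.univ_nonempty this
    exact ⟨j, hj⟩
  obtain ⟨j0, hj0⟩ := hbig
  obtain ⟨T, hT, hT1, hT2⟩ := exists_gap l (by linarith : 0 < g) j0 hj0
  -- lower bounds for the minima
  have hlow : ∀ j, -(a + b) ≤ l j := by
    intro j
    have hdet : (L none * G).det ≠ 0 := by rw [Matrix.det_mul]; exact mul_ne_zero (hL none) hG
    obtain ⟨i, hi⟩ : ∃ i, (L none * G) i j ≠ 0 := by
      by_contra hc
      push Not at hc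
      exact hdet (Matrix.det_eq_zero_of_column_eq_zero j hc)
    have h1 : (1 : ℝ) ≤ |((L none * G) i j : ℝ)| := by exact_mod_cast Int.one_le_abs hi
    have h2 := hr' i j
    rw [plAbs_none_int] at h2
    have h3 := one_le_exp_iff.1 (h1.trans h2)
    linarith [min_le_right (l (pm.symm i)) (l j), (abs_le.1 (hu none i)).2]
  have hu'' : ∀ p i, |u' p i| ≤ a + b := fun p i => by linarith [(hu' p i).2, hu (some p) i]
  have hup : ∀ j, l j ≤ (K - 1) * (a + b) := by
    intro j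
    have h1 : l j + (a + b) ≤ ∑ k, (l k + (a + b)) :=
      Finset.single_le_sum (f := fun k => l k + (a + b)) (fun k _ => by linarith [hlow k])
        (Finset.mem_univ j)
    rw [Finset.sum_add_distrib, Finset.sum_const, Finset.card_univ, Fintype.card_fin,
      nsmul_eq_mul] at h1
    have h2 : ∑ _i : Fin N, -(a + b) ≤ ∑ i, u none i :=
      Finset.sum_le_sum fun i _ => by linarith [(abs_le.1 (hu none i)).1]
    have h3 : ∑ _p : S, ∑ _i : Fin N, -(a + b) ≤ ∑ p, ∑ i, u' p i :=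
      Finset.sum_le_sum fun p _ => Finset.sum_le_sum fun i _ => (abs_le.1 (hu'' p i)).1
    simp only [Finset.sum_const, Finset.card_univ, Fintype.card_fin, nsmul_eq_mul,
      Fintype.card_coe] at h2 h3
    rw [hK]
    nlinarith
  have hKK : K * (a + b) ≤ (K * b + β) * (a + (K * b + β)) := by
    have h1 : b ≤ K * b + β := by nlinarith
    exact mul_le_mul (by linarith) (by linarith) (by linarith) (by linarith)
  refine ⟨T, hT, G, t, w, T.map pm.toEmbedding, Finset.card_map _, hG, hxG, fun j hj => ?_,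
    fun v i => le_trans ?_ hKK, by rw [hwsum]; linarith, hall, fun i hi j hj => ?_⟩
  · have h1 : |(t j : ℝ)| < 1 := (ht j).trans_lt (by
      rw [exp_lt_one_iff]; linarith [hT1 j hj])
    have h2 : |t j| < 1 := by exact_mod_cast h1
    exact Int.abs_lt_one_iff.1 h2
  · rcases v with _ | p
    · rw [hw0, abs_le]
      have h1 := abs_le.1 (hu none i)
      have h2 : 2 * (a + b) ≤ K * (a + b) :=
        mul_le_mul_of_nonneg_right (by linarith) (by linarith)
      constructor <;> linarith [hlow (pm.symm i), hup (pm.symm i)]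
    · rw [hw1]
      exact (hu'' p i).trans (by nlinarith)
  · refine (hr' i j).trans (exp_le_exp.2 ?_)
    rw [Finset.mem_map_equiv] at hi
    rw [hw0]
    linarith [min_le_right (l (pm.symm i)) (l j), hT2 j hj _ hi]

/-- The statement of the penultimate minimum theorem. -/
def PenStmt : Prop := ∀ {ι Pl : Type} [Fintype ι] [DecidableEq ι] [Fintype Pl]
    (ab : Pl → AbsoluteValue ℚ ℝ)
    (_ : ∀ v (z : ℤ), ab v z ≤ |(z : ℝ)|) (_ : ∀ z : ℤ, z ≠ 0 → 1 ≤ ∏ v, ab v z)
    (L : Pl → Matrix ι ι ℤ) (_ : ∀ v, (L v).det ≠ 0) (j0 : ι)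
    (U : Ultrafilter ℕ) (q : ℕ → ℝ) (_ : Tendsto q U atTop) (A δ : ℝ) (_ : 0 < δ)
    (Y : ℕ → Matrix ι ι ℤ) (u : ℕ → Pl → ι → ℝ)
    (_ : ∀ᶠ k in U, (Y k).det ≠ 0 ∧ (∀ v i, |u k v i| ≤ A * q k) ∧
      ∑ v, ∑ i, u k v i ≤ -δ * q k ∧
      ∀ v i j, j ≠ j0 → ab v ((L v * Y k) i j : ℤ) ≤ exp (u k v i)),
    ∃ ζ : ι → ℤ, ζ ≠ 0 ∧ ∀ᶠ k in U, ∀ j, j ≠ j0 → ∑ i, ζ i * Y k i j = 0

theorem subspace_int (hpen : PenStmt) (S : Finset ℕ) (hS : ∀ p ∈ S, p.Prime) (N : ℕ)
    (L : Option S → Matrix (Fin N) (Fin N) ℤ) (hL : ∀ v, (L v).det ≠ 0)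
    (U : Ultrafilter ℕ) (q : ℕ → ℝ) (hq : Tendsto q U atTop) (A δ : ℝ) (hδ : 0 < δ)
    (x : ℕ → Fin N → ℤ) (u : ℕ → Option S → Fin N → ℝ)
    (h : ∀ᶠ k in U, (∀ v i, |u k v i| ≤ A * q k) ∧ ∑ v, ∑ i, u k v i ≤ -δ * q k ∧
      ∀ v i, plAbs S hS v ((L v *ᵥ x k) i : ℤ) ≤ exp (u k v i)) :
    ∃ ζ : Fin N → ℚ, ζ ≠ 0 ∧ ∀ᶠ k in U, ζ ⬝ᵥ (fun j => (x k j : ℚ)) = 0 := by
  obtain ⟨B, hB, hstat⟩ := static_step S hS N L hL
  set γ : ℝ := δ / (N ^ 2 + 1) with hγ
  have hγ0 : 0 < γ := by positivity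
  have hγδ : δ = N ^ 2 * γ + γ := by rw [hγ]; field_simp
  have hev : ∀ c : ℝ, ∀ᶠ k in U, c < γ * q k := fun c =>
    (hq.const_mul_atTop hγ0).eventually_gt_atTop c
  have h1 := (h.and (hev B)).mono fun k hk =>
    hstat (A * q k) (γ * q k) (u k) (x k) hk.1.1 hk.2 (by
      have := hk.1.2.1
      rw [hγδ] at this
      nlinarith [hk.2]) hk.1.2.2
  obtain ⟨T, hT⟩ := Ultrafilter.eventually_exists_iff.1 h1
  have hTne : T.Nonempty := hT.exists.choose_spec.1
  obtain ⟨G, hG⟩ := (hT.mono fun k hk => hk.2).choice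
  obtain ⟨t, ht⟩ := hG.choice
  obtain ⟨w, hw⟩ := ht.choice
  obtain ⟨T', hT'⟩ := Ultrafilter.eventually_exists_iff.1 hw
  have hc : T'.card = T.card := hT'.exists.choose_spec.1
  obtain ⟨c, hcs⟩ := sum_sum_mem N T.card
  let T0 : PS N T.card := ⟨T, rfl⟩
  let J0 : PS N T.card := ⟨T', hc⟩
  set lf : ℝ := log (T.card.factorial) with hlf
  have hlf0 : 0 ≤ lf := log_nonneg (by exact_mod_cast T.card.factorial_pos)
  let uu : ℕ → Option S → PS N T.card → ℝ := fun k v J =>
    ∑ i ∈ J.1, w k v i + lf - if v = none ∧ J = J0 then γ * q k else 0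
  have hN0 : (0 : ℝ) ≤ N := Nat.cast_nonneg _
  obtain ⟨z, hz, hrel⟩ := hpen (plAbs S hS) plAbs_le one_le_prod_plAbs
    (fun v => cmp T.card (L v)) (fun v => det_cmp_ne_zero (hL v)) T0 U q hq
    (N * B * A + 2 * γ) (γ / 2) (by positivity) (fun k => cmp T.card (G k)) uu (by
      filter_upwards [hT', hev (N * B * B + lf), hev 0, hev (2 * (c * B +
        (Fintype.card (Option S) * (Fintype.card (PS N T.card) * lf))))] with k hk e1 e0 e2
      obtain ⟨-, hdet, -, -, hwb, hws, hall, hgap⟩ := hk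
      refine ⟨det_cmp_ne_zero hdet, fun v J => ?_, ?_, fun v J I hI => ?_⟩
      · have b1 : |∑ i ∈ J.1, w k v i| ≤ N * (B * (A * q k + B)) := by
          refine (Finset.abs_sum_le_sum_abs _ _).trans ?_
          refine (Finset.sum_le_sum_of_subset_of_nonneg (Finset.subset_univ _)
            fun i _ _ => abs_nonneg _).trans ?_
          refine (Finset.sum_le_card_nsmul _ _ _ fun i _ => hwb v i).trans ?_
          simp
        rw [abs_le] at b1 ⊢
        simp only [uu]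
        split_ifs <;> constructor <;> nlinarith [b1.1, b1.2]
      · have b1 : ∑ v, ∑ J, uu k v J = c * ∑ v, ∑ i, w k v i +
            Fintype.card (Option S) * (Fintype.card (PS N T.card) * lf) - γ * q k := by
          simp only [uu, Finset.sum_sub_distrib, Finset.sum_add_distrib, hcs, Finset.sum_const,
            Finset.card_univ, nsmul_eq_mul, ← Finset.mul_sum]
          congr 1
          rw [Fintype.sum_option]
          simp
        rw [b1]
        have b2 : (c : ℝ) * ∑ v, ∑ i, w k v i ≤ c * B :=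
          mul_le_mul_of_nonneg_left hws (Nat.cast_nonneg _)
        linarith
      · rw [← cmp_mul]
        by_cases hv : v = none ∧ J = J0
        · obtain ⟨rfl, rfl⟩ := hv
          simp only [uu, and_self, if_true]
          exact abv_cmp_le_gap _ _ _ (hall none) _ J0 T0 I hgap hI
        · simp only [uu, hv, if_false, sub_zero]
          exact abv_cmp_le _ _ _ (hall v) J I)
  obtain ⟨ζ, hζ, hform⟩ := exists_form (Finset.card_pos.2 hTne) T0 z hz
  refine ⟨ζ, hζ, ?_⟩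
  filter_upwards [hT', hrel] with k hk hr
  obtain ⟨-, hdet, hx, ht0, -⟩ := hk
  rw [hx]
  exact hform (G k) (t k) hdet hr ht0

theorem subspace_of_pen (hpen : PenStmt) (S : Finset ℕ) (hS : ∀ p ∈ S, p.Prime) (N : ℕ)
    (L : Option S → Matrix (Fin N) (Fin N) ℚ) (hL : ∀ v, (L v).det ≠ 0)
    (U : Ultrafilter ℕ) (q : ℕ → ℝ) (hq : Tendsto q U atTop) (A δ : ℝ) (hδ : 0 < δ)
    (x : ℕ → Fin N → ℤ) (u : ℕ → Option S → Fin N → ℝ)
    (h : ∀ᶠ k in U, (∀ v i, |u k v i| ≤ A * q k) ∧ ∑ v, ∑ i, u k v i ≤ -δ * q k ∧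
      ∀ v i, plAbs S hS v ((L v *ᵥ fun j => (x k j : ℚ)) i) ≤ exp (u k v i)) :
    ∃ ζ : Fin N → ℚ, ζ ≠ 0 ∧ ∀ᶠ k in U, ζ ⬝ᵥ (fun j => (x k j : ℚ)) = 0 := by
  obtain ⟨D, hD, hz⟩ : ∃ D : ℕ, 0 < D ∧ ∀ v i j, ∃ z : ℤ, (z : ℚ) = D * L v i j := by
    refine ⟨∏ k : Option S × Fin N × Fin N, (L k.1 k.2.1 k.2.2).den,
      Finset.prod_pos fun k _ => (L k.1 k.2.1 k.2.2).den_pos, fun v i j => ?_⟩
    obtain ⟨m, hm⟩ := Finset.dvd_prod_of_mem
      (fun k : Option S × Fin N × Fin N => (L k.1 k.2.1 k.2.2).den) (Finset.mem_univ (v, i, j))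
    refine ⟨m * (L v i j).num, ?_⟩
    rw [hm]; push_cast
    rw [← Rat.mul_den_eq_num]; ring
  choose L' hL' using hz
  have hD1 : (1 : ℝ) ≤ D := by exact_mod_cast hD
  have hlD : 0 ≤ log D := log_nonneg hD1
  refine subspace_int hpen S hS N (fun v => Matrix.of (L' v)) (fun v => ?_) U q hq (A + 1) (δ / 2)
    (by positivity) x (fun k v i => u k v i + log D) ?_
  · rw [← det_map_ne_zero]
    have : (Matrix.of (L' v)).map (Int.castRingHom ℚ) = (D : ℚ) • L v := by
      ext i j; simp [hL']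
    rw [this, Matrix.det_smul]
    exact mul_ne_zero (pow_ne_zero _ (by exact_mod_cast hD.ne')) (hL v)
  · filter_upwards [h, hq.eventually_ge_atTop (log D), (hq.const_mul_atTop hδ).eventually_ge_atTop
      (2 * (Fintype.card (Option S) * (N * log D)))] with k hk e1 e2
    refine ⟨fun v i => ?_, ?_, fun v i => ?_⟩
    · have := abs_le.1 (hk.1 v i)
      rw [abs_le]; constructor <;> linarith
    · simp only [Finset.sum_add_distrib, Finset.sum_const, Finset.card_univ, Fintype.card_fin,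
        nsmul_eq_mul]
      linarith [hk.2.1]
    · have h1 : (((Matrix.of (L' v) *ᵥ x k) i : ℤ) : ℚ) =
          ((D : ℤ) : ℚ) * (L v *ᵥ fun j => (x k j : ℚ)) i := by
        simp [Matrix.mulVec, dotProduct, hL', Finset.mul_sum, mul_assoc]
      have h2 : plAbs S hS v ((D : ℤ) : ℚ) ≤ D := by simpa using plAbs_le (hS := hS) v (D : ℤ)
      rw [h1, map_mul, exp_add, exp_log (by linarith), mul_comm]
      exact mul_le_mul (hk.2.2 v i) h2 ((plAbs S hS v).nonneg _) (exp_pos _).le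

end Pool.Agent.Subspace
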