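import Pool.Agent.Shared.Subspace.Basic

/-! From a grid to all rational points, and reduction to one variable in each block. -/

open MvPolynomial Filter Real

namespace Pool.Agent.Subspace

lemma eq_zero_of_many_roots (g : Polynomial ℚ) (B d : ℕ) (hB : 0 < B) (hd : g.natDegree ≤ d)
    (h : ∀ j < B, (Polynomial.X - Polynomial.C (j : ℚ)) ^ (d / B + 1) ∣ g) : g = 0 := by
  by_contra h0
  have h1 : ∏ j ∈ Finset.range B, (Polynomial.X - Polynomial.C (j : ℚ)) ^ (d / B + 1) ∣ g :=
    Finset.prod_dvd_of_coprime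
      (fun i _ j _ hij => (Polynomial.pairwise_coprime_X_sub_C Nat.cast_injective hij).pow)
      fun j hj => h j (Finset.mem_range.1 hj)
  have h2 := Polynomial.natDegree_le_of_dvd h1 h0
  rw [Polynomial.natDegree_prod_of_monic _ _ fun j _ => (Polynomial.monic_X_sub_C _).pow _] at h2
  simp only [Polynomial.natDegree_pow, Polynomial.natDegree_X_sub_C, mul_one, Finset.sum_const,
    Finset.card_range, smul_eq_mul] at h2
  have := Nat.lt_mul_div_succ d hB
  omega

lemma line_lemma {σ : Type} [Fintype σ] (w : σ → ℝ) (x y : σ → ℚ) (P : MvPolynomial σ ℚ) (B : ℕ)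
    (hB : 0 < B) (t : ℝ) (d : ℕ) (hd : 0 < d) (hw : ∀ s, y s ≠ 0 → w s = 1 / (d : ℝ))
    (hdeg : ∀ β ∈ P.support, ∑ s with y s ≠ 0, β s ≤ d)
    (h : ∀ j : ℕ, j < B → Ind w t (shift (x + (j : ℚ) • y) P)) (r : ℚ) :
    Ind w (t - 1 / B) (shift (x + r • y) P) := by
  classical
  refine Ind.of_coeff fun α hα => ?_
  set G := hasse α P with hG
  set g : Polynomial ℚ :=
    aeval (fun s => Polynomial.C (x s) + Polynomial.C (y s) * Polynomial.X) G with hg
  have e1 : Polynomial.eval r g = eval (x + r • y) G := by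
    rw [hg]
    induction G using MvPolynomial.induction_on with
    | C a => simp
    | add p q hp hq => simp [hp, hq]
    | mul_X p n hp =>
      simp only [map_mul, Polynomial.eval_mul, hp, aeval_X, eval_X, Polynomial.eval_add,
        Polynomial.eval_C, Polynomial.eval_X, Pi.add_apply, Pi.smul_apply, smul_eq_mul,
        mul_comm r]
  have e2 : g.natDegree ≤ d := by
    rw [hg, G.as_sum, map_sum]
    refine Polynomial.natDegree_sum_le_of_forall_le _ _ fun β hβ => ?_
    rw [aeval_monomial, Finsupp.prod_fintype _ _ (by simp), Polynomial.algebraMap_eq]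
    refine (Polynomial.natDegree_C_mul_le _ _).trans ((Polynomial.natDegree_prod_le _ _).trans ?_)
    refine le_trans ?_ (hdeg _ (mem_support_hasse hβ))
    rw [Finset.sum_filter]
    refine Finset.sum_le_sum fun s _ => Polynomial.natDegree_pow_le.trans ?_
    by_cases hs : y s = 0
    · simp [hs]
    · rw [if_pos hs]
      have : (Polynomial.C (x s) + Polynomial.C (y s) * Polynomial.X).natDegree ≤ 1 := by
        compute_degree
      calc β s * _ ≤ β s * 1 := Nat.mul_le_mul_left _ this
        _ ≤ _ := by simp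
  have e3 : ∀ j < B, (Polynomial.X - Polynomial.C (j : ℚ)) ^ (d / B + 1) ∣ g := by
    intro j hj
    have a1 : g = aeval (fun s => Polynomial.C (y s) * (Polynomial.X - Polynomial.C (j : ℚ)))
        (shift (x + (j : ℚ) • y) G) := by
      rw [hg]
      induction G using MvPolynomial.induction_on with
      | C a => simp
      | add p q hp hq => simp only [map_add, hp, hq]
      | mul_X p n hp =>
        simp only [map_mul, hp, aeval_X, shift_X, map_add, aeval_C, Polynomial.algebraMap_eq,
          Pi.add_apply, Pi.smul_apply, smul_eq_mul]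
        ring
    have a2 : Ind w (t - Finsupp.weight w α) (shift (x + (j : ℚ) • y) G) := by
      rw [hG, shift_hasse]
      exact (h j hj).hasse α
    rw [a1, (shift (x + (j : ℚ) • y) G).as_sum, map_sum]
    refine Finset.dvd_sum fun β hβ => ?_
    rw [aeval_monomial, Finsupp.prod_fintype _ _ (by simp)]
    refine Dvd.dvd.mul_left ?_ _
    by_cases c : ∀ s, y s = 0 → β s = 0
    · have b1 : Finsupp.weight w β = (∑ s, β s : ℕ) / (d : ℝ) := by
        rw [Finsupp.weight_eq_sum, Nat.cast_sum, Finset.sum_div]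
        refine Finset.sum_congr rfl fun s _ => ?_
        by_cases hs : y s = 0
        · simp [c s hs]
        · rw [hw s hs, nsmul_eq_mul, mul_one_div]
      have b2 : 1 / (B : ℝ) < (∑ s, β s : ℕ) / (d : ℝ) := by
        have := a2 β hβ
        linarith
      rw [div_lt_div_iff₀ (by exact_mod_cast hB) (by exact_mod_cast hd), one_mul] at b2
      have b3 : d / B + 1 ≤ ∑ s, β s := (Nat.div_lt_iff_lt_mul hB).2 (by exact_mod_cast b2)
      refine (pow_dvd_pow _ b3).trans ?_
      rw [← Finset.prod_pow_eq_pow_sum]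
      exact Finset.prod_dvd_prod_of_dvd _ _ fun s _ => pow_dvd_pow_of_dvd (dvd_mul_left _ _) _
    · push Not at c
      obtain ⟨s, s1, s2⟩ := c
      rw [Finset.prod_eq_zero (Finset.mem_univ s) (by simp [s1, s2])]
      exact dvd_zero _
  rw [coeff_shift, ← hG, ← e1, eq_zero_of_many_roots g B d hB e2 e3, Polynomial.eval_zero]

/-- From a grid to all rational points. -/
theorem grid_to_all {σ κ : Type} [Fintype σ] [Fintype κ] (w : σ → ℝ) (y : κ → σ → ℚ)
    (P : MvPolynomial σ ℚ) (B : ℕ) (hB : 0 < B) (t : ℝ) (d : κ → ℕ) (hd : ∀ c, 0 < d c)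
    (hw : ∀ c s, y c s ≠ 0 → w s = 1 / (d c : ℝ))
    (hdeg : ∀ c, ∀ β ∈ P.support, ∑ s with y c s ≠ 0, β s ≤ d c)
    (h : ∀ r : κ → ℕ, (∀ c, r c < B) → Ind w t (shift (∑ c, (r c : ℚ) • y c) P)) (r : κ → ℚ) :
    Ind w (t - Fintype.card κ / B) (shift (∑ c, r c • y c) P) := by
  classical
  have key : ∀ S : Finset κ, ∀ r : κ → ℚ, (∀ c, c ∉ S → ∃ j : ℕ, j < B ∧ r c = j) →
      Ind w (t - S.card / B) (shift (∑ c, r c • y c) P) := by
    intro S
    induction S using Finset.induction_on with
    | empty =>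
      intro r hr
      choose j j1 j2 using fun c => hr c (Finset.notMem_empty c)
      simpa [j2] using h j j1
    | insert c S hc ih =>
      intro r hr
      have e : ∀ v : ℚ, ∑ c', Function.update r c v c' • y c' =
          ∑ c' ∈ Finset.univ.erase c, r c' • y c' + v • y c := by
        intro v
        rw [← Finset.sum_erase_add _ _ (Finset.mem_univ c), Function.update_self]
        congr 1
        exact Finset.sum_congr rfl fun c' hc' => by
          rw [Function.update_of_ne (Finset.mem_erase.1 hc').1]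
      have := line_lemma w (∑ c' ∈ Finset.univ.erase c, r c' • y c') (y c) P B hB
        (t - S.card / B) (d c) (hd c) (hw c) (hdeg c) (fun j hj => by
          rw [← e]
          refine ih _ fun c' hc' => ?_
          by_cases e' : c' = c
          · exact ⟨j, hj, by rw [e', Function.update_self]⟩
          · rw [Function.update_of_ne e']
            exact hr c' (by simp [e', hc'])) (r c)
      rw [← e, Function.update_eq_self] at this
      refine this.mono (le_of_eq ?_)
      rw [Finset.card_insert_of_notMem hc]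
      push_cast
      ring
  exact key Finset.univ r fun c hc => absurd (Finset.mem_univ c) hc

/-- `F` and `G` have index at least `u` and agree in the lowest order. -/
def Cl {σ : Type} (w : σ → ℝ) (u : ℝ) (F G : MvPolynomial σ ℚ) : Prop :=
  Ind w u G ∧ Ind w (u + 1) (F - G)

lemma Cl.mul {σ : Type} {w : σ → ℝ} {u u' : ℝ} {F G F' G' : MvPolynomial σ ℚ} (h : Cl w u F G)
    (h' : Cl w u' F' G') : Cl w (u + u') (F * F') (G * G') := by
  refine ⟨h.1.mul h'.1, ?_⟩
  have e : F * F' - G * G' = (F - G) * ((F' - G') + G') + G * (F' - G') := by ring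
  rw [e]
  exact ((h.2.mul ((h'.2.mono (by linarith)).add h'.1)).mono (by linarith)).add
    ((h.1.mul h'.2).mono (by linarith))

lemma Cl.const {σ : Type} (w : σ → ℝ) (c : ℚ) : Cl w 0 (C c) (C c) :=
  ⟨Ind.C c, by simpa using Ind.zero⟩

lemma Cl.prod {σ ι : Type} {w : σ → ℝ} {s : Finset ι} {u : ι → ℝ}
    {F G : ι → MvPolynomial σ ℚ} (h : ∀ i ∈ s, Cl w (u i) (F i) (G i)) :
    Cl w (∑ i ∈ s, u i) (∏ i ∈ s, F i) (∏ i ∈ s, G i) := by
  classical
  induction s using Finset.induction_on with
  | empty => simpa using Cl.const w 1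
  | insert a s ha ih =>
    rw [Finset.sum_insert ha, Finset.prod_insert ha, Finset.prod_insert ha]
    exact (h a (Finset.mem_insert_self _ _)).mul
      (ih fun i hi => h i (Finset.mem_insert_of_mem hi))

lemma Cl.aeval {σ : Type} [Fintype σ] {w : σ → ℝ} {f g : σ → MvPolynomial σ ℚ}
    (h : ∀ s, Cl w (w s) (f s) (g s)) {T : ℝ} {G : MvPolynomial σ ℚ} (hG : Ind w T G) :
    Ind w (T + 1) (aeval f G - aeval g G) := by
  rw [G.as_sum, map_sum, map_sum, ← Finset.sum_sub_distrib]
  refine Ind.sum fun β hβ => ?_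
  rw [aeval_monomial, aeval_monomial, Finsupp.prod_fintype _ _ (by simp),
    Finsupp.prod_fintype _ _ (by simp), algebraMap_eq]
  have h1 : ∀ s, Cl w (β s • w s) (f s ^ β s) (g s ^ β s) := fun s => by
    simpa using Cl.prod (s := Finset.range (β s)) fun _ _ => h s
  have h2 := ((Cl.const w (coeff β G)).mul (Cl.prod (s := Finset.univ) fun s _ => h1 s)).2
  refine h2.mono ?_
  have := hG β hβ
  rw [Finsupp.weight_eq_sum] at this
  linarith

lemma sum_split {ι M : Type} [Fintype ι] [DecidableEq ι] [AddCommMonoid M] {i0 i1 : ι}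
    (h01 : i0 ≠ i1) (f : ι → M) :
    ∑ i, f i = f i0 + f i1 + ∑ i, if i = i0 ∨ i = i1 then 0 else f i := by
  have : ∀ i, f i = (if i = i0 then f i else 0) + (if i = i1 then f i else 0) +
      if i = i0 ∨ i = i1 then 0 else f i := by
    intro i
    by_cases a : i = i0
    · subst a; simp [h01]
    · by_cases b : i = i1
      · subst b; simp [a]
      · simp [a, b]
  rw [Finset.sum_congr rfl fun i _ => this i, Finset.sum_add_distrib, Finset.sum_add_distrib]
  simp

/-- Reduction to one variable in each block. -/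
theorem slice_exists {ι : Type} [Fintype ι] [DecidableEq ι] (m : ℕ) (d : Fin m → ℕ) (i0 i1 : ι)
    (h01 : i0 ≠ i1) (ζ : Fin m → ι → ℚ) (hζ : ∀ h, ζ h i0 ≠ 0) (P : MvPolynomial (Fin m × ι) ℚ)
    (hP : P ≠ 0) (hint : IsInt P) (hom : ∀ β ∈ P.support, ∀ h, ∑ i, β (h, i) = d h) (t : ℝ)
    (hV : ∀ x : Fin m × ι → ℚ, (∀ h, ∑ i, ζ h i * x (h, i) = 0) →
      Ind (fun s => 1 / (d s.1 : ℝ)) t (shift x P)) :
    ∃ p : MvPolynomial (Fin m) ℚ, p ≠ 0 ∧ IsInt p ∧ (∀ h, p.degreeOf h ≤ d h) ∧ l1 p ≤ l1 P ∧
      Ind (fun h => 1 / (d h : ℝ)) t (shift (fun h => -ζ h i1 / ζ h i0) p) := by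
  classical
  let w : Fin m × ι → ℝ := fun s => if s.2 = i0 ∨ s.2 = i1 then 0 else 1
  let res : (Fin m × ι →₀ ℕ) → (Fin m × ι →₀ ℕ) := fun b =>
    Finsupp.equivFunOnFinite.symm fun s => if s.2 = i0 ∨ s.2 = i1 then 0 else b s
  let pr : (Fin m × ι →₀ ℕ) → (Fin m →₀ ℕ) := fun b =>
    Finsupp.equivFunOnFinite.symm fun h => b (h, i0)
  have res_a : ∀ b s, res b s = if s.2 = i0 ∨ s.2 = i1 then 0 else b s := fun _ _ => rfl
  have pr_a : ∀ b h, pr b h = b (h, i0) := fun _ _ => rfl
  obtain ⟨b0, hb0, hmin⟩ := P.support.exists_min_image (Finsupp.weight w)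
    (MvPolynomial.support_nonempty.2 hP)
  have inj : ∀ b ∈ P.support, res b = res b0 → pr b = pr b0 → b = b0 := by
    intro b hb h1 h2
    have a1 : ∀ h, b (h, i0) = b0 (h, i0) := fun h => by rw [← pr_a, h2, pr_a]
    ext ⟨h, i⟩
    by_cases c0 : i = i0
    · rw [c0, a1]
    by_cases c1 : i = i1
    · have a2 := (hom b hb h).trans (hom b0 hb0 h).symm
      rw [sum_split h01, sum_split h01 fun i => b0 (h, i)] at a2
      have a3 : (∑ i, if i = i0 ∨ i = i1 then 0 else b (h, i)) =
          ∑ i, if i = i0 ∨ i = i1 then 0 else b0 (h, i) :=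
        Finset.sum_congr rfl fun i _ => (res_a b (h, i)).symm.trans (h1 ▸ res_a b0 (h, i))
      have := a1 h
      rw [c1]
      omega
    · have := res_a b (h, i)
      rw [h1, res_a] at this
      simpa [c0, c1] using this.symm
  refine ⟨∑ b ∈ P.support with res b = res b0, monomial (pr b) (coeff b P), ?_, ?_, ?_, ?_, ?_⟩
  · refine ne_zero_iff.2 ⟨pr b0, ?_⟩
    rw [coeff_sum, Finset.sum_eq_single b0]
    · simpa using hb0
    · intro b hb hne
      rw [Finset.mem_filter] at hb
      rw [coeff_monomial, if_neg fun e => hne (inj b hb.1 hb.2 e)]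
    · intro h
      exact (h (Finset.mem_filter.2 ⟨hb0, rfl⟩)).elim
  · refine IsInt.sum fun b _ => ?_
    obtain ⟨z, hz⟩ := isInt_iff.1 hint b
    rw [hz]
    exact IsInt.monomial _ _
  · intro h
    rw [degreeOf_le_iff]
    intro β hβ
    obtain ⟨b, hb, hβ'⟩ := Finset.mem_biUnion.1 (support_sum hβ)
    rw [Finset.mem_singleton.1 (support_monomial_subset hβ'), pr_a,
      ← hom b (Finset.mem_filter.1 hb).1 h]
    exact Finset.single_le_sum (f := fun i => b (h, i)) (fun _ _ => Nat.zero_le _)
      (Finset.mem_univ i0)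
  · refine (l1_sum_le _ _).trans ?_
    simp only [l1_monomial]
    exact Finset.sum_le_sum_of_subset_of_nonneg (Finset.filter_subset _ _)
      fun _ _ _ => abs_nonneg _
  refine Ind.of_coeff fun a ha => ?_
  set ξ : Fin m → ℚ := fun h => -ζ h i1 / ζ h i0 with hξ
  let a' : Fin m × ι →₀ ℕ := Finsupp.equivFunOnFinite.symm fun s => if s.2 = i0 then a s.1 else 0
  have a'_a : ∀ s, a' s = if s.2 = i0 then a s.1 else 0 := fun _ => rfl
  let g : Fin m × ι → MvPolynomial (Fin m × ι) ℚ := fun s =>
    if s.2 = i0 then C (ξ s.1) else if s.2 = i1 then 1 else X s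
  let f : Fin m × ι → MvPolynomial (Fin m × ι) ℚ := fun s => g s - if s.2 = i0 then
    ∑ i, if i = i0 ∨ i = i1 then 0 else C (ζ s.1 i / ζ s.1 i0) * X (s.1, i) else 0
  have hcl : ∀ s, Cl w (w s) (f s) (g s) := by
    intro s
    constructor
    · by_cases c0 : s.2 = i0
      · simpa [w, g, c0] using Ind.C (w := w) (ξ s.1)
      by_cases c1 : s.2 = i1
      · simpa [w, g, c1, h01.symm] using Ind.one (w := w)
      · simpa only [g, if_neg c0, if_neg c1] using Ind.X (w := w) s
    · simp only [f, sub_sub_cancel_left]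
      refine Ind.neg ?_
      split_ifs with c0
      · refine Ind.sum fun i _ => ?_
        split_ifs with c
        · exact Ind.zero
        · refine ((Ind.C _).mul (Ind.X (s.1, i))).mono ?_
          simp only [w, c0, true_or, if_true, if_neg c, le_refl]
      · exact Ind.zero
  have w0 : Finsupp.weight w a' = 0 := by
    rw [Finsupp.weight_eq_sum]
    refine Finset.sum_eq_zero fun s _ => ?_
    by_cases c0 : s.2 = i0 <;> simp [w, a'_a, c0]
  have w1 : Finsupp.weight w (res b0) = Finsupp.weight w b0 := by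
    rw [Finsupp.weight_eq_sum, Finsupp.weight_eq_sum]
    refine Finset.sum_congr rfl fun s _ => ?_
    by_cases c0 : s.2 = i0 ∨ s.2 = i1 <;> simp [w, res_a, c0]
  have w2 : Finsupp.weight (fun s : Fin m × ι => 1 / (d s.1 : ℝ)) a' =
      Finsupp.weight (fun h => 1 / (d h : ℝ)) a := by
    rw [Finsupp.weight_eq_sum, Finsupp.weight_eq_sum, Fintype.sum_prod_type]
    refine Finset.sum_congr rfl fun h _ => ?_
    simp [a'_a]
  have z1 : aeval f (hasse a' P) = 0 := by
    refine MvPolynomial.funext fun z => ?_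
    have : ∀ G, eval z (aeval f G) = eval (fun s => eval z (f s)) G := by
      intro G
      induction G using MvPolynomial.induction_on with
      | C a => simp
      | add p q hp hq => simp only [map_add, hp, hq]
      | mul_X p n hp => simp only [map_mul, hp, aeval_X, eval_X]
    rw [this, ← coeff_shift, map_zero]
    refine (hV _ fun h => ?_).coeff_eq_zero (w2 ▸ ha)
    rw [sum_split h01]
    have e : (∑ i, if i = i0 ∨ i = i1 then 0 else ζ h i * eval z (f (h, i))) =
        ζ h i0 * ∑ i, eval z (if i = i0 ∨ i = i1 then 0 else C (ζ h i / ζ h i0) * X (h, i)) := by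
      rw [Finset.mul_sum]
      refine Finset.sum_congr rfl fun i _ => ?_
      split_ifs with c
      · simp
      · rw [not_or] at c
        have := hζ h
        simp only [f, g, c.1, c.2, if_false, sub_zero, eval_X, map_mul, eval_C]
        field_simp
    rw [e]
    have := hζ h
    simp only [f, g, if_true, h01.symm, if_false, sub_zero, map_one, map_sub, eval_C, map_sum, hξ]
    field_simp
    ring
  have z2 : coeff (res b0) (aeval g (hasse a' P)) = 0 := by
    have h1 : Ind w (Finsupp.weight w b0) P := hmin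
    have h2 := (Cl.aeval hcl (h1.hasse a')).coeff_eq_zero (α := res b0) (by rw [w0, w1]; linarith)
    rwa [z1, zero_sub, coeff_neg, neg_eq_zero] at h2
  have z3 : ∀ b c, aeval g (monomial b c) = monomial (res b) (c * ∏ h, ξ h ^ b (h, i0)) := by
    intro b c
    have e : ∀ s, g s ^ b s = C (if s.2 = i0 then ξ s.1 ^ b s else 1) * X s ^ res b s := by
      intro s
      by_cases c0 : s.2 = i0
      · simp [g, res_a, c0]
      by_cases c1 : s.2 = i1
      · simp [g, res_a, c1, h01.symm]
      · simp [g, res_a, c0, c1]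
    rw [aeval_monomial, monomial_eq, Finsupp.prod_fintype _ _ (by simp),
      Finsupp.prod_fintype _ _ (by simp), algebraMap_eq, Finset.prod_congr rfl fun s _ => e s,
      Finset.prod_mul_distrib, ← map_prod, C_mul, mul_assoc, Fintype.prod_prod_type]
    simp
  rw [coeff_shift, ← z2, map_sum, map_sum, Finset.sum_filter]
  conv_rhs => rw [P.as_sum, map_sum, map_sum, coeff_sum]
  refine Finset.sum_congr rfl fun b _ => ?_
  have r1 : res (b - a') = res b := by
    ext s
    by_cases c0 : s.2 = i0 <;> simp [res_a, a'_a, c0]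
  rw [hasse_monomial, hasse_monomial, z3, coeff_monomial, r1, eval_monomial,
    Finsupp.prod_fintype _ _ (by simp), Fintype.prod_prod_type]
  congr 3
  · refine Finset.prod_congr rfl fun h _ => ?_
    rw [Finset.prod_eq_single i0]
    · simp [a'_a, pr_a]
    · intro i _ hi
      simp [a'_a, hi]
    · simp
  · ext h
    simp [a'_a, pr_a]

end Pool.Agent.Subspace
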