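import Mathlib

/-!
# The height dichotomy for the penultimate minimum theorem

Either all the hyperplanes spanned by the columns `j ≠ j0` of `Y k` agree along the ultrafilter,
or two of the cofactors have a quotient of large denominator.
-/

open Filter Real

namespace Pool.Agent.Subspace

namespace HeightAux

lemma one_le_ab_mul {Pl : Type} [Fintype Pl] (ab : Pl → AbsoluteValue ℚ ℝ)
    (hle : ∀ v (z : ℤ), ab v z ≤ |(z : ℝ)|) (hpf : ∀ z : ℤ, z ≠ 0 → 1 ≤ ∏ v, ab v z)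
    (z : ℤ) (hz : z ≠ 0) (v : Pl) : 1 ≤ ab v z * |(z : ℝ)| ^ Fintype.card Pl := by
  classical
  have h1 : (1 : ℝ) ≤ |(z : ℝ)| := by
    rw [← Int.cast_abs]; exact_mod_cast Int.one_le_abs hz
  have h2 := hpf z hz
  rw [← Finset.mul_prod_erase _ _ (Finset.mem_univ v)] at h2
  refine h2.trans (mul_le_mul_of_nonneg_left ?_ ((ab v).nonneg _))
  calc ∏ w ∈ Finset.univ.erase v, ab w z ≤ ∏ w ∈ Finset.univ.erase v, |(z : ℝ)| :=
        Finset.prod_le_prod (fun w _ => (ab w).nonneg _) fun w _ => hle w z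
    _ = |(z : ℝ)| ^ (Finset.univ.erase v).card := Finset.prod_const _
    _ ≤ _ := pow_le_pow_right₀ h1 (Finset.card_le_univ _)

lemma ab_adjugate_le {ι : Type} [Fintype ι] [DecidableEq ι] (ab : AbsoluteValue ℚ ℝ)
    (M : Matrix ι ι ℤ) (u : ι → ℝ) (j0 i : ι)
    (h : ∀ i j, j ≠ j0 → ab (M i j : ℤ) ≤ exp (u i)) :
    ab (M.adjugate j0 i : ℤ) * exp (u i) ≤ (Fintype.card ι).factorial * exp (∑ r, u r) := by
  classical
  rw [Matrix.adjugate_apply, Matrix.det_apply]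
  push_cast
  have key : ∀ σ : Equiv.Perm ι,
      ab (((Equiv.Perm.sign σ • ∏ a, M.updateRow i (Pi.single j0 1) (σ a) a : ℤ)) : ℚ) * exp (u i)
        ≤ exp (∑ r, u r) := by
    intro σ
    have e : ab (((Equiv.Perm.sign σ • ∏ a, M.updateRow i (Pi.single j0 1) (σ a) a : ℤ)) : ℚ) =
        ∏ a, ab ((M.updateRow i (Pi.single j0 1) (σ a) a : ℤ) : ℚ) := by
      rcases Int.units_eq_one_or (Equiv.Perm.sign σ) with hs | hs
      · rw [hs, one_smul]; push_cast; rw [map_prod]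
      · rw [hs, Units.neg_smul, one_smul]; push_cast; rw [AbsoluteValue.map_neg, map_prod]
    rw [e]
    by_cases hσ : σ j0 = i
    · rw [← Finset.mul_prod_erase _ _ (Finset.mem_univ j0), hσ, Matrix.updateRow_self,
        Pi.single_eq_same, ← Equiv.sum_comp σ, exp_sum,
        ← Finset.prod_erase_mul _ _ (Finset.mem_univ j0), hσ]
      simp only [Int.cast_one, map_one, one_mul]
      refine mul_le_mul_of_nonneg_right ?_ (exp_pos _).le
      refine Finset.prod_le_prod (fun w _ => ab.nonneg _) fun a ha => ?_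
      have ha' : a ≠ j0 := (Finset.mem_erase.mp ha).1
      have : σ a ≠ i := fun hh => ha' (σ.injective (hh.trans hσ.symm))
      rw [Matrix.updateRow_ne this]
      exact h _ _ ha'
    · have h0 : ab ((M.updateRow i (Pi.single j0 1) (σ (σ.symm i)) (σ.symm i) : ℤ) : ℚ) = 0 := by
        rw [Equiv.apply_symm_apply, Matrix.updateRow_self, Pi.single_eq_of_ne]
        · simp
        · intro hh
          apply hσ
          rw [← hh, Equiv.apply_symm_apply]
      rw [Finset.prod_eq_zero (Finset.mem_univ (σ.symm i)) h0, zero_mul]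
      exact (exp_pos _).le
  refine (mul_le_mul_of_nonneg_right (ab.sum_le _ _) (exp_pos _).le).trans ?_
  rw [Finset.sum_mul]
  refine (Finset.sum_le_sum fun σ _ => key σ).trans ?_
  rw [Finset.sum_const, Finset.card_univ, Fintype.card_perm, nsmul_eq_mul]

lemma exists_scale {ι : Type} [Fintype ι] [DecidableEq ι] (ζ : ι → ℤ) (hζ : ζ ≠ 0) (T : ℝ)
    (hT : 1 ≤ T)
    (h : ∀ i0 i1, i0 ≠ i1 → ζ i0 ≠ 0 → ((-(ζ i1 : ℚ) / (ζ i0 : ℚ)).den : ℝ) ≤ T) :
    ∃ (n a : ℤ) (ζ' : ι → ℤ), n ≠ 0 ∧ |(n : ℝ)| ≤ T ^ Fintype.card ι ∧ a ≠ 0 ∧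
      ∀ i, n * ζ i = a * ζ' i ∧ |(ζ' i : ℝ)| ≤ T ^ Fintype.card ι := by
  classical
  obtain ⟨j, hj⟩ := Function.ne_iff.mp hζ
  obtain ⟨i0, -, hi0⟩ := Finset.exists_max_image Finset.univ (fun i => |ζ i|)
    ⟨j, Finset.mem_univ _⟩
  have h0 : ζ i0 ≠ 0 := by
    intro hh
    have := hi0 j (Finset.mem_univ _)
    rw [hh, abs_zero] at this
    exact hj (abs_nonpos_iff.mp this)
  have h0' : (ζ i0 : ℚ) ≠ 0 := by exact_mod_cast h0
  set r : ι → ℚ := fun i => -(ζ i : ℚ) / (ζ i0 : ℚ) with hr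
  set n : ℕ := ∏ i, (r i).den with hn
  have hnT : (n : ℝ) ≤ T ^ Fintype.card ι := by
    rw [hn]; push_cast
    rw [← Finset.card_univ, ← Finset.prod_const]
    refine Finset.prod_le_prod (fun i _ => by positivity) fun i _ => ?_
    by_cases hi : i0 = i
    · have : r i = -1 := by rw [hr, ← hi]; simp only; rw [neg_div, div_self h0']
      rw [this]; simpa using hT
    · exact h i0 i hi h0
  have hn0 : n ≠ 0 := Finset.prod_ne_zero_iff.mpr fun i _ => (r i).den_nz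
  have hex : ∀ i, ∃ z : ℤ, (n : ℤ) * ζ i = ζ i0 * z := fun i => by
    obtain ⟨c, hc⟩ : (r i).den ∣ n := Finset.dvd_prod_of_mem _ (Finset.mem_univ i)
    refine ⟨-(r i).num * c, ?_⟩
    have e1 : ((r i).num : ℚ) = r i * (r i).den := (Rat.mul_den_eq_num _).symm
    have e2 : r i * ζ i0 = -ζ i := by rw [hr]; simp only; field_simp
    have : ((n : ℤ) * ζ i : ℚ) = ζ i0 * (-(r i).num * c) := by
      rw [e1, hc]; push_cast
      linear_combination ((r i).den * c : ℚ) * e2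
    exact_mod_cast this
  choose ζ' hζ' using hex
  refine ⟨n, ζ i0, ζ', by exact_mod_cast hn0, by simpa using hnT, h0, fun i => ⟨hζ' i, ?_⟩⟩
  refine le_trans ?_ hnT
  have h1 : |ζ i0| * |ζ' i| ≤ |ζ i0| * n := by
    rw [← abs_mul, ← hζ', abs_mul, Nat.abs_cast, mul_comm]
    exact mul_le_mul_of_nonneg_right (hi0 i (Finset.mem_univ _)) (by positivity)
  have h2 := le_of_mul_le_mul_left h1 (abs_pos.mpr h0)
  rw [← Int.cast_abs]
  exact_mod_cast h2

lemma row_ne_zero {ι : Type} [Fintype ι] [DecidableEq ι] (M : Matrix ι ι ℤ) (hM : M.det ≠ 0)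
    (j0 : ι) : ∃ i, M.adjugate j0 i ≠ 0 := by
  by_contra hc
  push Not at hc
  have := congrFun (congrFun (Matrix.adjugate_mul M) j0) j0
  rw [Matrix.mul_apply] at this
  simp only [hc, zero_mul, Finset.sum_const_zero, Matrix.smul_apply, Matrix.one_apply_eq,
    smul_eq_mul, mul_one] at this
  exact hM this.symm

lemma key_ineq {ι Pl : Type} [Fintype ι] [DecidableEq ι] [Fintype Pl]
    (ab : Pl → AbsoluteValue ℚ ℝ)
    (hle : ∀ v (z : ℤ), ab v z ≤ |(z : ℝ)|) (hpf : ∀ z : ℤ, z ≠ 0 → 1 ≤ ∏ v, ab v z)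
    (L : Pl → Matrix ι ι ℤ) (j0 : ι) (C : ℝ)
    (hC : ∀ v i, ∑ j, |((L v).adjugate j i : ℝ)| ≤ C)
    (Y : Matrix ι ι ℤ) (hY : Y.det ≠ 0) (u : Pl → ι → ℝ)
    (hu : ∀ v i j, j ≠ j0 → ab v ((L v * Y) i j : ℤ) ≤ exp (u v i)) (T : ℝ) (hT : 1 ≤ T)
    (h : ∀ i0 i1, i0 ≠ i1 → Y.adjugate j0 i0 ≠ 0 →
      ((-(Y.adjugate j0 i1 : ℚ) / (Y.adjugate j0 i0 : ℚ)).den : ℝ) ≤ T)
    (c : Pl → ι) (hc : ∀ v, (L v * Y).adjugate j0 (c v) ≠ 0) :
    exp (∑ v, u v (c v)) ≤ ((Fintype.card ι).factorial * C ^ Fintype.card Pl *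
      T ^ (Fintype.card ι * (Fintype.card Pl + 1))) ^ Fintype.card Pl * exp (∑ v, ∑ i, u v i) := by
  classical
  obtain ⟨n, a, ζ', hn, hnT, ha, hζ'⟩ := exists_scale (fun i => Y.adjugate j0 i)
    (Function.ne_iff.mpr (row_ne_zero Y hY j0)) T hT h
  set S : ℝ := T ^ Fintype.card ι with hS
  have hS0 : 0 ≤ S := by positivity
  have step : ∀ v, ab v a * exp (u v (c v)) ≤ ((Fintype.card ι).factorial * C ^ Fintype.card Pl *
      T ^ (Fintype.card ι * (Fintype.card Pl + 1))) * exp (∑ i, u v i) := fun v => by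
    set w : ℤ := (L v * Y).adjugate j0 (c v) with hw
    set w' : ℤ := ∑ j, ζ' j * (L v).adjugate j (c v) with hw'
    have e : n * w = a * w' := by
      rw [hw, hw', Matrix.adjugate_mul_distrib, Matrix.mul_apply, Finset.mul_sum, Finset.mul_sum]
      refine Finset.sum_congr rfl fun j _ => ?_
      rw [← mul_assoc, (hζ' j).1, mul_assoc]
    have hw'0 : w' ≠ 0 := by
      intro h0
      rw [h0, mul_zero] at e
      exact mul_ne_zero hn (hc v) e
    have hw'le : |(w' : ℝ)| ≤ S * C := by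
      rw [hw']; push_cast
      refine (Finset.abs_sum_le_sum_abs _ _).trans ?_
      refine le_trans ?_ (mul_le_mul_of_nonneg_left (hC v (c v)) hS0)
      rw [Finset.mul_sum]
      refine Finset.sum_le_sum fun j _ => ?_
      rw [abs_mul]
      exact mul_le_mul_of_nonneg_right (hζ' j).2 (abs_nonneg _)
    have h1 := one_le_ab_mul ab hle hpf w' hw'0 v
    have h2 : 1 ≤ ab v w' * (S * C) ^ Fintype.card Pl :=
      h1.trans (mul_le_mul_of_nonneg_left (pow_le_pow_left₀ (abs_nonneg _) hw'le _)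
        ((ab v).nonneg _))
    have h3 : ab v a * ab v w' ≤ S * ab v w := by
      rw [← map_mul, ← Int.cast_mul, ← e, Int.cast_mul, map_mul]
      exact mul_le_mul_of_nonneg_right ((hle v n).trans hnT) ((ab v).nonneg _)
    have h4 := ab_adjugate_le (ab v) (L v * Y) (u v) j0 (c v) (hu v)
    rw [← hw] at h4
    have hSC : 0 ≤ (S * C) ^ Fintype.card Pl := pow_nonneg ((abs_nonneg _).trans hw'le) _
    have h5 : ab v a ≤ S * (S * C) ^ Fintype.card Pl * ab v w := by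
      calc ab v a ≤ ab v a * (ab v w' * (S * C) ^ Fintype.card Pl) :=
            le_mul_of_one_le_right ((ab v).nonneg _) h2
        _ = ab v a * ab v w' * (S * C) ^ Fintype.card Pl := by ring
        _ ≤ S * ab v w * (S * C) ^ Fintype.card Pl := mul_le_mul_of_nonneg_right h3 hSC
        _ = _ := by ring
    calc ab v a * exp (u v (c v)) ≤ S * (S * C) ^ Fintype.card Pl * ab v w * exp (u v (c v)) :=
          mul_le_mul_of_nonneg_right h5 (exp_pos _).le
      _ = S * (S * C) ^ Fintype.card Pl * (ab v w * exp (u v (c v))) := by ring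
      _ ≤ S * (S * C) ^ Fintype.card Pl * ((Fintype.card ι).factorial * exp (∑ i, u v i)) :=
          mul_le_mul_of_nonneg_left h4 (mul_nonneg hS0 hSC)
      _ = _ := by rw [hS]; ring
  have hp := Finset.prod_le_prod (s := Finset.univ)
    (fun v _ => mul_nonneg ((ab v).nonneg a) (exp_pos (u v (c v))).le) fun v _ => step v
  rw [Finset.prod_mul_distrib, Finset.prod_mul_distrib, Finset.prod_const, Finset.card_univ,
    ← exp_sum, ← exp_sum] at hp
  exact (le_mul_of_one_le_left (exp_pos _).le (hpf a ha)).trans hp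

lemma final_ineq {ι Pl : Type} [Fintype ι] [DecidableEq ι] [Fintype Pl]
    (ab : Pl → AbsoluteValue ℚ ℝ)
    (hle : ∀ v (z : ℤ), ab v z ≤ |(z : ℝ)|) (hpf : ∀ z : ℤ, z ≠ 0 → 1 ≤ ∏ v, ab v z)
    (L : Pl → Matrix ι ι ℤ) (j0 j : ι) (Y0 Y : Matrix ι ι ℤ) (u : Pl → ι → ℝ)
    (hu : ∀ v i, ab v ((L v * Y) i j : ℤ) ≤ exp (u v i)) (c : Pl → ι)
    (hc : ∀ v i, (L v * Y0).adjugate j0 i ≠ 0 → u v i ≤ u v (c v))
    (hz : ∑ i, Y0.adjugate j0 i * Y i j ≠ 0) :
    ∏ v, ab v ((L v).det : ℤ) ≤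
      (∏ v, ∑ i, |((L v * Y0).adjugate j0 i : ℝ)|) * exp (∑ v, u v (c v)) := by
  classical
  set z : ℤ := ∑ i, Y0.adjugate j0 i * Y i j with hz'
  have step : ∀ v, ab v z * ab v ((L v).det : ℤ) ≤
      (∑ i, |((L v * Y0).adjugate j0 i : ℝ)|) * exp (u v (c v)) := fun v => by
    have e : z * (L v).det = ∑ i, (L v * Y0).adjugate j0 i * (L v * Y) i j := by
      rw [← Matrix.mul_apply, Matrix.adjugate_mul_distrib, Matrix.mul_assoc,
        ← Matrix.mul_assoc (L v).adjugate, Matrix.adjugate_mul, Matrix.smul_mul, Matrix.one_mul,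
        Matrix.mul_smul, Matrix.smul_apply, Matrix.mul_apply, smul_eq_mul, mul_comm]
    rw [← map_mul, ← Int.cast_mul, e]
    push_cast
    refine ((ab v).sum_le _ _).trans ?_
    rw [Finset.sum_mul]
    refine Finset.sum_le_sum fun i _ => ?_
    rw [map_mul]
    by_cases h0 : (L v * Y0).adjugate j0 i = 0
    · rw [h0]; simp
    · exact mul_le_mul (hle v _) ((hu v i).trans (exp_le_exp.mpr (hc v i h0))) ((ab v).nonneg _)
        (abs_nonneg _)
  have hp := Finset.prod_le_prod (s := Finset.univ)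
    (fun v _ => mul_nonneg ((ab v).nonneg z) ((ab v).nonneg ((L v).det : ℤ))) fun v _ => step v
  rw [Finset.prod_mul_distrib, Finset.prod_mul_distrib, ← exp_sum] at hp
  exact (le_mul_of_one_le_left (Finset.prod_nonneg fun v _ => (ab v).nonneg _) (hpf z hz)).trans hp

end HeightAux

open HeightAux in
/-- Either the conclusion of `penultimate`, or the hyperplanes have large height. -/
theorem height_dichotomy {ι Pl : Type} [Fintype ι] [DecidableEq ι] [Fintype Pl]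
    (ab : Pl → AbsoluteValue ℚ ℝ)
    (hle : ∀ v (z : ℤ), ab v z ≤ |(z : ℝ)|) (hpf : ∀ z : ℤ, z ≠ 0 → 1 ≤ ∏ v, ab v z)
    (L : Pl → Matrix ι ι ℤ) (hL : ∀ v, (L v).det ≠ 0) (j0 : ι)
    (U : Ultrafilter ℕ) (q : ℕ → ℝ) (hq : Tendsto q U atTop) (δ : ℝ) (hδ : 0 < δ)
    (Y : ℕ → Matrix ι ι ℤ) (u : ℕ → Pl → ι → ℝ)
    (h : ∀ᶠ k in U, (Y k).det ≠ 0 ∧ ∑ v, ∑ i, u k v i ≤ -δ * q k ∧
      ∀ v i j, j ≠ j0 → ab v ((L v * Y k) i j : ℤ) ≤ exp (u k v i)) :
    (∃ ζ : ι → ℤ, ζ ≠ 0 ∧ ∀ᶠ k in U, ∀ j, j ≠ j0 → ∑ i, ζ i * Y k i j = 0) ∨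
    ∃ (η : ℝ) (i0 i1 : ι), 0 < η ∧ i0 ≠ i1 ∧ ∀ᶠ k in U, (Y k).adjugate j0 i0 ≠ 0 ∧
      η * q k ≤ log ((-((Y k).adjugate j0 i1 : ℚ) / ((Y k).adjugate j0 i0 : ℚ)).den) := by
  classical
  rw [or_iff_not_imp_right]
  intro hn
  set E : ℕ := Fintype.card ι * (Fintype.card Pl + 1) * Fintype.card Pl with hE
  set η : ℝ := δ / (2 * (E + 1)) with hη
  have hη0 : 0 < η := by positivity
  have hηE : E * η ≤ δ / 2 := by
    rw [hη, mul_div_assoc', div_le_div_iff₀ (by positivity) (by positivity)]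
    nlinarith
  have h1 : ∀ᶠ k in U, ∀ i0 i1, i0 ≠ i1 → (Y k).adjugate j0 i0 ≠ 0 →
      ((-((Y k).adjugate j0 i1 : ℚ) / ((Y k).adjugate j0 i0 : ℚ)).den : ℝ) ≤ exp (η * q k) := by
    refine eventually_all.mpr fun i0 => eventually_all.mpr fun i1 => ?_
    by_cases h01 : i0 = i1
    · exact Eventually.of_forall fun k hk => absurd h01 hk
    · have := Ultrafilter.eventually_not.mpr fun hh => hn ⟨η, i0, i1, hη0, h01, hh⟩
      refine this.mono fun k hk _ h0 => ?_
      have h2 := not_le.mp fun hh => hk ⟨h0, hh⟩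
      exact ((log_le_iff_le_exp (by exact_mod_cast Rat.den_pos _)).mp h2.le)
  obtain ⟨I, hI⟩ := (Ultrafilter.eventually_exists_iff (f := U)
    (P := fun (I : Pl → Finset ι) k => ∀ v i, i ∈ I v ↔ (L v * Y k).adjugate j0 i ≠ 0)).mp
    (Eventually.of_forall fun k =>
      ⟨fun v => Finset.univ.filter fun i => (L v * Y k).adjugate j0 i ≠ 0, fun v i => by simp⟩)
  obtain ⟨k0, hk0, hI0⟩ := (h.and hI).exists
  refine ⟨fun i => (Y k0).adjugate j0 i, Function.ne_iff.mpr (row_ne_zero _ hk0.1 j0), ?_⟩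
  set C : ℝ := ∑ v, ∑ i, ∑ j, |((L v).adjugate j i : ℝ)| with hC
  have hC0 : 0 ≤ C := by positivity
  have hC' : ∀ v i, ∑ j, |((L v).adjugate j i : ℝ)| ≤ C := fun v i => by
    calc _ ≤ ∑ i, ∑ j, |((L v).adjugate j i : ℝ)| :=
          Finset.single_le_sum (f := fun i => ∑ j, |((L v).adjugate j i : ℝ)|)
            (fun _ _ => by positivity) (Finset.mem_univ i)
      _ ≤ C := Finset.single_le_sum (f := fun v => ∑ i, ∑ j, |((L v).adjugate j i : ℝ)|)
            (fun _ _ => by positivity) (Finset.mem_univ v)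
  set W : ℝ := (∏ v, ∑ i, |((L v * Y k0).adjugate j0 i : ℝ)|) *
    ((Fintype.card ι).factorial * C ^ Fintype.card Pl) ^ Fintype.card Pl with hW
  set D : ℝ := ∏ v, ab v ((L v).det : ℤ) with hD
  have hD0 : 0 < D := Finset.prod_pos fun v _ => (ab v).pos (by exact_mod_cast hL v)
  have hlim : Tendsto (fun k => W * exp (-(δ / 2 * q k))) U (nhds 0) := by
    have := (tendsto_exp_neg_atTop_nhds_zero.comp
      (hq.const_mul_atTop (by positivity : 0 < δ / 2))).const_mul W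
    simpa using this
  filter_upwards [h, hI, h1, hq.eventually_ge_atTop 0, hlim.eventually_lt_const hD0]
    with k hk hIk h1k hq0 hlt j hj
  by_contra hz
  have hne : ∀ v, (I v).Nonempty := fun v => by
    obtain ⟨i, hi⟩ := row_ne_zero (L v * Y k) (by
      rw [Matrix.det_mul]; exact mul_ne_zero (hL v) hk.1) j0
    exact ⟨i, (hIk v i).mpr hi⟩
  choose c hc hc' using fun v => Finset.exists_max_image (I v) (u k v) (hne v)
  have a1 := final_ineq ab hle hpf L j0 j (Y k0) (Y k) (u k) (fun v i => hk.2.2 v i j hj) c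
    (fun v i hi => hc' v i ((hI0 v i).mpr hi)) hz
  have a2 := key_ineq ab hle hpf L j0 C hC' (Y k) hk.1 (u k) hk.2.2 (exp (η * q k))
    (one_le_exp (by positivity)) h1k c fun v => (hIk v _).mp (hc v)
  refine absurd (a1.trans ?_) (not_le.mpr hlt)
  rw [hW, mul_assoc]
  refine mul_le_mul_of_nonneg_left (a2.trans ?_) (by positivity)
  rw [mul_pow, mul_assoc]
  refine mul_le_mul_of_nonneg_left ?_ (by positivity)
  rw [← pow_mul, ← hE, ← exp_nat_mul, ← exp_add, exp_le_exp]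
  have := mul_le_mul_of_nonneg_right hηE hq0
  nlinarith [hk.2.1]

end Pool.Agent.Subspace
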