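import Mathlib

/-!
# Polynomial toolkit for the Subspace Theorem

Shifts, Hasse derivatives, the index of vanishing, integrality and weighted norms of
multivariate polynomials over `ℚ`.
-/

open MvPolynomial Finset

namespace Pool.Agent.Subspace

variable {σ τ : Type*}

/-- The translation `X s ↦ X s + ξ s`. -/
noncomputable def shift (ξ : σ → ℚ) : MvPolynomial σ ℚ →ₐ[ℚ] MvPolynomial σ ℚ :=
  aeval fun s => X s + C (ξ s)

/-- The universal Taylor expansion. -/
noncomputable def tay : MvPolynomial σ ℚ →ₐ[ℚ] MvPolynomial σ (MvPolynomial σ ℚ) :=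
  aeval fun s => X s + C (X s)

/-- The Hasse derivative of order `μ`. -/
noncomputable def hasse (μ : σ →₀ ℕ) : MvPolynomial σ ℚ →ₗ[ℚ] MvPolynomial σ ℚ where
  toFun P := coeff μ (tay P)
  map_add' P Q := by simp
  map_smul' c P := by simp

lemma hasse_def (μ : σ →₀ ℕ) (P : MvPolynomial σ ℚ) : hasse μ P = coeff μ (tay P) := rfl

@[simp] lemma shift_X (ξ : σ → ℚ) (s : σ) : shift ξ (X s) = X s + C (ξ s) := by simp [shift]

@[simp] lemma shift_C (ξ : σ → ℚ) (c : ℚ) : shift ξ (C c : MvPolynomial σ ℚ) = C c := by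
  simp [shift]

@[simp] lemma tay_X (s : σ) : tay (X s : MvPolynomial σ ℚ) = X s + C (X s) := by simp [tay]

@[simp] lemma tay_C (c : ℚ) : tay (C c : MvPolynomial σ ℚ) = C (C c) := by
  simp [tay]

lemma shift_shift (ξ η : σ → ℚ) (P : MvPolynomial σ ℚ) :
    shift ξ (shift η P) = shift (ξ + η) P := by
  have : (shift ξ).comp (shift η) = shift (ξ + η) := by
    ext1 s; simp [add_assoc]
  exact congrArg (fun f => f P) this

lemma shift_zero (P : MvPolynomial σ ℚ) : shift 0 P = P := by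
  have : (shift (0 : σ → ℚ)) = AlgHom.id ℚ _ := by
    ext1 s; simp
  rw [this]; rfl

lemma shift_ne_zero (ξ : σ → ℚ) {P : MvPolynomial σ ℚ} (h : P ≠ 0) : shift ξ P ≠ 0 := by
  intro h0
  apply h
  have := shift_shift (-ξ) ξ P
  rw [h0, map_zero, neg_add_cancel, shift_zero] at this
  exact this.symm

lemma eval_shift (x ξ : σ → ℚ) (P : MvPolynomial σ ℚ) :
    eval x (shift ξ P) = eval (x + ξ) P := by
  induction P using MvPolynomial.induction_on with
  | C a => simp
  | add p q hp hq => simp [hp, hq]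
  | mul_X p n hp => simp [hp]

lemma map_eval_tay (x : σ → ℚ) (P : MvPolynomial σ ℚ) :
    map (eval x) (tay P) = shift x P := by
  induction P using MvPolynomial.induction_on with
  | C a => simp
  | add p q hp hq => simp [hp, hq]
  | mul_X p n hp => simp [hp]

/-- Taylor's formula. -/
lemma coeff_shift (x : σ → ℚ) (μ : σ →₀ ℕ) (P : MvPolynomial σ ℚ) :
    coeff μ (shift x P) = eval x (hasse μ P) := by
  rw [← map_eval_tay, coeff_map, hasse_def]

lemma tay_shift (ξ : σ → ℚ) (P : MvPolynomial σ ℚ) :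
    tay (shift ξ P) = map (shift ξ : MvPolynomial σ ℚ →+* MvPolynomial σ ℚ) (tay P) := by
  induction P using MvPolynomial.induction_on with
  | C a => simp
  | add p q hp hq => simp only [map_add, hp, hq]
  | mul_X p n hp => simp [hp, add_assoc]

lemma shift_hasse (ξ : σ → ℚ) (μ : σ →₀ ℕ) (P : MvPolynomial σ ℚ) :
    shift ξ (hasse μ P) = hasse μ (shift ξ P) := by
  rw [hasse_def, hasse_def, tay_shift, coeff_map]; rfl

lemma hasse_mul_X [DecidableEq σ] (μ : σ →₀ ℕ) (P : MvPolynomial σ ℚ) (s : σ) :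
    hasse μ (P * X s) =
      (if s ∈ μ.support then hasse (μ - Finsupp.single s 1) P else 0) + hasse μ P * X s := by
  rw [hasse_def, map_mul, tay_X, mul_add, coeff_add, coeff_mul_X', mul_comm (tay P) (C _),
    coeff_C_mul, mul_comm]
  rfl

/-- Coefficients of the Hasse derivative. -/
lemma coeff_hasse [Fintype σ] (μ β : σ →₀ ℕ) (P : MvPolynomial σ ℚ) :
    coeff β (hasse μ P) = (∏ i, ((β i + μ i).choose (μ i) : ℚ)) * coeff (β + μ) P := by
  classical
  induction P using MvPolynomial.induction_on generalizing μ β with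
  | C a =>
    rw [hasse_def, tay_C, coeff_C, coeff_C]
    by_cases h1 : 0 = μ
    · subst h1
      simp [coeff_C]
    · have : ¬ (0 = β + μ) := by
        intro h
        apply h1
        ext i
        have := congrArg (fun f => f i) h
        simp only [Finsupp.coe_zero, Pi.zero_apply, Finsupp.coe_add, Pi.add_apply] at this ⊢
        omega
      simp [h1, this]
  | add p q hp hq => simp [hp, hq, mul_add]
  | mul_X p s hp =>
    rw [hasse_mul_X, coeff_add, coeff_mul_X', coeff_mul_X']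
    have hsplit : ∀ f : σ → ℚ, ∏ i, f i = f s * ∏ i ∈ univ.erase s, f i := fun f =>
      (Finset.mul_prod_erase _ _ (mem_univ s)).symm
    have e1 : ∀ ν : σ →₀ ℕ, ∀ i ∈ univ.erase s, (ν - Finsupp.single s 1 : σ →₀ ℕ) i = ν i := by
      intro ν i hi
      have : i ≠ s := (mem_erase.mp hi).1
      simp [Finsupp.single_eq_of_ne this]
    have e2 : ∀ ν : σ →₀ ℕ, (ν - Finsupp.single s 1 : σ →₀ ℕ) s = ν s - 1 := by
      intro ν; simp
    have p1 : ∏ i ∈ univ.erase s, (((β i + (μ - Finsupp.single s 1 : σ →₀ ℕ) i).choose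
        ((μ - Finsupp.single s 1 : σ →₀ ℕ) i) : ℕ) : ℚ) =
        ∏ i ∈ univ.erase s, (((β i + μ i).choose (μ i) : ℕ) : ℚ) :=
      prod_congr rfl fun i hi => by rw [e1 _ i hi]
    have p2 : ∏ i ∈ univ.erase s, ((((β - Finsupp.single s 1 : σ →₀ ℕ) i + μ i).choose
        (μ i) : ℕ) : ℚ) = ∏ i ∈ univ.erase s, (((β i + μ i).choose (μ i) : ℕ) : ℚ) :=
      prod_congr rfl fun i hi => by rw [e1 _ i hi]
    by_cases hm : μ s = 0 <;> by_cases hb : β s = 0
    · simp [hm, hb]
    · have a1 : β - Finsupp.single s 1 + μ = β + μ - Finsupp.single s 1 := by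
        ext i
        by_cases hi : i = s
        · subst hi; simp; omega
        · simp [Finsupp.single_eq_of_ne hi]
      have a2 : s ∈ (β + μ).support := by simp [hb]
      rw [if_neg (by simpa using hm), if_pos (by simpa using hb), if_pos a2, hp, a1, hsplit,
        p2, hsplit (fun i => (((β i + μ i).choose (μ i) : ℕ) : ℚ))]
      simp [hm]
    · have a1 : β + (μ - Finsupp.single s 1) = β + μ - Finsupp.single s 1 := by
        ext i
        by_cases hi : i = s
        · subst hi; simp; omega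
        · simp [Finsupp.single_eq_of_ne hi]
      have a2 : s ∈ (β + μ).support := by simp [hm]
      rw [if_pos (by simpa using hm), if_neg (by simpa using hb), if_pos a2, hp, a1, hsplit,
        p1, hsplit (fun i => (((β i + μ i).choose (μ i) : ℕ) : ℚ))]
      simp [hb]
    · have a1 : β + (μ - Finsupp.single s 1) = β + μ - Finsupp.single s 1 := by
        ext i
        by_cases hi : i = s
        · subst hi; simp; omega
        · simp [Finsupp.single_eq_of_ne hi]
      have a3 : β - Finsupp.single s 1 + μ = β + μ - Finsupp.single s 1 := by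
        ext i
        by_cases hi : i = s
        · subst hi; simp; omega
        · simp [Finsupp.single_eq_of_ne hi]
      have a2 : s ∈ (β + μ).support := by simp [hm]
      rw [if_pos (by simpa using hm), if_pos (by simpa using hb), if_pos a2, hp, hp, a1, a3,
        hsplit, p1, hsplit (fun i => ((((β - Finsupp.single s 1 : σ →₀ ℕ) i + μ i).choose
          (μ i) : ℕ) : ℚ)), p2, hsplit (fun i => (((β i + μ i).choose (μ i) : ℕ) : ℚ)), e2, e2]
      obtain ⟨b, hb'⟩ := Nat.exists_eq_succ_of_ne_zero hb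
      obtain ⟨m, hm'⟩ := Nat.exists_eq_succ_of_ne_zero hm
      rw [hb', hm']
      have : (b.succ + m.succ).choose m.succ =
          (b.succ + m).choose m + (b + m.succ).choose m.succ := by
        rw [Nat.add_succ, Nat.choose_succ_succ, Nat.succ_add, Nat.add_succ]
      rw [this]
      simp only [Nat.succ_sub_one]
      push_cast
      ring

lemma hasse_zero [Fintype σ] (P : MvPolynomial σ ℚ) : hasse 0 P = P := by
  ext β; simp [coeff_hasse]

lemma hasse_monomial [Fintype σ] (μ a : σ →₀ ℕ) (c : ℚ) :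
    hasse μ (monomial a c) = monomial (a - μ) ((∏ i, ((a i).choose (μ i) : ℚ)) * c) := by
  classical
  ext β
  rw [coeff_hasse, coeff_monomial, coeff_monomial]
  by_cases h : a = β + μ
  · subst h; simp
  · rw [if_neg h, mul_zero]
    split_ifs with h2
    · by_cases hle : μ ≤ a
      · exact absurd (by rw [← h2, tsub_add_cancel_of_le hle]) h
      · obtain ⟨i, hi⟩ : ∃ i, a i < μ i := by
          by_contra hc
          push Not at hc
          exact hle hc
        rw [prod_eq_zero (mem_univ i) (by simp [Nat.choose_eq_zero_of_lt hi]), zero_mul]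
    · rfl

lemma mem_support_hasse [Fintype σ] {μ β : σ →₀ ℕ} {P : MvPolynomial σ ℚ}
    (h : β ∈ (hasse μ P).support) : β + μ ∈ P.support := by
  rw [mem_support_iff, coeff_hasse] at h
  exact mem_support_iff.mpr (right_ne_zero_of_mul h)

lemma degreeOf_hasse_le [Fintype σ] (μ : σ →₀ ℕ) (P : MvPolynomial σ ℚ) (s : σ) :
    (hasse μ P).degreeOf s ≤ P.degreeOf s := by
  rw [degreeOf_le_iff]
  intro β hβ
  have := monomial_le_degreeOf s (mem_support_hasse hβ)
  simp only [Finsupp.coe_add, Pi.add_apply] at this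
  omega

/-! ### The index -/

/-- Every monomial of `F` has `w`-weight at least `t`. -/
def Ind (w : σ → ℝ) (t : ℝ) (F : MvPolynomial σ ℚ) : Prop :=
  ∀ α ∈ F.support, t ≤ Finsupp.weight w α

namespace Ind

variable {w : σ → ℝ} {t t' : ℝ} {F G : MvPolynomial σ ℚ}

lemma zero : Ind w t 0 := by simp [Ind]

lemma mono (h : Ind w t F) (ht : t' ≤ t) : Ind w t' F := fun α hα => ht.trans (h α hα)

lemma add (hF : Ind w t F) (hG : Ind w t G) : Ind w t (F + G) := by
  classical
  intro α hα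
  rcases mem_union.mp (support_add hα) with h | h
  exacts [hF α h, hG α h]

lemma neg (hF : Ind w t F) : Ind w t (-F) := fun α hα => hF α (by simpa using hα)

lemma sub (hF : Ind w t F) (hG : Ind w t G) : Ind w t (F - G) := by
  rw [sub_eq_add_neg]; exact hF.add hG.neg

lemma smul (c : ℚ) (hF : Ind w t F) : Ind w t (c • F) := fun α hα => hF α (support_smul hα)

lemma sum {ι : Type*} {s : Finset ι} {f : ι → MvPolynomial σ ℚ} (h : ∀ i ∈ s, Ind w t (f i)) :
    Ind w t (∑ i ∈ s, f i) :=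
  Finset.sum_induction f _ (fun _ _ => add) zero h

lemma mul (hF : Ind w t F) (hG : Ind w t' G) : Ind w (t + t') (F * G) := by
  classical
  intro α hα
  obtain ⟨a, ha, b, hb, rfl⟩ := mem_add.mp (support_mul _ _ hα)
  rw [map_add]
  exact add_le_add (hF a ha) (hG b hb)

lemma C (c : ℚ) : Ind w 0 (C c) := by
  intro α hα
  have : α = 0 := by simpa using support_monomial_subset hα
  simp [this]

lemma one : Ind w 0 1 := C 1

lemma X (s : σ) : Ind w (w s) (X s) := by
  intro α hα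
  have : α = Finsupp.single s 1 := by simpa using support_monomial_subset hα
  simp [this, Finsupp.weight_single]

lemma monomial (a : σ →₀ ℕ) (c : ℚ) : Ind w (Finsupp.weight w a) (monomial a c) := by
  intro α hα
  have : α = a := by simpa using support_monomial_subset hα
  simp [this]

lemma prod {ι : Type*} {s : Finset ι} {f : ι → MvPolynomial σ ℚ} {u : ι → ℝ}
    (h : ∀ i ∈ s, Ind w (u i) (f i)) : Ind w (∑ i ∈ s, u i) (∏ i ∈ s, f i) := by
  classical
  induction s using Finset.induction_on with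
  | empty => simpa using one
  | insert a s ha ih =>
    rw [sum_insert ha, prod_insert ha]
    exact (h a (mem_insert_self _ _)).mul (ih fun i hi => h i (mem_insert_of_mem hi))

lemma pow (hF : Ind w t F) (n : ℕ) : Ind w (n * t) (F ^ n) := by
  have := prod (s := range n) (f := fun _ => F) (u := fun _ => t) fun _ _ => hF
  simpa using this

lemma of_nonneg (hw : ∀ s, 0 ≤ w s) (F : MvPolynomial σ ℚ) : Ind w 0 F := by
  intro α _
  rw [Finsupp.weight_apply]
  exact sum_nonneg fun i _ => nsmul_nonneg (hw i) _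

lemma max (h : Ind w t F) (h' : Ind w t' F) : Ind w (max t t') F :=
  fun α hα => max_le (h α hα) (h' α hα)

lemma hasse [Fintype σ] (h : Ind w t F) (μ : σ →₀ ℕ) :
    Ind w (t - Finsupp.weight w μ) (hasse μ F) := by
  intro β hβ
  have := h _ (mem_support_hasse hβ)
  rw [map_add] at this
  linarith

lemma coeff_eq_zero (h : Ind w t F) {α : σ →₀ ℕ} (hα : Finsupp.weight w α < t) :
    coeff α F = 0 := by
  by_contra hc
  exact absurd (h α (mem_support_iff.mpr hc)) (not_le.mpr hα)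

lemma of_coeff (h : ∀ α, Finsupp.weight w α < t → coeff α F = 0) : Ind w t F := by
  intro α hα
  by_contra hc
  exact mem_support_iff.mp hα (h α (not_le.mp hc))

lemma det {n : Type*} [Fintype n] [DecidableEq n] {M : Matrix n n (MvPolynomial σ ℚ)}
    {u : n → n → ℝ} (h : ∀ i j, Ind w (u i j) (M i j))
    (ht : ∀ π : Equiv.Perm n, t ≤ ∑ j, u (π j) j) : Ind w t M.det := by
  rw [Matrix.det_apply']
  refine sum fun π _ => ?_
  have h1 : Ind w 0 (((Equiv.Perm.sign π : ℤˣ) : ℤ) : MvPolynomial σ ℚ) := by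
    have := C (w := w) (((Equiv.Perm.sign π : ℤˣ) : ℤ) : ℚ)
    simpa using this
  have := h1.mul (prod (s := univ) fun j _ => h (π j) j)
  exact this.mono (by simpa using ht π)

end Ind

/-! ### Integrality -/

/-- The subring of polynomials with integer coefficients. -/
noncomputable def intPoly (σ : Type*) : Subring (MvPolynomial σ ℚ) :=
  (map (Int.castRingHom ℚ)).range

/-- `P` has integer coefficients. -/
def IsInt (P : MvPolynomial σ ℚ) : Prop := P ∈ intPoly σ

lemma isInt_iff {P : MvPolynomial σ ℚ} : IsInt P ↔ ∀ α, ∃ z : ℤ, coeff α P = z := by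
  constructor
  · rintro ⟨Q, rfl⟩ α
    exact ⟨coeff α Q, by simp [coeff_map]⟩
  · intro h
    choose z hz using h
    refine ⟨∑ α ∈ P.support, monomial α (z α), ?_⟩
    rw [map_sum]
    conv_rhs => rw [P.as_sum]
    exact sum_congr rfl fun α _ => by simp [hz]

namespace IsInt

variable {F G : MvPolynomial σ ℚ}

lemma map (Q : MvPolynomial σ ℤ) : IsInt (map (Int.castRingHom ℚ) Q) := ⟨Q, rfl⟩
lemma zero : IsInt (0 : MvPolynomial σ ℚ) := (intPoly σ).zero_mem
lemma one : IsInt (1 : MvPolynomial σ ℚ) := (intPoly σ).one_mem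
lemma add (hF : IsInt F) (hG : IsInt G) : IsInt (F + G) := (intPoly σ).add_mem hF hG
lemma sub (hF : IsInt F) (hG : IsInt G) : IsInt (F - G) := (intPoly σ).sub_mem hF hG
lemma neg (hF : IsInt F) : IsInt (-F) := (intPoly σ).neg_mem hF
lemma mul (hF : IsInt F) (hG : IsInt G) : IsInt (F * G) := (intPoly σ).mul_mem hF hG
lemma pow (hF : IsInt F) (n : ℕ) : IsInt (F ^ n) := (intPoly σ).pow_mem hF n
lemma intCast (z : ℤ) : IsInt (z : MvPolynomial σ ℚ) := intCast_mem (intPoly σ) z
lemma C (z : ℤ) : IsInt (C (z : ℚ) : MvPolynomial σ ℚ) := ⟨MvPolynomial.C z, by simp⟩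
lemma X (s : σ) : IsInt (X s : MvPolynomial σ ℚ) := ⟨MvPolynomial.X s, by simp⟩
lemma monomial (a : σ →₀ ℕ) (z : ℤ) : IsInt (monomial a (z : ℚ)) :=
  ⟨MvPolynomial.monomial a z, by simp⟩

lemma sum {ι : Type*} {s : Finset ι} {f : ι → MvPolynomial σ ℚ} (h : ∀ i ∈ s, IsInt (f i)) :
    IsInt (∑ i ∈ s, f i) := (intPoly σ).sum_mem h

lemma prod {ι : Type*} {s : Finset ι} {f : ι → MvPolynomial σ ℚ} (h : ∀ i ∈ s, IsInt (f i)) :
    IsInt (∏ i ∈ s, f i) := (intPoly σ).prod_mem h

lemma det {n : Type*} [Fintype n] [DecidableEq n] {M : Matrix n n (MvPolynomial σ ℚ)}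
    (h : ∀ i j, IsInt (M i j)) : IsInt M.det := by
  rw [Matrix.det_apply']
  exact sum fun π _ => (intCast _).mul (prod fun j _ => h _ _)

lemma hasse [Fintype σ] (h : IsInt F) (μ : σ →₀ ℕ) : IsInt (hasse μ F) := by
  rw [isInt_iff] at h ⊢
  intro β
  obtain ⟨z, hz⟩ := h (β + μ)
  exact ⟨(∏ i, ((β i + μ i).choose (μ i) : ℤ)) * z, by rw [coeff_hasse, hz]; push_cast; rfl⟩

lemma aeval (h : IsInt F) {g : σ → MvPolynomial τ ℚ} (hg : ∀ s, IsInt (g s)) :
    IsInt (aeval g F) := by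
  rw [F.as_sum, map_sum]
  refine sum fun α _ => ?_
  obtain ⟨z, hz⟩ := isInt_iff.mp h α
  rw [aeval_monomial, hz]
  exact (C z).mul (prod fun s _ => (hg s).pow _)

lemma shift (h : IsInt F) (x : σ → ℤ) : IsInt (shift (fun s => (x s : ℚ)) F) :=
  h.aeval fun s => (X s).add (C _)

lemma eval (h : IsInt F) (x : σ → ℤ) : ∃ z : ℤ, eval (fun s => (x s : ℚ)) F = z := by
  obtain ⟨Q, rfl⟩ := h
  refine ⟨MvPolynomial.eval x Q, ?_⟩
  rw [eval_map]
  exact (eval₂_comp_left (Int.castRingHom ℚ) (RingHom.id ℤ) x Q).symm.trans rfl |>.symm ▸ rfl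

end IsInt

/-! ### Weighted norms -/

/-- The weighted `ℓ¹` norm with respect to an absolute value and radii `ρ`. -/
noncomputable def wnorm (ab : AbsoluteValue ℚ ℝ) (ρ : σ → ℝ) (F : MvPolynomial σ ℚ) : ℝ :=
  ∑ α ∈ F.support, ab (coeff α F) * α.prod fun s k => ρ s ^ k

/-- The `ℓ¹` norm of the coefficient vector. -/
noncomputable def l1 (F : MvPolynomial σ ℚ) : ℝ := ∑ α ∈ F.support, |((coeff α F : ℚ) : ℝ)|

section wnorm

variable {ab : AbsoluteValue ℚ ℝ} {ρ : σ → ℝ}

lemma l1_eq_wnorm (F : MvPolynomial σ ℚ) : l1 F = wnorm Rat.AbsoluteValue.real 1 F := by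
  simp [l1, wnorm, Finsupp.prod, Rat.AbsoluteValue.real_eq_abs]

lemma rprod_nonneg (hρ : ∀ s, 0 ≤ ρ s) (α : σ →₀ ℕ) : 0 ≤ α.prod fun s k => ρ s ^ k :=
  prod_nonneg fun s _ => pow_nonneg (hρ s) _

lemma rprod_add (α β : σ →₀ ℕ) : ((α + β).prod fun s k => ρ s ^ k) =
    (α.prod fun s k => ρ s ^ k) * β.prod fun s k => ρ s ^ k :=
  Finsupp.prod_add_index' (by simp) (by simp [pow_add])

lemma wnorm_nonneg (hρ : ∀ s, 0 ≤ ρ s) (F : MvPolynomial σ ℚ) : 0 ≤ wnorm ab ρ F :=
  sum_nonneg fun α _ => mul_nonneg (ab.nonneg _) (rprod_nonneg hρ α)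

lemma wnorm_eq_sum {F : MvPolynomial σ ℚ} {s : Finset (σ →₀ ℕ)} (h : F.support ⊆ s) :
    wnorm ab ρ F = ∑ α ∈ s, ab (coeff α F) * α.prod fun s k => ρ s ^ k :=
  sum_subset h fun α _ hα => by rw [notMem_support_iff.mp hα]; simp

@[simp] lemma wnorm_zero : wnorm ab ρ 0 = 0 := by simp [wnorm]

lemma wnorm_monomial (a : σ →₀ ℕ) (c : ℚ) :
    wnorm ab ρ (monomial a c) = ab c * a.prod fun s k => ρ s ^ k := by
  classical
  rw [wnorm_eq_sum support_monomial_subset]; simp

@[simp] lemma wnorm_C (c : ℚ) : wnorm ab ρ (C c) = ab c := by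
  rw [← monomial_zero', wnorm_monomial]; simp

@[simp] lemma wnorm_one : wnorm ab ρ 1 = 1 := by
  rw [← C_1, wnorm_C]; simp

@[simp] lemma wnorm_X (s : σ) : wnorm ab ρ (X s) = ρ s := by
  rw [X, wnorm_monomial]; simp

lemma wnorm_neg (F : MvPolynomial σ ℚ) : wnorm ab ρ (-F) = wnorm ab ρ F := by
  simp [wnorm]

lemma wnorm_smul (c : ℚ) (F : MvPolynomial σ ℚ) :
    wnorm ab ρ (c • F) = ab c * wnorm ab ρ F := by
  rw [wnorm_eq_sum support_smul, wnorm, mul_sum]
  exact sum_congr rfl fun α _ => by simp [mul_assoc]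

lemma wnorm_add_le (hρ : ∀ s, 0 ≤ ρ s) (F G : MvPolynomial σ ℚ) :
    wnorm ab ρ (F + G) ≤ wnorm ab ρ F + wnorm ab ρ G := by
  classical
  rw [wnorm_eq_sum support_add, wnorm_eq_sum (F := F) (s := F.support ∪ G.support)
    subset_union_left, wnorm_eq_sum (F := G) (s := F.support ∪ G.support) subset_union_right,
    ← sum_add_distrib]
  refine sum_le_sum fun α _ => ?_
  rw [← add_mul, coeff_add]
  exact mul_le_mul_of_nonneg_right (ab.add_le _ _) (rprod_nonneg hρ α)

lemma wnorm_sum_le (hρ : ∀ s, 0 ≤ ρ s) {ι : Type*} (s : Finset ι) (f : ι → MvPolynomial σ ℚ) :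
    wnorm ab ρ (∑ i ∈ s, f i) ≤ ∑ i ∈ s, wnorm ab ρ (f i) :=
  Finset.le_sum_of_subadditive _ wnorm_zero.le (wnorm_add_le hρ) s f

lemma wnorm_mul_le (hρ : ∀ s, 0 ≤ ρ s) (F G : MvPolynomial σ ℚ) :
    wnorm ab ρ (F * G) ≤ wnorm ab ρ F * wnorm ab ρ G := by
  conv_lhs => rw [F.as_sum, G.as_sum, sum_mul_sum]
  conv_rhs => rw [wnorm, wnorm, sum_mul_sum]
  refine (wnorm_sum_le hρ _ _).trans (sum_le_sum fun α _ => ?_)
  refine (wnorm_sum_le hρ _ _).trans (sum_le_sum fun β _ => ?_)
  rw [monomial_mul, wnorm_monomial, rprod_add, map_mul]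
  exact le_of_eq (by ring)

lemma wnorm_prod_le (hρ : ∀ s, 0 ≤ ρ s) {ι : Type*} (s : Finset ι) (f : ι → MvPolynomial σ ℚ) :
    wnorm ab ρ (∏ i ∈ s, f i) ≤ ∏ i ∈ s, wnorm ab ρ (f i) := by
  classical
  induction s using Finset.induction_on with
  | empty => simp
  | insert a s ha ih =>
    rw [prod_insert ha, prod_insert ha]
    exact (wnorm_mul_le hρ _ _).trans (mul_le_mul_of_nonneg_left ih (wnorm_nonneg hρ _))

lemma wnorm_pow_le (hρ : ∀ s, 0 ≤ ρ s) (F : MvPolynomial σ ℚ) (n : ℕ) :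
    wnorm ab ρ (F ^ n) ≤ wnorm ab ρ F ^ n := by
  simpa using wnorm_prod_le (ab := ab) hρ (range n) fun _ => F

lemma coeff_le_wnorm (hρ : ∀ s, 0 ≤ ρ s) (F : MvPolynomial σ ℚ) (α : σ →₀ ℕ) :
    ab (coeff α F) * (α.prod fun s k => ρ s ^ k) ≤ wnorm ab ρ F := by
  by_cases h : α ∈ F.support
  · exact single_le_sum (f := fun α => ab (coeff α F) * α.prod fun s k => ρ s ^ k)
      (fun β _ => mul_nonneg (ab.nonneg _) (rprod_nonneg hρ β)) h
  · rw [notMem_support_iff.mp h]; simpa using wnorm_nonneg hρ F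

lemma wnorm_aeval_le {ρ : τ → ℝ} (hρ : ∀ s, 0 ≤ ρ s) {g : σ → MvPolynomial τ ℚ} {r : σ → ℝ}
    (hg : ∀ s, wnorm ab ρ (g s) ≤ r s) (F : MvPolynomial σ ℚ) :
    wnorm ab ρ (aeval g F) ≤ wnorm ab r F := by
  conv_lhs => rw [F.as_sum, map_sum]
  refine (wnorm_sum_le hρ _ _).trans (sum_le_sum fun α _ => ?_)
  rw [aeval_monomial]
  refine (wnorm_mul_le hρ _ _).trans ?_
  rw [algebraMap_eq, wnorm_C]
  refine mul_le_mul_of_nonneg_left ((wnorm_prod_le hρ _ _).trans ?_) (ab.nonneg _)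
  refine prod_le_prod (fun s _ => wnorm_nonneg hρ _) fun s _ => (wnorm_pow_le hρ _ _).trans ?_
  exact pow_le_pow_left₀ (wnorm_nonneg hρ _) (hg s) _

lemma wnorm_det_le (hρ : ∀ s, 0 ≤ ρ s) {n : Type*} [Fintype n] [DecidableEq n]
    {M : Matrix n n (MvPolynomial σ ℚ)} {b : ℝ} (h : ∀ i j, wnorm ab ρ (M i j) ≤ b) :
    wnorm ab ρ M.det ≤ (Fintype.card n).factorial * b ^ Fintype.card n := by
  rw [Matrix.det_apply]
  refine (wnorm_sum_le hρ _ _).trans ?_
  have : ∀ π : Equiv.Perm n, wnorm ab ρ (Equiv.Perm.sign π • ∏ i, M (π i) i) ≤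
      b ^ Fintype.card n := by
    intro π
    have h1 : wnorm ab ρ (Equiv.Perm.sign π • ∏ i, M (π i) i) = wnorm ab ρ (∏ i, M (π i) i) := by
      rcases Int.units_eq_one_or (Equiv.Perm.sign π) with h | h <;> simp [h, wnorm_neg]
    rw [h1]
    refine (wnorm_prod_le hρ _ _).trans ?_
    rw [← Finset.card_univ, ← prod_const]
    exact prod_le_prod (fun i _ => wnorm_nonneg hρ _) fun i _ => h _ _
  refine (sum_le_sum fun π _ => this π).trans ?_
  simp [Fintype.card_perm]

end wnorm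

lemma l1_nonneg (F : MvPolynomial σ ℚ) : 0 ≤ l1 F := sum_nonneg fun _ _ => abs_nonneg _

lemma abs_coeff_le_l1 (F : MvPolynomial σ ℚ) (α : σ →₀ ℕ) :
    |((coeff α F : ℚ) : ℝ)| ≤ l1 F := by
  by_cases h : α ∈ F.support
  · exact single_le_sum (f := fun α => |((coeff α F : ℚ) : ℝ)|) (fun β _ => abs_nonneg _) h
  · rw [notMem_support_iff.mp h]; simpa using l1_nonneg F

lemma one_le_l1 {F : MvPolynomial σ ℚ} (h : IsInt F) (h0 : F ≠ 0) : 1 ≤ l1 F := by
  obtain ⟨α, hα⟩ := ne_zero_iff.mp h0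
  obtain ⟨z, hz⟩ := isInt_iff.mp h α
  refine le_trans ?_ (abs_coeff_le_l1 F α)
  rw [hz] at hα ⊢
  have : z ≠ 0 := by simpa using hα
  exact_mod_cast Int.one_le_abs this

lemma l1_sum_le {ι : Type*} (s : Finset ι) (f : ι → MvPolynomial σ ℚ) :
    l1 (∑ i ∈ s, f i) ≤ ∑ i ∈ s, l1 (f i) := by
  simp only [l1_eq_wnorm]
  exact wnorm_sum_le (by simp) s f

lemma l1_monomial (a : σ →₀ ℕ) (c : ℚ) : l1 (monomial a c) = |(c : ℝ)| := by
  simp [l1_eq_wnorm, wnorm_monomial, Finsupp.prod, Rat.AbsoluteValue.real_eq_abs]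

lemma l1_det_le {n : Type*} [Fintype n] [DecidableEq n]
    {M : Matrix n n (MvPolynomial σ ℚ)} {b : ℝ} (h : ∀ i j, l1 (M i j) ≤ b) :
    l1 M.det ≤ (Fintype.card n).factorial * b ^ Fintype.card n := by
  simp only [l1_eq_wnorm] at h ⊢
  exact wnorm_det_le (by simp) h

lemma l1_hasse_le [Fintype σ] (μ : σ →₀ ℕ) (F : MvPolynomial σ ℚ) {d : σ → ℕ}
    (hd : ∀ s, F.degreeOf s ≤ d s) : l1 (hasse μ F) ≤ 2 ^ (∑ s, d s) * l1 F := by
  conv_lhs => rw [F.as_sum, map_sum]
  refine (l1_sum_le _ _).trans ?_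
  rw [l1, mul_sum]
  refine sum_le_sum fun α hα => ?_
  rw [hasse_monomial, l1_monomial]
  push_cast
  rw [abs_mul, ← prod_pow_eq_pow_sum]
  refine mul_le_mul_of_nonneg_right ?_ (abs_nonneg _)
  rw [abs_of_nonneg (prod_nonneg fun i _ => by positivity)]
  refine prod_le_prod (fun i _ => by positivity) fun i _ => ?_
  have h1 : (α i).choose (μ i) ≤ 2 ^ d i := (Nat.choose_le_two_pow _ _).trans
    (Nat.pow_le_pow_right (by norm_num) ((monomial_le_degreeOf i hα).trans (hd i)))
  exact_mod_cast h1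

end Pool.Agent.Subspace
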