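import Mathlib
import Pool.Agent.Shared.Subspace.Basic

set_option maxHeartbeats 400000
set_option maxSynthPendingDepth 3

/-! Generalized Wronskians for multivariate polynomials over the rationals (helper94). -/

open MvPolynomial Matrix
open scoped MonomialOrder

namespace Pool.Agent.Subspace

namespace RL

/-- A nonzero determinant whose rows lie in spans stays nonzero for some choice of generators. -/
theorem exists_choice_det {n : Type} [Fintype n] [DecidableEq n] (S : n → Set (n → ℚ))
    (v : Matrix n n ℚ) (hv : ∀ i, v i ∈ Submodule.span ℚ (S i)) (h : v.det ≠ 0) :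
    ∃ w : Matrix n n ℚ, (∀ i, w i ∈ S i) ∧ w.det ≠ 0 := by
  have key : ∀ T : Finset n, ∃ w : Matrix n n ℚ,
      (∀ i ∈ T, w i ∈ S i) ∧ (∀ i ∉ T, w i = v i) ∧ w.det ≠ 0 := by
    intro T
    induction T using Finset.induction_on with
    | empty => exact ⟨v, by simp, by simp, h⟩
    | insert i T hi ih =>
      obtain ⟨w, h1, h2, h3⟩ := ih
      have : ∃ s ∈ S i, (w.updateRow i s).det ≠ 0 := by
        by_contra hc
        push Not at hc
        have hz : ∀ x ∈ Submodule.span ℚ (S i), (w.updateRow i x).det = 0 := by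
          intro x hx
          induction hx using Submodule.span_induction with
          | mem x hx => exact hc x hx
          | zero =>
            exact det_eq_zero_of_row_eq_zero i (by simp)
          | add x y _ _ hx hy => rw [det_updateRow_add, hx, hy, add_zero]
          | smul a x _ hx => rw [det_updateRow_smul, hx, mul_zero]
        have := hz _ (hv i)
        rw [← h2 i hi, updateRow_eq_self] at this
        exact h3 this
      obtain ⟨s, hs, hd⟩ := this
      refine ⟨w.updateRow i s, ?_, ?_, hd⟩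
      · intro j hj
        by_cases hji : j = i
        · subst hji; simpa using hs
        · rw [updateRow_ne hji]
          exact h1 j (by simpa [hji] using hj)
      · intro j hj
        have hji : j ≠ i := by rintro rfl; simp at hj
        rw [updateRow_ne hji]
        exact h2 j (by intro h'; exact hj (Finset.mem_insert_of_mem h'))
  obtain ⟨w, h1, -, h3⟩ := key Finset.univ
  exact ⟨w, fun i => h1 i (Finset.mem_univ i), h3⟩

/-- The product of binomial coefficients. -/
def bin {σ : Type} [Fintype σ] (a μ : σ →₀ ℕ) : ℕ := ∏ h, (a h).choose (μ h)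

theorem choose_step (n k : ℕ) (c : ℚ) :
    ((n : ℚ) - c) * (n.choose k : ℚ) =
      ((k : ℚ) + 1) * (n.choose (k + 1) : ℚ) + ((k : ℚ) - c) * (n.choose k : ℚ) := by
  have h := Nat.choose_succ_right_eq n k
  rcases le_or_gt k n with hk | hk
  · have h' : ((n.choose (k + 1) * (k + 1) : ℕ) : ℚ) = ((n.choose k * (n - k) : ℕ) : ℚ) := by
      rw [h]
    push_cast [Nat.cast_sub hk] at h'
    linear_combination -h'
  · rw [Nat.choose_eq_zero_of_lt hk, Nat.choose_eq_zero_of_lt (by omega : n < k + 1)]
    simp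

theorem bin_step {σ : Type} [Fintype σ] [DecidableEq σ] (a μ : σ →₀ ℕ) (h : σ) (c : ℚ) :
    ((a h : ℚ) - c) * (bin a μ : ℚ) =
      ((μ h : ℚ) + 1) * (bin a (μ + Finsupp.single h 1) : ℚ) + ((μ h : ℚ) - c) * (bin a μ : ℚ) := by
  unfold bin
  rw [← Finset.mul_prod_erase _ _ (Finset.mem_univ h),
    ← Finset.mul_prod_erase _ _ (Finset.mem_univ h)]
  have : ∏ x ∈ Finset.univ.erase h, (a x).choose ((μ + Finsupp.single h 1 : σ →₀ ℕ) x) =
      ∏ x ∈ Finset.univ.erase h, (a x).choose (μ x) := by
    refine Finset.prod_congr rfl fun x hx => ?_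
    have hx' : x ≠ h := Finset.ne_of_mem_erase hx
    simp [Finsupp.single_eq_of_ne hx']
  rw [this]
  have h1 : (μ + Finsupp.single h 1 : σ →₀ ℕ) h = μ h + 1 := by simp
  rw [h1]
  push_cast
  have := choose_step (a h) (μ h) c
  linear_combination (∏ x ∈ Finset.univ.erase h, ((a x).choose (μ x) : ℚ)) * this

theorem exists_bin_det {σ : Type} [Fintype σ] [DecidableEq σ] {n : ℕ} (a : Fin n → σ →₀ ℕ)
    (ha : Function.Injective a) :
    ∃ μ : Fin n → σ →₀ ℕ, (∀ i, (μ i).degree ≤ (i : ℕ)) ∧
      (Matrix.of fun i j => (bin (a j) (μ i) : ℚ)).det ≠ 0 := by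
  classical
  let S : ℕ → Set (Fin n → ℚ) := fun k =>
    {φ | ∃ μ : σ →₀ ℕ, μ.degree ≤ k ∧ φ = fun j => (bin (a j) μ : ℚ)}
  have step : ∀ (k : ℕ) (h : σ) (c : ℚ), ∀ φ ∈ Submodule.span ℚ (S k),
      (fun j => ((a j h : ℚ) - c) * φ j) ∈ Submodule.span ℚ (S (k + 1)) := by
    intro k h c φ hφ
    induction hφ using Submodule.span_induction with
    | mem φ hφ =>
      obtain ⟨μ, hμ, rfl⟩ := hφ
      have e : (fun j => ((a j h : ℚ) - c) * (bin (a j) μ : ℚ)) =
          ((μ h : ℚ) + 1) • (fun j => (bin (a j) (μ + Finsupp.single h 1) : ℚ)) +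
            ((μ h : ℚ) - c) • (fun j => (bin (a j) μ : ℚ)) := by
        funext j
        simp only [Pi.add_apply, Pi.smul_apply, smul_eq_mul]
        exact bin_step _ _ _ _
      rw [e]
      refine Submodule.add_mem _ (Submodule.smul_mem _ _ (Submodule.subset_span ⟨_, ?_, rfl⟩))
        (Submodule.smul_mem _ _ (Submodule.subset_span ⟨_, ?_, rfl⟩))
      · rw [map_add, Finsupp.degree_single]; omega
      · omega
    | zero =>
      convert Submodule.zero_mem (Submodule.span ℚ (S (k + 1))) using 1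
      funext j; simp
    | add x y _ _ hx hy =>
      have := Submodule.add_mem _ hx hy
      convert this using 1
      funext j; simp [mul_add]
    | smul r x _ hx =>
      have := Submodule.smul_mem _ r hx
      convert this using 1
      funext j; simp [mul_left_comm]
  have prodm : ∀ (T : Finset (Fin n)) (h : Fin n → σ) (c : Fin n → ℚ),
      (fun j => ∏ k ∈ T, ((a j (h k) : ℚ) - c k)) ∈ Submodule.span ℚ (S T.card) := by
    intro T h c
    induction T using Finset.induction_on with
    | empty =>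
      refine Submodule.subset_span ⟨0, by simp, ?_⟩
      funext j; simp [bin]
    | insert k T hk ih =>
      rw [Finset.card_insert_of_notMem hk]
      have := step _ (h k) (c k) _ ih
      convert this using 1
      funext j; rw [Finset.prod_insert hk]
  have hsep : ∀ i k : Fin n, k ≠ i → ∃ h : σ, a i h ≠ a k h := by
    intro i k hk
    by_contra hc
    push Not at hc
    exact hk (ha (Finsupp.ext hc)).symm
  rcases Nat.eq_zero_or_pos n with rfl | hn
  · exact ⟨fun i => i.elim0, fun i => i.elim0, by simp⟩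
  by_cases hσ : Nonempty σ
  swap
  · refine ⟨fun _ => 0, by simp, ?_⟩
    have hsub : Subsingleton (Fin n) := ⟨fun i k => by
      by_contra hik
      obtain ⟨h, -⟩ := hsep k i hik
      exact hσ ⟨h⟩⟩
    rw [det_eq_elem_of_subsingleton _ ⟨0, hn⟩]
    simp [bin]
  have hsep' : ∀ i k : Fin n, ∃ h : σ, k ≠ i → a i h ≠ a k h := by
    intro i k
    by_cases hk : k = i
    · exact ⟨hσ.some, fun h => (h hk).elim⟩
    · obtain ⟨h, hh⟩ := hsep i k hk
      exact ⟨h, fun _ => hh⟩
  choose hh hhs using hsep'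
  let v : Matrix (Fin n) (Fin n) ℚ := fun i j =>
    ∏ k ∈ Finset.Iio i, ((a j (hh i k) : ℚ) - (a k (hh i k) : ℚ))
  have hv : v.det ≠ 0 := by
    rw [det_of_isUpperTriangular]
    · refine Finset.prod_ne_zero_iff.mpr fun i _ => Finset.prod_ne_zero_iff.mpr fun k hk => ?_
      have hk' : k ≠ i := ne_of_lt (Finset.mem_Iio.mp hk)
      rw [sub_ne_zero]
      exact_mod_cast hhs i k hk'
    · intro i j hij
      exact Finset.prod_eq_zero (Finset.mem_Iio.mpr hij) (sub_self _)
  obtain ⟨w, hw, hd⟩ := exists_choice_det (fun i => S i) v (fun i => by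
    have := prodm (Finset.Iio i) (hh i) (fun k => (a k (hh i k) : ℚ))
    rwa [Fin.card_Iio] at this) hv
  choose μ hμ hw' using hw
  refine ⟨μ, hμ, ?_⟩
  convert hd using 2
  ext i j
  rw [hw' i]; rfl

/-- Echelon form: a linearly independent family spans a family with distinct leading monomials. -/
theorem exists_echelon {σ : Type} (mo : MonomialOrder σ) {n : ℕ} (f : Fin n → MvPolynomial σ ℚ)
    (hf : LinearIndependent ℚ f) (k : ℕ) (hk : k ≤ n) :
    ∃ M : Fin k → Fin n → ℚ, (∀ j, ∑ l, M j l • f l ≠ 0) ∧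
      Function.Injective fun j => mo.degree (∑ l, M j l • f l) := by
  induction k with
  | zero => exact ⟨fun i => i.elim0, fun i => i.elim0, fun i => i.elim0⟩
  | succ k ih =>
    obtain ⟨M, h1, h2⟩ := ih (by omega)
    let φ : (Fin n → ℚ) →ₗ[ℚ] (Fin k → ℚ) :=
      LinearMap.pi fun j => (lcoeff ℚ (mo.degree (∑ l, M j l • f l))) ∘ₗ
        Fintype.linearCombination ℚ f
    have hker : LinearMap.ker φ ≠ ⊥ :=
      LinearMap.ker_ne_bot_of_finrank_lt (by simp; omega)
    obtain ⟨x, hx, hx0⟩ := Submodule.exists_mem_ne_zero_of_ne_bot hker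
    have hne : ∑ l, x l • f l ≠ 0 := fun h0 =>
      hx0 (funext (Fintype.linearIndependent_iff.mp hf x h0))
    have hx' : ∀ j, mo.degree (∑ l, x l • f l) ≠ mo.degree (∑ l, M j l • f l) := by
      intro j he
      have h0 : φ x j = 0 := by rw [LinearMap.mem_ker.mp hx]; rfl
      have h1 : coeff (mo.degree (∑ l, M j l • f l)) (∑ l, x l • f l) = 0 := by
        rw [← Fintype.linearCombination_apply ℚ f x]
        exact h0
      rw [← he] at h1
      exact mo.coeff_degree_ne_zero_iff.mpr hne h1
    refine ⟨Fin.cons x M, ?_, ?_⟩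
    · intro j
      refine Fin.cases ?_ (fun j => ?_) j
      · simpa using hne
      · simpa using h1 j
    · have : (fun j : Fin (k + 1) => mo.degree (∑ l, (Fin.cons x M : Fin (k + 1) → Fin n → ℚ) j l • f l))
          = Fin.cons (mo.degree (∑ l, x l • f l)) (fun j => mo.degree (∑ l, M j l • f l)) := by
        funext j
        refine Fin.cases ?_ (fun j => ?_) j <;> simp
      rw [this, Fin.cons_injective_iff]
      refine ⟨?_, h2⟩
      rintro ⟨j, hj⟩
      exact hx' j hj.symm

theorem coeff_prod_of_degree_le {σ ι : Type} (mo : MonomialOrder σ) (P : ι → MvPolynomial σ ℚ)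
    (a : ι → σ →₀ ℕ) (s : Finset ι) (h : ∀ i ∈ s, mo.degree (P i) ≼[mo] a i) :
    mo.degree (∏ i ∈ s, P i) ≼[mo] ∑ i ∈ s, a i ∧
    coeff (∑ i ∈ s, a i) (∏ i ∈ s, P i) = ∏ i ∈ s, coeff (a i) (P i) := by
  classical
  induction s using Finset.induction_on with
  | empty => simp
  | insert i s hi ih =>
    obtain ⟨h1, h2⟩ := ih fun j hj => h j (Finset.mem_insert_of_mem hj)
    have h3 := h i (Finset.mem_insert_self _ _)
    simp only [Finset.prod_insert hi, Finset.sum_insert hi]
    refine ⟨?_, ?_⟩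
    · refine le_trans MonomialOrder.degree_mul_le ?_
      simp only [map_add]
      exact add_le_add h3 h1
    · rw [MonomialOrder.coeff_mul_of_add_of_degree_le h3 h1, h2]

theorem bin_eq_zero {σ : Type} [Fintype σ] {a μ : σ →₀ ℕ} (h : ¬ μ ≤ a) : bin a μ = 0 := by
  rw [Finsupp.le_def] at h
  push Not at h
  obtain ⟨i, hi⟩ := h
  exact Finset.prod_eq_zero (Finset.mem_univ i) (Nat.choose_eq_zero_of_lt hi)

/-- Generalized Wronskian theorem, for any family `H` of operators with the coefficient formula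
of the Hasse derivatives. -/
theorem gen_wronskian {σ : Type} [Fintype σ] [DecidableEq σ] (mo : MonomialOrder σ)
    (H : (σ →₀ ℕ) → MvPolynomial σ ℚ → MvPolynomial σ ℚ)
    (hH : ∀ μ a f, coeff a (H μ f) = (bin (a + μ) μ : ℚ) * coeff (a + μ) f)
    {n : ℕ} (f : Fin n → MvPolynomial σ ℚ) (hf : LinearIndependent ℚ f) :
    ∃ μ : Fin n → σ →₀ ℕ, (∀ i, (μ i).degree ≤ (i : ℕ)) ∧
      (Matrix.of fun i j => H (μ i) (f j)).det ≠ 0 := by
  classical
  obtain ⟨M, h1, h2⟩ := exists_echelon mo f hf n le_rfl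
  set g : Fin n → MvPolynomial σ ℚ := fun j => ∑ l, M j l • f l with hg
  obtain ⟨μ, hμ, hd⟩ := exists_bin_det (fun j => mo.degree (g j)) h2
  refine ⟨μ, hμ, fun h0 => ?_⟩
  have hD : ∀ ν a p, coeff a (monomial ν 1 * H ν p) = (bin a ν : ℚ) * coeff a p := by
    intro ν a p
    rw [coeff_monomial_mul']
    split_ifs with hle
    · rw [hH, tsub_add_cancel_of_le hle, one_mul]
    · rw [bin_eq_zero hle]; simp
  let A : Matrix (Fin n) (Fin n) (MvPolynomial σ ℚ) := fun i j => monomial (μ i) 1 * H (μ i) (g j)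
  let B : Matrix (Fin n) (Fin n) (MvPolynomial σ ℚ) := Matrix.of fun l j => C (M j l)
  let W : Matrix (Fin n) (Fin n) (MvPolynomial σ ℚ) := Matrix.of fun i j => H (μ i) (f j)
  have hA : A = Matrix.of (fun i j => (fun i => monomial (μ i) (1 : ℚ)) i * (W * B) i j) := by
    ext i j a
    simp only [A, B, W, of_apply, Matrix.mul_apply, Finset.mul_sum, coeff_sum, hD, hg, coeff_smul]
    refine Finset.sum_congr rfl fun l _ => ?_
    rw [← mul_assoc, mul_comm _ (C _), coeff_C_mul, hD]
    simp [mul_left_comm]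
  have hA0 : A.det = 0 := by
    rw [hA, det_mul_column, det_mul, h0]; simp
  have hdeg : ∀ i j, mo.degree (A i j) ≼[mo] mo.degree (g j) := by
    intro i j
    rw [MonomialOrder.degree_le_iff]
    intro c hc
    apply MonomialOrder.le_degree
    rw [mem_support_iff] at hc ⊢
    rw [hD] at hc
    exact right_ne_zero_of_mul hc
  have hc : coeff (∑ j, mo.degree (g j)) A.det =
      (∏ j, coeff (mo.degree (g j)) (g j)) *
        (Matrix.of fun i j => (bin (mo.degree (g j)) (μ i) : ℚ)).det := by
    rw [det_apply, det_apply, coeff_sum, Finset.mul_sum]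
    refine Finset.sum_congr rfl fun π _ => ?_
    rw [Units.smul_def, Units.smul_def, zsmul_eq_mul, zsmul_eq_mul, ← map_intCast (C : ℚ →+* _),
      coeff_C_mul, (coeff_prod_of_degree_le mo _ _ _ fun j _ => hdeg (π j) j).2]
    simp only [A, hD, of_apply, Finset.prod_mul_distrib]
    ring
  rw [hA0, coeff_zero] at hc
  refine mul_ne_zero (Finset.prod_ne_zero_iff.mpr fun j _ => ?_) hd hc.symm
  exact mo.coeff_degree_ne_zero_iff.mpr (h1 j)

end RL

/-- Generalised Wronskians. -/
theorem wronskian_ne_zero {σ : Type} [Fintype σ] {n : ℕ} (f : Fin n → MvPolynomial σ ℚ)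
    (hf : LinearIndependent ℚ f) : ∃ μ : Fin n → σ →₀ ℕ, (∀ i, (μ i).degree ≤ i) ∧
      (Matrix.of fun i j => hasse (μ i) (f j)).det ≠ 0 := by
  classical
  let _ : LinearOrder σ := LinearOrder.lift' (Fintype.equivFin σ) (Fintype.equivFin σ).injective
  refine RL.gen_wronskian MonomialOrder.lex (fun μ p => hasse μ p) ?_ f hf
  intro μ a p
  rw [coeff_hasse]
  simp [RL.bin]

end Pool.Agent.Subspace
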