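import Mathlib
import Pool.Agent.Shared.Subspace.Wronskian

set_option maxHeartbeats 400000
set_option maxSynthPendingDepth 3

/-! Roth's lemma (helper94). -/

open MvPolynomial Matrix

namespace Pool.Agent.Subspace

namespace RL

variable {m : ℕ}

/-- The embedding of polynomials in the last `m` variables. -/
noncomputable def i1 : MvPolynomial (Fin m) ℚ →ₐ[ℚ] MvPolynomial (Fin (m + 1)) ℚ :=
  rename Fin.succ

/-- The embedding of polynomials in the variable `0`. -/
noncomputable def i2 : Polynomial ℚ →ₐ[ℚ] MvPolynomial (Fin (m + 1)) ℚ :=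
  Polynomial.aeval (X 0)

theorem fse_i1 (f : MvPolynomial (Fin m) ℚ) : finSuccEquiv ℚ m (i1 f) = Polynomial.C f := by
  induction f using MvPolynomial.induction_on with
  | C a =>
    simp only [i1, rename_C]
    have := (finSuccEquiv ℚ m).commutes a
    simpa using this
  | add p q hp hq => simp only [map_add, hp, hq]
  | mul_X p n hp =>
    rw [map_mul, map_mul, hp, map_mul]
    simp [i1, finSuccEquiv_X_succ]

theorem fse_i2 (g : Polynomial ℚ) :
    finSuccEquiv ℚ m (i2 g) = g.map (algebraMap ℚ (MvPolynomial (Fin m) ℚ)) := by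
  rw [← Polynomial.aeval_X_left_eq_map, ← finSuccEquiv_X_zero (R := ℚ) (n := m)]
  exact (Polynomial.aeval_algHom_apply (finSuccEquiv ℚ m).toAlgHom (X 0) g).symm

theorem coeff_tens (k : ℕ) (μ : Fin m →₀ ℕ) (f : MvPolynomial (Fin m) ℚ) (g : Polynomial ℚ) :
    coeff (μ.cons k) (i1 f * i2 g) = coeff μ f * g.coeff k := by
  rw [← finSuccEquiv_coeff_coeff, map_mul, fse_i1, fse_i2, Polynomial.coeff_C_mul,
    Polynomial.coeff_map, algebraMap_eq, mul_comm, coeff_C_mul, mul_comm]

theorem ext_cons {P Q : MvPolynomial (Fin (m + 1)) ℚ}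
    (h : ∀ (k : ℕ) (μ : Fin m →₀ ℕ), coeff (μ.cons k) P = coeff (μ.cons k) Q) : P = Q := by
  ext ν
  rw [← Finsupp.cons_tail ν]
  exact h _ _

theorem cons_add (k l : ℕ) (μ ν : Fin m →₀ ℕ) :
    μ.cons k + ν.cons l = (μ + ν).cons (k + l) := by
  ext i
  refine Fin.cases ?_ (fun i => ?_) i <;> simp

theorem hasse_tens (k : ℕ) (μ : Fin m →₀ ℕ) (f : MvPolynomial (Fin m) ℚ) (g : Polynomial ℚ) :
    hasse (μ.cons k) (i1 f * i2 g) = i1 (hasse μ f) * i2 (Polynomial.hasseDeriv k g) := by
  refine ext_cons fun l ν => ?_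
  rw [coeff_hasse, cons_add, coeff_tens, coeff_tens, coeff_hasse, Polynomial.hasseDeriv_coeff,
    Fin.prod_univ_succ]
  simp only [Finsupp.cons_zero, Finsupp.cons_succ]
  ring

theorem shift_i1 (ξ : Fin (m + 1) → ℚ) (f : MvPolynomial (Fin m) ℚ) :
    shift ξ (i1 f) = i1 (shift (fun h => ξ h.succ) f) := by
  have : (shift ξ).comp i1 = i1.comp (shift (fun h => ξ h.succ)) := by
    ext1 h; simp [i1]
  exact congrArg (fun φ => φ f) this

theorem shift_i2 (ξ : Fin (m + 1) → ℚ) (g : Polynomial ℚ) :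
    shift ξ (i2 g) = i2 (Polynomial.taylor (ξ 0) g) := by
  rw [Polynomial.taylor_apply]
  simp only [i2]
  rw [Polynomial.aeval_comp, ← Polynomial.aeval_algHom_apply]
  simp

/-- Separation of the variable `0`. -/
theorem exists_decomp (P : MvPolynomial (Fin (m + 1)) ℚ) (d0 : ℕ) (hd : P.degreeOf 0 ≤ d0) :
    ∃ (n : ℕ) (f : Fin n → MvPolynomial (Fin m) ℚ) (g : Fin n → Polynomial ℚ), n ≤ d0 + 1 ∧
      LinearIndependent ℚ f ∧
      LinearIndependent ℚ (fun j => (i2 (g j) : MvPolynomial (Fin (m + 1)) ℚ)) ∧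
      P = ∑ j, i1 (f j) * i2 (g j) := by
  classical
  let c : Fin (d0 + 1) → MvPolynomial (Fin m) ℚ := fun k => (finSuccEquiv ℚ m P).coeff k
  let V : Submodule ℚ (MvPolynomial (Fin m) ℚ) := Submodule.span ℚ (Set.range c)
  have : FiniteDimensional ℚ V := FiniteDimensional.span_of_finite ℚ (Set.finite_range c)
  let b := Module.finBasis ℚ V
  have hc : ∀ k, c k ∈ V := fun k => Submodule.subset_span ⟨k, rfl⟩
  let g : Fin (Module.finrank ℚ V) → Polynomial ℚ := fun j =>
    ∑ k : Fin (d0 + 1), Polynomial.monomial k (b.repr ⟨c k, hc k⟩ j)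
  have hg : ∀ j (k : Fin (d0 + 1)), (g j).coeff k = b.repr ⟨c k, hc k⟩ j := by
    intro j k
    simp only [g, Polynomial.finsetSum_coeff, Polynomial.coeff_monomial]
    rw [Finset.sum_eq_single k]
    · simp
    · intro l _ hl
      rw [if_neg]
      exact fun h => hl (Fin.ext h)
    · simp
  have hg' : ∀ j k, d0 < k → (g j).coeff k = 0 := by
    intro j k hk
    simp only [g, Polynomial.finsetSum_coeff, Polynomial.coeff_monomial]
    refine Finset.sum_eq_zero fun l _ => if_neg ?_
    have := l.2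
    omega
  refine ⟨Module.finrank ℚ V, fun j => (b j : MvPolynomial (Fin m) ℚ), g, ?_, ?_, ?_, ?_⟩
  · have := finrank_range_le_card (R := ℚ) c
    simpa [Set.finrank] using this
  · exact b.linearIndependent.map' V.subtype (Submodule.ker_subtype V)
  · rw [Fintype.linearIndependent_iff]
    intro lam hl
    have h0 : b.constr ℚ lam = 0 := by
      rw [Submodule.linearMap_eq_zero_iff_of_eq_span _ rfl]
      rintro ⟨-, k, rfl⟩
      have h1 := congrArg (coeff ((0 : Fin m →₀ ℕ).cons k)) hl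
      rw [coeff_sum, coeff_zero] at h1
      rw [Module.Basis.constr_apply_fintype, ← h1]
      refine Finset.sum_congr rfl fun j _ => ?_
      have h2 := coeff_tens k 0 (1 : MvPolynomial (Fin m) ℚ) (g j)
      rw [map_one, one_mul] at h2
      rw [coeff_smul, h2, hg]
      simp [mul_comm]
    intro j
    have := congrArg (fun φ => φ (b j)) h0
    simpa using this
  · refine ext_cons fun k μ => ?_
    rw [coeff_sum]
    simp only [coeff_tens]
    rcases le_or_gt k d0 with hk | hk
    · have h1 := b.sum_repr ⟨c ⟨k, by omega⟩, hc _⟩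
      have h2 := congrArg (fun x : V => coeff μ (x : MvPolynomial (Fin m) ℚ)) h1
      simp only [Submodule.coe_sum, Submodule.coe_smul, coeff_sum, coeff_smul, smul_eq_mul] at h2
      rw [← finSuccEquiv_coeff_coeff]
      refine h2.symm.trans (Finset.sum_congr rfl fun j _ => ?_)
      rw [mul_comm, ← hg]
    · simp only [hg' _ _ hk, mul_zero, Finset.sum_const_zero]
      by_contra h
      have := monomial_le_degreeOf 0 (mem_support_iff.mpr h)
      simp only [Finsupp.cons_zero] at this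
      omega

/-- The one-variable case, by Gauss's lemma. -/
theorem den_pow_le (V : Polynomial ℚ) (hV : V ≠ 0) (hi : ∀ k, ∃ z : ℤ, V.coeff k = z) (ξ : ℚ) :
    (ξ.den : ℝ) ^ (Polynomial.taylor ξ V).natTrailingDegree ≤ |((V.leadingCoeff : ℚ) : ℝ)| := by
  rw [Polynomial.taylor_apply, ← Polynomial.rootMultiplicity_eq_natTrailingDegree]
  set t := V.rootMultiplicity ξ
  have hdvd := Polynomial.pow_rootMultiplicity_dvd V ξ
  obtain ⟨Z, hZ⟩ : ∃ Z : Polynomial ℤ, Z.map (Int.castRingHom ℚ) = V := by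
    rw [← Polynomial.mem_lifts, Polynomial.lifts_iff_coeff_lifts]
    intro k
    obtain ⟨z, hz⟩ := hi k
    exact ⟨z, by simp [hz]⟩
  let q : Polynomial ℤ := Polynomial.C (ξ.den : ℤ) * Polynomial.X - Polynomial.C ξ.num
  have hq : q.IsPrimitive := by
    intro r hr
    rw [Polynomial.C_dvd_iff_dvd_coeff] at hr
    have h0 := hr 0
    have h1 := hr 1
    simp only [q, Polynomial.coeff_sub, Polynomial.coeff_C_mul, Polynomial.coeff_X_zero,
      Polynomial.coeff_X_one, Polynomial.coeff_C, mul_zero, mul_one, if_true, zero_sub, dvd_neg,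
      one_ne_zero, if_false, sub_zero] at h0 h1
    have hc : IsCoprime ξ.num (ξ.den : ℤ) := Rat.isCoprime_num_den ξ
    exact hc.isUnit_of_dvd' h0 h1
  have hqt : ∀ k, (q ^ k).IsPrimitive := by
    intro k
    induction k with
    | zero => simp
    | succ k ih => rw [pow_succ]; exact ih.mul hq
  have hden : (ξ.den : ℚ) ≠ 0 := by exact_mod_cast ξ.den_ne_zero
  have hqm : q.map (Int.castRingHom ℚ) =
      Polynomial.C (ξ.den : ℚ) * (Polynomial.X - Polynomial.C ξ) := by
    have : (ξ.den : ℚ) * ξ = ξ.num := by rw [mul_comm]; exact Rat.mul_den_eq_num ξ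
    rw [mul_sub, ← Polynomial.C_mul, this]
    simp [q]
  have hd : q ^ t ∣ Z := by
    rw [Polynomial.IsPrimitive.Int.dvd_iff_map_cast_dvd_map_cast _ _ (hqt t), hZ,
      Polynomial.map_pow, hqm, mul_pow, ← Polynomial.C_pow]
    exact (IsUnit.mul_left_dvd (Polynomial.isUnit_C.mpr (pow_ne_zero t hden).isUnit)).mpr hdvd
  obtain ⟨R, hR⟩ := hd
  have hZ0 : Z ≠ 0 := by rintro rfl; exact hV (by simpa using hZ.symm)
  have hR0 : R ≠ 0 := by rintro rfl; exact hZ0 (by simpa using hR)
  have hql : q.leadingCoeff = ξ.den := by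
    have : q = Polynomial.C (ξ.den : ℤ) * Polynomial.X + Polynomial.C (-ξ.num) := by
      simp [q, sub_eq_add_neg]
    rw [this]
    exact Polynomial.leadingCoeff_linear (by exact_mod_cast ξ.den_ne_zero)
  have hl : V.leadingCoeff = ((ξ.den : ℤ) ^ t * R.leadingCoeff : ℤ) := by
    rw [← hZ, Polynomial.leadingCoeff_map_of_injective (Int.cast_injective), hR,
      Polynomial.leadingCoeff_mul, Polynomial.leadingCoeff_pow, hql]
    rfl
  rw [hl]
  push_cast
  rw [abs_mul, abs_of_nonneg (by positivity)]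
  have h1 : (1 : ℝ) ≤ |(R.leadingCoeff : ℝ)| := by
    exact_mod_cast Int.one_le_abs (Polynomial.leadingCoeff_ne_zero.mpr hR0)
  exact le_mul_of_one_le_right (by positivity) h1

theorem sum_max_ge (n d0 : ℕ) (hd : 0 < d0) (hn : n ≤ d0 + 1) (η : ℝ) (h0 : 0 ≤ η) (h1 : η ≤ 1) :
    n * (η ^ 2 / 8) ≤ ∑ j : Fin n, max (η - (j : ℕ) / (d0 : ℝ)) 0 := by
  have hd' : (0 : ℝ) < d0 := by exact_mod_cast hd
  set J := min n (⌊η * d0 / 2⌋₊ + 1) with hJ
  have hJn : J ≤ n := min_le_left _ _
  have hJ1 : η * n / 4 ≤ J := by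
    have hn' : (n : ℝ) ≤ 2 * d0 := by exact_mod_cast (by omega : n ≤ 2 * d0)
    have hn0 : (0 : ℝ) ≤ n := by positivity
    rw [hJ, Nat.cast_min]
    refine le_min (by nlinarith) ?_
    have := Nat.lt_floor_add_one (η * d0 / 2)
    push_cast
    nlinarith
  rw [Fin.sum_univ_eq_sum_range (fun j => max (η - (j : ℕ) / (d0 : ℝ)) 0) n]
  calc n * (η ^ 2 / 8) = (η * n / 4) * (η / 2) := by ring
    _ ≤ J * (η / 2) := by gcongr
    _ = ∑ j ∈ Finset.range J, η / 2 := by simp
    _ ≤ ∑ j ∈ Finset.range J, max (η - (j : ℕ) / (d0 : ℝ)) 0 := by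
      refine Finset.sum_le_sum fun j hj => le_max_of_le_left ?_
      have hj' : j ≤ ⌊η * d0 / 2⌋₊ := by
        have := Finset.mem_range.mp hj
        omega
      have h2 : (j : ℝ) ≤ η * d0 / 2 :=
        le_trans (by exact_mod_cast hj') (Nat.floor_le (by positivity))
      have : (j : ℝ) / d0 ≤ η / 2 := by
        rw [div_le_iff₀ hd']; linarith
      linarith
    _ ≤ _ := Finset.sum_le_sum_of_subset_of_nonneg (Finset.range_mono hJn)
        fun _ _ _ => le_max_right _ _

theorem l1_le_of_slice {σ τ : Type} (e : (σ →₀ ℕ) → (τ →₀ ℕ)) (he : Function.Injective e)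
    (U : MvPolynomial σ ℚ) (W : MvPolynomial τ ℚ) (h : ∀ μ, coeff μ U = coeff (e μ) W) :
    l1 U ≤ l1 W := by
  classical
  unfold l1
  simp only [h]
  rw [← Finset.sum_image (f := fun α => |((coeff α W : ℚ) : ℝ)|) (fun a _ b _ hab => he hab)]
  refine Finset.sum_le_sum_of_subset_of_nonneg ?_ fun _ _ _ => abs_nonneg _
  intro α hα
  obtain ⟨μ, hμ, rfl⟩ := Finset.mem_image.mp hα
  rwa [mem_support_iff, ← h, ← mem_support_iff]

theorem degreeOf_det_le {σ : Type} {n : ℕ} (M : Matrix (Fin n) (Fin n) (MvPolynomial σ ℚ)) (h : σ)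
    (d : ℕ) (hM : ∀ i j, (M i j).degreeOf h ≤ d) : M.det.degreeOf h ≤ n * d := by
  classical
  have hw : ∀ α : σ →₀ ℕ, Finsupp.weight (Pi.single h (-1 : ℝ)) α = -(α h : ℝ) := by
    intro α
    rw [Finsupp.weight_apply, Finsupp.sum, Finset.sum_eq_single h]
    · simp
    · intro b _ hb; simp [hb]
    · intro hh; simp [Finsupp.notMem_support_iff.mp hh]
  have : Ind (Pi.single h (-1 : ℝ)) (-(n * d : ℝ)) M.det := by
    refine Ind.det (u := fun _ _ => -(d : ℝ)) ?_ ?_
    · intro i j α hα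
      rw [hw, neg_le_neg_iff]
      exact_mod_cast (monomial_le_degreeOf h hα).trans (hM i j)
    · intro π; simp
  rw [degreeOf_le_iff]
  intro α hα
  have := this α hα
  rw [hw, neg_le_neg_iff] at this
  exact_mod_cast this

theorem weight_eq {k : ℕ} (w : Fin k → ℝ) (α : Fin k →₀ ℕ) :
    Finsupp.weight w α = ∑ h, (α h : ℝ) * w h := by
  rw [Finsupp.weight_apply, Finsupp.sum_fintype _ _ (by simp)]
  simp

theorem weight_cons (w : Fin (m + 1) → ℝ) (k : ℕ) (α : Fin m →₀ ℕ) :
    Finsupp.weight w (α.cons k) = k * w 0 + Finsupp.weight (fun h => w h.succ) α := by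
  rw [weight_eq, weight_eq, Fin.sum_univ_succ]
  simp

/-- The Wronskian of the separated form. -/
theorem exists_wronski (P : MvPolynomial (Fin (m + 1)) ℚ) (d0 : ℕ) (hd : P.degreeOf 0 ≤ d0) :
    ∃ (n : ℕ) (μ : Fin n → Fin m →₀ ℕ) (k : Fin n → ℕ) (U : MvPolynomial (Fin m) ℚ)
      (V : Polynomial ℚ), n ≤ d0 + 1 ∧ (P ≠ 0 → 0 < n) ∧ (∀ i, (μ i).degree ≤ (i : ℕ)) ∧
      (∀ j, k j ≤ (j : ℕ)) ∧ U ≠ 0 ∧ V ≠ 0 ∧
      (Matrix.of fun i j => hasse ((μ i).cons (k j)) P).det = i1 U * i2 V := by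
  classical
  obtain ⟨n, f, g, hn, hf, hg, hP⟩ := exists_decomp P d0 hd
  obtain ⟨μ, hμ, hU⟩ := wronskian_ne_zero f hf
  obtain ⟨ν, hν, hV⟩ := wronskian_ne_zero _ hg
  let A : Matrix (Fin n) (Fin n) (MvPolynomial (Fin m) ℚ) := Matrix.of fun i j => hasse (μ i) (f j)
  let B : Matrix (Fin n) (Fin n) (Polynomial ℚ) :=
    Matrix.of fun i j => Polynomial.hasseDeriv (ν i 0) (g j)
  refine ⟨n, μ, fun j => ν j 0, A.det, B.det, hn, ?_, hμ, ?_, hU, ?_, ?_⟩
  · intro h
    rcases Nat.eq_zero_or_pos n with rfl | h'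
    · exact (h (by simpa using hP)).elim
    · exact h'
  · intro j
    exact (Finsupp.le_degree 0 (ν j)).trans (hν j)
  · intro h0
    apply hV
    have e : (Matrix.of fun i j => hasse (ν i) (i2 (g j) : MvPolynomial (Fin (m + 1)) ℚ)) =
        Matrix.of (fun i j => (fun i => i1 (hasse (ν i).tail 1)) i *
          ((i2 (m := m)).mapMatrix B) i j) := by
      ext1 i j
      have := hasse_tens (ν i 0) (ν i).tail (1 : MvPolynomial (Fin m) ℚ) (g j)
      rw [Finsupp.cons_tail, map_one, one_mul] at this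
      simpa [B] using this
    rw [e, det_mul_column, ← AlgHom.map_det, h0, map_zero, mul_zero]
  · rw [AlgHom.map_det, AlgHom.map_det, ← det_transpose ((i2 (m := m)).mapMatrix B), ← det_mul]
    congr 1
    ext1 i j
    rw [of_apply, hP, map_sum, Matrix.mul_apply]
    refine Finset.sum_congr rfl fun l _ => ?_
    rw [hasse_tens]
    simp [A, B]

theorem log_bound (n d0 D : ℕ) (hn : n ≤ d0 + 1) (hn0 : 0 < n) (hD : d0 ≤ D) (L W : ℝ)
    (hL : 1 ≤ L) (hW : 1 ≤ W) (h : W ≤ n.factorial * (2 ^ D * L) ^ n) :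
    Real.log W ≤ 2 * n * (Real.log L + D) := by
  have hn' : (0 : ℝ) < n := by exact_mod_cast hn0
  have h1 : W ≤ (n * (2 ^ D * L)) ^ n := by
    rw [mul_pow (n : ℝ)]
    refine h.trans (mul_le_mul_of_nonneg_right ?_ (by positivity))
    exact_mod_cast Nat.factorial_le_pow n
  have h2 := Real.log_le_log (by linarith) h1
  rw [Real.log_pow, Real.log_mul hn'.ne' (by positivity), Real.log_mul (by positivity)
    (by positivity), Real.log_pow] at h2
  have h3 : Real.log n ≤ D := by
    have := Real.log_le_sub_one_of_pos hn'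
    have h4 : (n : ℝ) ≤ D + 1 := by exact_mod_cast (by omega : n ≤ D + 1)
    linarith
  have h4 : Real.log 2 ≤ 1 := by
    have := Real.log_le_sub_one_of_pos (by norm_num : (0 : ℝ) < 2)
    linarith
  have h5 : 0 ≤ Real.log L := Real.log_nonneg hL
  have h6 : (D : ℝ) * Real.log 2 ≤ D := mul_le_of_le_one_right (by positivity) h4
  refine h2.trans ?_
  rw [mul_comm (2 : ℝ), mul_assoc]
  exact mul_le_mul_of_nonneg_left (by linarith) hn'.le

theorem roth_aux (m : ℕ) : ∀ θ : ℝ, 0 < θ → θ ≤ 1 → ∃ s : ℝ, 0 < s ∧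
    ∀ (d : Fin m → ℕ) (ξ : Fin m → ℚ) (P : MvPolynomial (Fin m) ℚ), (∀ h, 0 < d h) →
      (∀ h h', h < h' → (d h : ℝ) ≤ s * d h') → P ≠ 0 → IsInt P → (∀ h, P.degreeOf h ≤ d h) →
      (∀ h, Real.log (l1 P) + ∑ j, (d j : ℝ) ≤ s * d h * Real.log (ξ h).den) →
      ¬ Ind (fun h => 1 / (d h : ℝ)) θ (shift ξ P) := by
  induction m with
  | zero =>
    intro θ hθ _
    refine ⟨1, one_pos, fun d ξ P _ _ hP _ _ _ hI => ?_⟩
    obtain ⟨α, hα⟩ := ne_zero_iff.mp (shift_ne_zero ξ hP)
    have := hI α (mem_support_iff.mpr hα)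
    rw [weight_eq] at this
    simp at this
    linarith
  | succ m ih =>
    intro θ hθ hθ1
    obtain ⟨s', hs', IH⟩ := ih (θ ^ 2 / 64) (by positivity) (by nlinarith)
    refine ⟨min (s' / 3) (θ ^ 2 / 256), by positivity, ?_⟩
    set s := min (s' / 3) (θ ^ 2 / 256) with hs
    have hs0 : 0 < s := by positivity
    have hs1 : 3 * s ≤ s' := by have := min_le_left (s' / 3) (θ ^ 2 / 256); linarith
    have hs2 : s ≤ θ ^ 2 / 256 := min_le_right _ _
    intro d ξ P hd hdd hP hPi hdeg hH hI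
    obtain ⟨n, μ, k, U, V, hn, hn0, hμ, hk, hU, hV, hW⟩ := exists_wronski P (d 0) (hdeg 0)
    replace hn0 := hn0 hP
    have hn' : (0 : ℝ) < n := by exact_mod_cast hn0
    have hd' : ∀ h, (0 : ℝ) < d h := fun h => by exact_mod_cast hd h
    set W := (Matrix.of fun i j => hasse ((μ i).cons (k j)) P).det with hWdef
    have hWi : IsInt W := IsInt.det fun i j => hPi.hasse _
    have hWd : ∀ h, W.degreeOf h ≤ n * d h := fun h =>
      degreeOf_det_le _ h _ fun i j => (degreeOf_hasse_le _ _ _).trans (hdeg h)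
    have hWl : l1 W ≤ n.factorial * (2 ^ (∑ h, d h) * l1 P) ^ n := by
      have := l1_det_le (M := Matrix.of fun i j => hasse ((μ i).cons (k j)) P)
        fun i j => l1_hasse_le _ P hdeg
      simpa using this
    have hWc : ∀ l ν, coeff (ν.cons l) W = coeff ν U * V.coeff l := by
      intro l ν; rw [hW, coeff_tens]
    obtain ⟨ν0, hν0⟩ := ne_zero_iff.mp hU
    have hlc : V.coeff V.natDegree ≠ 0 := Polynomial.leadingCoeff_ne_zero.mpr hV
    have hW0 : W ≠ 0 := ne_zero_iff.mpr ⟨_, by rw [hWc]; exact mul_ne_zero hν0 hlc⟩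
    have hP1 := one_le_l1 hPi hP
    have hlog : Real.log (l1 W) ≤ 2 * n * (Real.log (l1 P) + ∑ j, (d j : ℝ)) := by
      have := log_bound n (d 0) (∑ h, d h) hn hn0
        (Finset.single_le_sum (f := d) (fun _ _ => Nat.zero_le _) (Finset.mem_univ 0))
        _ _ hP1 (one_le_l1 hWi hW0) hWl
      simpa using this
    have hLP : 0 ≤ Real.log (l1 P) := Real.log_nonneg hP1
    have hsum : 0 < ∑ j, (d j : ℝ) := Finset.sum_pos (fun j _ => hd' j) Finset.univ_nonempty
    have hlden : ∀ h, 0 < Real.log (ξ h).den := by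
      intro h
      have h1 := hH h
      have h2 : 0 < s * d h * Real.log (ξ h).den := by linarith
      exact (mul_pos_iff_of_pos_left (mul_pos hs0 (hd' h))).mp h2
    -- the slice in the last variables
    let U' : MvPolynomial (Fin m) ℚ := V.coeff V.natDegree • U
    have hU'c : ∀ ν, coeff ν U' = coeff (ν.cons V.natDegree) W := by
      intro ν; rw [hWc, coeff_smul, smul_eq_mul, mul_comm]
    have hU'0 : U' ≠ 0 := smul_ne_zero hlc hU
    have hU'i : IsInt U' := isInt_iff.mpr fun ν => by rw [hU'c]; exact isInt_iff.mp hWi _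
    have hU'l : l1 U' ≤ l1 W := l1_le_of_slice _ (Finsupp.cons_right_injective _) _ _ hU'c
    have hIH := IH (fun h => n * d h.succ) (fun h => ξ h.succ) U' (fun h => mul_pos hn0 (hd _))
      (fun h h' hh => by
        have := hdd h.succ h'.succ (Fin.succ_lt_succ_iff.mpr hh)
        have h2 := hd' h'.succ
        push_cast
        nlinarith [mul_pos hn' h2, mul_pos hs0 (mul_pos hn' h2)])
      hU'0 hU'i
      (fun h => by
        rw [degreeOf_le_iff]
        intro α hα
        rw [mem_support_iff, hU'c, ← mem_support_iff] at hα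
        have := (monomial_le_degreeOf h.succ hα).trans (hWd h.succ)
        simpa using this)
      (fun h => by
        have h1 := hH h.succ
        have h2 : Real.log (l1 U') ≤ Real.log (l1 W) :=
          Real.log_le_log (by linarith [one_le_l1 hU'i hU'0]) hU'l
        have h3 : ∑ j : Fin m, (d j.succ : ℝ) ≤ ∑ j, (d j : ℝ) := by
          rw [Fin.sum_univ_succ]; linarith [hd' 0]
        have h4 := mul_pos (hd' h.succ) (hlden h.succ)
        push_cast
        rw [← Finset.mul_sum]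
        have h5 : (n : ℝ) * ∑ j : Fin m, (d j.succ : ℝ) ≤ n * (Real.log (l1 P) + ∑ j, (d j : ℝ)) :=
          mul_le_mul_of_nonneg_left (by linarith) hn'.le
        have h6 : (n : ℝ) * (Real.log (l1 P) + ∑ j, (d j : ℝ)) ≤
            n * (s * d h.succ * Real.log (ξ h.succ).den) := mul_le_mul_of_nonneg_left h1 hn'.le
        have h7 : 3 * s * (n * (d h.succ * Real.log (ξ h.succ).den)) ≤
            s' * (n * (d h.succ * Real.log (ξ h.succ).den)) :=
          mul_le_mul_of_nonneg_right hs1 (by positivity)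
        nlinarith)
    simp only [Ind, not_forall, not_le] at hIH
    obtain ⟨α, hα, hαw⟩ := hIH
    have hαU : coeff α (shift (fun h => ξ h.succ) U) ≠ 0 := by
      rw [mem_support_iff, map_smul, coeff_smul, smul_eq_mul] at hα
      exact right_ne_zero_of_mul hα
    have hαw' : Finsupp.weight (fun h : Fin m => 1 / (d h.succ : ℝ)) α < n * (θ ^ 2 / 64) := by
      rw [weight_eq] at hαw ⊢
      rw [← div_lt_iff₀' hn', Finset.sum_div]
      convert hαw using 2 with h
      push_cast
      field_simp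
    -- the slice in the variable zero
    let V' : Polynomial ℚ := coeff ν0 U • V
    have hV'c : ∀ l, V'.coeff l = coeff (ν0.cons l) W := by
      intro l; rw [hWc, Polynomial.coeff_smul, smul_eq_mul]
    have hV'0 : V' ≠ 0 := smul_ne_zero hν0 hV
    have hden := den_pow_le V' hV'0 (fun l => by rw [hV'c]; exact isInt_iff.mp hWi _) (ξ 0)
    set t := (Polynomial.taylor (ξ 0) V').natTrailingDegree with ht
    have htc : (Polynomial.taylor (ξ 0) V).coeff t ≠ 0 := by
      have h1 : Polynomial.taylor (ξ 0) V' ≠ 0 := by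
        rw [Ne, Polynomial.taylor_eq_zero]; exact hV'0
      have h2 : (Polynomial.taylor (ξ 0) V').coeff t ≠ 0 :=
        Polynomial.trailingCoeff_nonzero_iff_nonzero.mpr h1
      rw [map_smul, Polynomial.coeff_smul, smul_eq_mul] at h2
      exact right_ne_zero_of_mul h2
    have htb : (t : ℝ) * (1 / d 0) ≤ 2 * n * s := by
      have h1 : ((ξ 0).den : ℝ) ^ t ≤ l1 W := by
        refine hden.trans ?_
        rw [Polynomial.leadingCoeff, hV'c]
        exact abs_coeff_le_l1 _ _
      have h2 := Real.log_le_log (by have := (ξ 0).den_pos; positivity) h1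
      rw [Real.log_pow] at h2
      have h3 : (n : ℝ) * (Real.log (l1 P) + ∑ j, (d j : ℝ)) ≤
          n * (s * d 0 * Real.log (ξ 0).den) := mul_le_mul_of_nonneg_left (hH 0) hn'.le
      have h4 : (t : ℝ) * Real.log (ξ 0).den ≤ (2 * n * s * d 0) * Real.log (ξ 0).den := by
        nlinarith
      have h5 := le_of_mul_le_mul_right h4 (hlden 0)
      rw [mul_one_div, div_le_iff₀ (hd' 0)]
      exact h5
    -- the index of the Wronskian
    have hIW : Ind (fun h => 1 / (d h : ℝ)) (n * ((θ - s) ^ 2 / 8)) (shift ξ W) := by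
      rw [hWdef, AlgHom.map_det]
      refine Ind.det (u := fun _ j => max (θ - s - (j : ℕ) / (d 0 : ℝ)) 0) ?_ ?_
      · intro i j
        refine Ind.max ?_ (Ind.of_nonneg (fun h => by have := hd' h; positivity) _)
        simp only [AlgHom.mapMatrix_apply, map_apply, of_apply]
        rw [shift_hasse]
        refine (hI.hasse _).mono ?_
        rw [weight_cons, weight_eq]
        have h1 : (k j : ℝ) * (1 / d 0) ≤ (j : ℕ) / (d 0 : ℝ) := by
          rw [mul_one_div]
          exact div_le_div_of_nonneg_right (by exact_mod_cast hk j) (hd' 0).le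
        have h2 : ∑ h : Fin m, (μ i h : ℝ) * (1 / d h.succ) ≤ ∑ h : Fin m, (μ i h : ℝ) * (s / d 0) := by
          refine Finset.sum_le_sum fun h _ => mul_le_mul_of_nonneg_left ?_ (by positivity)
          rw [div_le_div_iff₀ (hd' _) (hd' _), one_mul]
          exact hdd 0 h.succ (Fin.succ_pos h)
        have h3 : ∑ h : Fin m, (μ i h : ℝ) ≤ d 0 := by
          have h4 := hμ i
          rw [Finsupp.degree_eq_sum] at h4
          have h5 := i.2
          exact_mod_cast (by omega : ∑ h : Fin m, μ i h ≤ d 0)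
        rw [← Finset.sum_mul] at h2
        have h4 : (∑ h : Fin m, (μ i h : ℝ)) * (s / d 0) ≤ s := by
          refine (mul_le_mul_of_nonneg_right h3 (by have := hd' 0; positivity)).trans (le_of_eq ?_)
          have := hd' 0
          field_simp
        linarith
      · intro _
        exact sum_max_ge n (d 0) (hd 0) hn _ (by nlinarith) (by linarith)
    have hmem : α.cons t ∈ (shift ξ W).support := by
      rw [mem_support_iff, hW, map_mul, shift_i1, shift_i2, coeff_tens]
      exact mul_ne_zero hαU htc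
    have h1 := hIW _ hmem
    rw [weight_cons] at h1
    have h2 : θ ^ 2 / 4 ≤ (θ - s) ^ 2 := by nlinarith
    have h3 : (n : ℝ) * (θ ^ 2 / 32) ≤ n * ((θ - s) ^ 2 / 8) :=
      mul_le_mul_of_nonneg_left (by linarith) hn'.le
    have h4 : 2 * n * s ≤ 2 * n * (θ ^ 2 / 256) := mul_le_mul_of_nonneg_left hs2 (by positivity)
    have h5 : 0 < n * θ ^ 2 := by positivity
    nlinarith

end RL

/-- Roth's lemma. -/
theorem roth_lemma (m : ℕ) (θ : ℝ) (hθ : 0 < θ) : ∃ s : ℝ, 0 < s ∧
    ∀ (d : Fin m → ℕ) (ξ : Fin m → ℚ) (P : MvPolynomial (Fin m) ℚ), (∀ h, 0 < d h) →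
      (∀ h h', h < h' → (d h : ℝ) ≤ s * d h') → P ≠ 0 → IsInt P → (∀ h, P.degreeOf h ≤ d h) →
      (∀ h, Real.log (l1 P) + ∑ j, (d j : ℝ) ≤ s * d h * Real.log (ξ h).den) →
      ¬ Ind (fun h => 1 / (d h : ℝ)) θ (shift ξ P) := by
  obtain ⟨s, hs, h⟩ := RL.roth_aux m (min θ 1) (lt_min hθ one_pos) (min_le_right _ _)
  exact ⟨s, hs, fun d ξ P h1 h2 h3 h4 h5 h6 hI =>
    h d ξ P h1 h2 h3 h4 h5 h6 (hI.mono (min_le_left _ _))⟩

end Pool.Agent.Subspace
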