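import Pool.Agent.Shared.Subspace.AuxPoly
import Pool.Agent.Shared.Subspace.Grid
import Pool.Agent.Shared.Subspace.Height
import Pool.Agent.Shared.Subspace.Roth
import Pool.Agent.Shared.Subspace.Gap

/-! # The penultimate minimum theorem and the Subspace Theorem over `ℚ` -/

open MvPolynomial Filter Real

namespace Pool.Agent.Subspace

lemma exists_indices (U : Ultrafilter ℕ) (q : ℕ → ℝ) (hq : Tendsto q U atTop) (G : ℕ → Prop)
    (hG : ∀ᶠ k in U, G k) (s : ℝ) (hs : 0 < s) (q1 : ℝ) (m : ℕ) :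
    ∃ k : Fin m → ℕ, (∀ h, G (k h) ∧ q1 ≤ q (k h)) ∧ ∀ h h', h < h' → q (k h') ≤ s * q (k h) := by
  induction m with
  | zero => exact ⟨Fin.elim0, fun h => h.elim0, fun h => h.elim0⟩
  | succ m ih =>
    obtain ⟨k, hk, hk'⟩ := ih
    have h1 : ∀ᶠ j in U, ∀ h, q (k h) / s ≤ q j :=
      eventually_all.mpr fun h => hq.eventually_ge_atTop _
    obtain ⟨j, hj, hj1, hj2⟩ := (hG.and ((hq.eventually_ge_atTop q1).and h1)).exists
    refine ⟨Fin.cons j k, fun h => ?_, fun h h' hh => ?_⟩
    · refine Fin.cases ?_ (fun h => ?_) h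
      · exact ⟨hj, hj1⟩
      · exact hk h
    · revert hh
      refine Fin.cases ?_ (fun h' => ?_) h'
      · intro hh; exact absurd hh (Fin.not_lt_zero _)
      · refine Fin.cases ?_ (fun h => ?_) h
        · intro _
          have := hj2 h'
          rw [div_le_iff₀ hs] at this
          simpa [mul_comm] using this
        · intro hh
          simpa using hk' h h' (Fin.succ_lt_succ_iff.mp hh)

/-- The penultimate minimum theorem. -/
theorem penultimate {ι Pl : Type} [Fintype ι] [DecidableEq ι] [Fintype Pl]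
    (ab : Pl → AbsoluteValue ℚ ℝ)
    (hle : ∀ v (z : ℤ), ab v z ≤ |(z : ℝ)|) (hpf : ∀ z : ℤ, z ≠ 0 → 1 ≤ ∏ v, ab v z)
    (L : Pl → Matrix ι ι ℤ) (hL : ∀ v, (L v).det ≠ 0) (j0 : ι)
    (U : Ultrafilter ℕ) (q : ℕ → ℝ) (hq : Tendsto q U atTop) (A δ : ℝ) (hδ : 0 < δ)
    (Y : ℕ → Matrix ι ι ℤ) (u : ℕ → Pl → ι → ℝ)
    (h : ∀ᶠ k in U, (Y k).det ≠ 0 ∧ (∀ v i, |u k v i| ≤ A * q k) ∧
      ∑ v, ∑ i, u k v i ≤ -δ * q k ∧
      ∀ v i j, j ≠ j0 → ab v ((L v * Y k) i j : ℤ) ≤ exp (u k v i)) :
    ∃ ζ : ι → ℤ, ζ ≠ 0 ∧ ∀ᶠ k in U, ∀ j, j ≠ j0 → ∑ i, ζ i * Y k i j = 0 := by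
  classical
  have : Nonempty ι := ⟨j0⟩
  rcases height_dichotomy ab hle hpf L hL j0 U q hq δ hδ Y u
    (h.mono fun k hk => ⟨hk.1, hk.2.2⟩) with h1 | ⟨η, i0, i1, hη, h01, h2⟩
  · exact h1
  exfalso
  obtain ⟨m, hm⟩ := aux_poly ab hle hpf L hL A δ hδ
  set B : ℕ := m * Fintype.card ι + 1 with hB
  obtain ⟨C, q0, hC⟩ := hm (Fintype.card ι * B)
  obtain ⟨s, hs, hR⟩ := roth_lemma m 1 one_pos
  set q1 : ℝ := max (max q0 1) (2 * ((|C| + 1) * m) / (s * η)) with hq1
  obtain ⟨k, hk, hk'⟩ := exists_indices U q hq _ (h.and h2) (s / 2) (by positivity) q1 m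
  have hq1' : ∀ h, 1 ≤ q (k h) := fun h =>
    ((le_max_right _ _).trans (le_max_left _ _)).trans (hk h).2
  set D : ℝ := ∑ h, q (k h) with hD
  have hqD : ∀ h, q (k h) ≤ D := fun h =>
    Finset.single_le_sum (f := fun h => q (k h)) (fun h _ => by linarith [hq1' h])
      (Finset.mem_univ h)
  have hD0 : 0 ≤ D := Finset.sum_nonneg fun h _ => by linarith [hq1' h]
  set d : Fin m → ℕ := fun h => ⌊D / q (k h)⌋₊ with hd
  have hdq : ∀ h, 1 ≤ D / q (k h) := fun h => by
    rw [one_le_div (by linarith [hq1' h])]; exact hqD h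
  have hd0 : ∀ h, 0 < d h := fun h => Nat.floor_pos.mpr (hdq h)
  have hd1 : ∀ h, q (k h) * d h ≤ D := fun h => by
    have := Nat.floor_le (zero_le_one.trans (hdq h))
    rw [le_div_iff₀ (by linarith [hq1' h])] at this
    simpa [mul_comm] using this
  have hd2 : ∀ h, D ≤ 2 * (q (k h) * d h) := fun h => by
    have h1 := Nat.lt_floor_add_one (D / q (k h))
    rw [div_lt_iff₀ (by linarith [hq1' h])] at h1
    have h2 : (1 : ℝ) ≤ d h := by exact_mod_cast hd0 h
    have h3 : ((⌊D / q (k h)⌋₊ : ℕ) : ℝ) = d h := rfl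
    rw [h3] at h1
    nlinarith [hq1' h]
  obtain ⟨P, hP0, hPi, hom, hl1, hP⟩ := hC (fun h => q (k h)) (fun h => u (k h)) D d
    (fun h => ((le_max_left _ _).trans (le_max_left _ _)).trans (hk h).2)
    (fun h => (hk h).1.1.2.1) (fun h => (hk h).1.1.2.2.1) hd0 hd1 hd2
  let y : Fin m × ι → Fin m × ι → ℚ := fun c s =>
    if s.1 = c.1 ∧ c.2 ≠ j0 then (Y (k c.1) s.2 c.2 : ℚ) else 0
  have hy : ∀ c s, y c s ≠ 0 → s.1 = c.1 := fun c s hs => by
    by_contra hc
    exact hs (if_neg fun h => hc h.1)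
  have hsum : ∀ (r : Fin m × ι → ℚ) h i, (∑ c, r c • y c) (h, i) =
      ∑ j, if j ≠ j0 then r (h, j) * Y (k h) i j else 0 := fun r h i => by
    rw [Finset.sum_apply, Fintype.sum_prod_type, Finset.sum_eq_single h]
    · refine Finset.sum_congr rfl fun j _ => ?_
      simp [y]
    · intro b _ hb
      refine Finset.sum_eq_zero fun j _ => ?_
      simp [y, hb.symm]
    · simp
  have hgrid := grid_to_all (fun s : Fin m × ι => 1 / (d s.1 : ℝ)) y P B (by omega) 2
    (fun c => d c.1) (fun c => hd0 _) (fun c s hs => by rw [hy c s hs]) (fun c β hβ => by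
      rw [← hom β hβ c.1]
      calc ∑ s with y c s ≠ 0, β s ≤ ∑ s ∈ Finset.univ.image (fun i => (c.1, i)), β s := by
            refine Finset.sum_le_sum_of_subset fun s hs => ?_
            rw [Finset.mem_filter] at hs
            exact Finset.mem_image.mpr ⟨s.2, Finset.mem_univ _, by rw [← hy c s hs.2]⟩
        _ = ∑ i, β (c.1, i) := Finset.sum_image fun a _ b _ hab => (Prod.mk.inj hab).2)
    (fun r hr => by
      have := hP (fun s => ∑ j, if j ≠ j0 then r (s.1, j) * Y (k s.1) s.2 j else 0)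
        (fun h v i => ?_)
      · convert this using 3
        ext ⟨h, i⟩
        rw [hsum]
        push_cast
        rfl
      · have e : ((∑ j, L v i j * ∑ j', if j' ≠ j0 then r (h, j') * Y (k h) j j' else 0 : ℤ) : ℚ)
            = ∑ j', if j' ≠ j0 then ((r (h, j') : ℤ) : ℚ) * ((L v * Y (k h)) i j' : ℤ) else 0 := by
          simp only [Finset.mul_sum, Matrix.mul_apply]
          rw [Finset.sum_comm]
          push_cast
          refine Finset.sum_congr rfl fun j' _ => ?_
          split_ifs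
          · rw [Finset.mul_sum]; exact Finset.sum_congr rfl fun j _ => by ring
          · simp
        rw [e]
        refine (ab v).sum_le _ _ |>.trans ?_
        rw [mul_assoc, ← nsmul_eq_mul, ← Finset.card_univ, ← Finset.sum_const]
        refine Finset.sum_le_sum fun j' _ => ?_
        split_ifs with hj
        · rw [map_mul]
          refine mul_le_mul ((hle v _).trans ?_) ((hk h).1.1.2.2.2 v i j' hj) ((ab v).nonneg _)
            (by positivity)
          have := (hr (h, j')).le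
          simpa using this
        · rw [map_zero]; positivity)
  obtain ⟨p, hp0, hpi, hpd, hpl, hp⟩ := slice_exists m d i0 i1 h01
    (fun h i => ((Y (k h)).adjugate j0 i : ℚ)) (fun h => by exact_mod_cast (hk h).1.2.1)
    P hP0 hPi hom 1 (fun x hx => by
      have := hgrid fun c => (∑ i, ((Y (k c.1)).adjugate c.2 i : ℚ) * x (c.1, i)) / (Y (k c.1)).det
      have e : (∑ c : Fin m × ι, ((∑ i, ((Y (k c.1)).adjugate c.2 i : ℚ) * x (c.1, i)) /
          (Y (k c.1)).det) • y c) = x := by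
        ext ⟨h, i⟩
        have hdet : ((Y (k h)).det : ℚ) ≠ 0 := by exact_mod_cast (hk h).1.1.1
        rw [hsum]
        have e1 : ∀ j, (if j ≠ j0 then (∑ i, ((Y (k h)).adjugate j i : ℚ) * x (h, i)) /
            (Y (k h)).det * Y (k h) i j else 0) = (∑ i, ((Y (k h)).adjugate j i : ℚ) * x (h, i)) /
            (Y (k h)).det * Y (k h) i j := fun j => by
          split_ifs with hj
          · rfl
          · rw [not_not.mp hj, hx h]; simp
        simp only [e1]
        have e2 : ∀ i', ∑ j, (Y (k h) i j : ℚ) * ((Y (k h)).adjugate j i' : ℚ) =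
            if i = i' then ((Y (k h)).det : ℚ) else 0 := fun i' => by
          have := congrFun (congrFun (Matrix.mul_adjugate (Y (k h))) i) i'
          rw [Matrix.mul_apply, Matrix.smul_apply, Matrix.one_apply] at this
          have h3 := congrArg (Int.cast : ℤ → ℚ) this
          push_cast at h3
          rw [h3]
          split_ifs <;> simp
        calc _ = ∑ i', (∑ j, (Y (k h) i j : ℚ) * ((Y (k h)).adjugate j i' : ℚ)) * x (h, i') /
              (Y (k h)).det := by
              simp only [Finset.sum_div, Finset.sum_mul]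
              rw [Finset.sum_comm]
              exact Finset.sum_congr rfl fun _ _ => Finset.sum_congr rfl fun _ _ => by ring
          _ = x (h, i) := by
              simp only [e2, ite_mul, zero_mul, ite_div, zero_div, Finset.sum_ite_eq,
                Finset.mem_univ, if_true]
              field_simp
      rw [e] at this
      refine this.mono ?_
      have : (Fintype.card (Fin m × ι) : ℝ) / B ≤ 1 := by
        rw [div_le_one (by positivity), hB]
        simp
      linarith)
  refine hR d _ p hd0 (fun h h' hh => ?_) hp0 hpi hpd (fun h => ?_) hp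
  · have h1 := hk' h h' hh
    have h2 := hd1 h
    have h3 := hd2 h'
    have h4 : (0 : ℝ) ≤ d h' := by positivity
    have h5 := hq1' h
    have : q (k h) * d h ≤ q (k h) * (s * d h') := by nlinarith
    exact le_of_mul_le_mul_left this (by linarith)
  · have h1 : log (l1 p) ≤ log (l1 P) :=
      log_le_log (zero_lt_one.trans_le (one_le_l1 hpi hp0)) hpl
    have h2 := (hk h).1.2.2
    have h3 : ∀ j, (d j : ℝ) ≤ D / q1 := fun j => by
      have hq1p : 0 < q1 := zero_lt_one.trans_le ((le_max_right _ _).trans (le_max_left _ _))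
      rw [le_div_iff₀ hq1p]
      have := hd1 j
      have := (hk j).2
      have : (0 : ℝ) ≤ d j := by positivity
      nlinarith
    have h4 : ∑ j, (d j : ℝ) ≤ m * (D / q1) := by
      simpa using Finset.sum_le_sum (s := Finset.univ) fun j _ => h3 j
    have h5 : (0 : ℝ) ≤ ∑ j, (d j : ℝ) := by positivity
    have h6 : (|C| + 1) * m / q1 ≤ s * η / 2 := by
      have hq1p : 0 < q1 := zero_lt_one.trans_le ((le_max_right _ _).trans (le_max_left _ _))
      have : 2 * ((|C| + 1) * m) / (s * η) ≤ q1 := le_max_right _ _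
      rw [div_le_iff₀ (by positivity)] at this
      rw [div_le_iff₀ hq1p]
      linarith
    have h7 : (0 : ℝ) ≤ d h := by positivity
    calc log (l1 p) + ∑ j, (d j : ℝ) ≤ (|C| + 1) * ∑ j, (d j : ℝ) := by
          nlinarith [le_abs_self C]
      _ ≤ (|C| + 1) * (m * (D / q1)) := by gcongr
      _ = (|C| + 1) * m / q1 * D := by ring
      _ ≤ s * η / 2 * (2 * (q (k h) * d h)) := by gcongr; exact hd2 h
      _ = s * d h * (η * q (k h)) := by ring
      _ ≤ _ := by gcongr

/-- The Subspace Theorem over `ℚ` (parametric form along an ultrafilter). -/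
theorem subspace (S : Finset ℕ) (hS : ∀ p ∈ S, p.Prime) (N : ℕ)
    (L : Option S → Matrix (Fin N) (Fin N) ℚ) (hL : ∀ v, (L v).det ≠ 0)
    (U : Ultrafilter ℕ) (q : ℕ → ℝ) (hq : Tendsto q U atTop) (A δ : ℝ) (hδ : 0 < δ)
    (x : ℕ → Fin N → ℤ) (u : ℕ → Option S → Fin N → ℝ)
    (h : ∀ᶠ k in U, (∀ v i, |u k v i| ≤ A * q k) ∧ ∑ v, ∑ i, u k v i ≤ -δ * q k ∧
      ∀ v i, plAbs S hS v (((L v).mulVec fun j => (x k j : ℚ)) i) ≤ exp (u k v i)) :
    ∃ ζ : Fin N → ℚ, ζ ≠ 0 ∧ ∀ᶠ k in U, ζ ⬝ᵥ (fun j => (x k j : ℚ)) = 0 :=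
  subspace_of_pen (@penultimate) S hS N L hL U q hq A δ hδ x u h

end Pool.Agent.Subspace
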