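import Pool.Agent.Shared.Subspace.Basic

/-!
# The auxiliary polynomial for the Subspace Theorem
-/

open MvPolynomial Finset Real

namespace Pool.Agent.Subspace

namespace AuxP

/-! ### Counting -/

lemma count_bad {κ α : Type*} [Fintype κ] [DecidableEq κ] (S : κ → Finset α) (Z : κ → α → ℝ)
    {M η : ℝ} (hM : 0 < M) (hη : 0 < η) (hη1 : η ≤ 1)
    (hZ : ∀ h, ∀ a ∈ S h, |Z h a| ≤ M) (h0 : ∀ h, ∑ a ∈ S h, Z h a = 0) :
    (((Fintype.piFinset S).filter fun J => 2 * η * Fintype.card κ * M < ∑ h, Z h (J h)).card : ℝ)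
      ≤ (Fintype.piFinset S).card * exp (-(Fintype.card κ * η ^ 2)) := by
  set t := η / M with ht
  have ht0 : 0 < t := by positivity
  have htM : t * M = η := by rw [ht]; field_simp
  have h1 : ∀ h, ∑ a ∈ S h, exp (t * Z h a) ≤ (S h).card * exp (η ^ 2) := by
    intro h
    have : ∀ a ∈ S h, exp (t * Z h a) ≤ exp (η ^ 2) + t * Z h a := by
      intro a ha
      have h2 : |t * Z h a| ≤ η := by
        rw [abs_mul, abs_of_pos ht0, ← htM]
        exact mul_le_mul_of_nonneg_left (hZ h a ha) ht0.le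
      have h3 := abs_exp_sub_one_sub_id_le (h2.trans hη1)
      have h4 : (t * Z h a) ^ 2 ≤ η ^ 2 := by
        rw [← sq_abs]; exact pow_le_pow_left₀ (abs_nonneg _) h2 2
      have h5 := add_one_le_exp (η ^ 2)
      linarith [(abs_le.mp h3).2]
    refine (sum_le_sum this).trans ?_
    rw [sum_add_distrib, ← mul_sum, h0 h]
    simp
  set T := 2 * η * Fintype.card κ * M with hT
  calc (((Fintype.piFinset S).filter fun J => T < ∑ h, Z h (J h)).card : ℝ)
      = ∑ J ∈ (Fintype.piFinset S).filter (fun J => T < ∑ h, Z h (J h)), (1 : ℝ) := by simp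
    _ ≤ ∑ J ∈ (Fintype.piFinset S).filter (fun J => T < ∑ h, Z h (J h)),
          exp (-(t * T)) * ∏ h, exp (t * Z h (J h)) := by
        refine sum_le_sum fun J hJ => ?_
        rw [← exp_sum, ← exp_add, ← mul_sum]
        refine one_le_exp ?_
        have := (mem_filter.mp hJ).2
        nlinarith
    _ ≤ ∑ J ∈ Fintype.piFinset S, exp (-(t * T)) * ∏ h, exp (t * Z h (J h)) :=
        sum_le_sum_of_subset_of_nonneg (filter_subset _ _) fun _ _ _ => by positivity
    _ = exp (-(t * T)) * ∏ h, ∑ a ∈ S h, exp (t * Z h a) := by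
        rw [← mul_sum, prod_univ_sum]
    _ ≤ exp (-(t * T)) * ∏ h, ((S h).card * exp (η ^ 2) : ℝ) := by
        refine mul_le_mul_of_nonneg_left ?_ (exp_pos _).le
        exact prod_le_prod (fun h _ => by positivity) fun h _ => h1 h
    _ = _ := by
        rw [prod_mul_distrib, Fintype.card_piFinset, prod_const, card_univ, ← exp_nat_mul]
        push_cast
        rw [mul_left_comm, ← exp_add]
        congr 2
        rw [hT]
        have : t * (2 * η * Fintype.card κ * M) = 2 * η * Fintype.card κ * (t * M) := by ring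
        rw [this, htM]; ring

variable {ι : Type*} [Fintype ι] [DecidableEq ι]

lemma sum_apply_eq (n : ℕ) (i j : ι) :
    ∑ J ∈ piAntidiag (univ : Finset ι) n, J i = ∑ J ∈ piAntidiag (univ : Finset ι) n, J j := by
  have key : ∀ J ∈ piAntidiag (univ : Finset ι) n,
      J ∘ Equiv.swap i j ∈ piAntidiag (univ : Finset ι) n := by
    intro J hJ
    rw [mem_piAntidiag] at hJ ⊢
    refine ⟨?_, fun _ _ => mem_univ _⟩
    rw [← hJ.1]
    exact Equiv.sum_comp (Equiv.swap i j) J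
  refine sum_nbij' (fun J => J ∘ Equiv.swap i j) (fun J => J ∘ Equiv.swap i j) key key ?_ ?_ ?_
  · intro J _; ext a; simp
  · intro J _; ext a; simp
  · intro J _; simp

lemma sum_apply_mul (n : ℕ) (i : ι) :
    (Fintype.card ι : ℝ) * ∑ J ∈ piAntidiag (univ : Finset ι) n, (J i : ℝ) =
      n * (piAntidiag (univ : Finset ι) n).card := by
  have : Fintype.card ι * ∑ J ∈ piAntidiag (univ : Finset ι) n, J i =
      n * (piAntidiag (univ : Finset ι) n).card := by
    rw [← card_univ, ← smul_eq_mul, ← sum_const,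
      sum_congr rfl fun j _ => sum_apply_eq n i j, sum_comm,
      sum_congr rfl fun J hJ => (mem_piAntidiag.mp hJ).1]
    simp [mul_comm]
  exact_mod_cast this

lemma card_piAntidiag_le (n : ℕ) :
    ((piAntidiag (univ : Finset ι) n).card : ℝ) ≤ exp (Fintype.card ι * n) := by
  have h1 : piAntidiag (univ : Finset ι) n ⊆ Fintype.piFinset fun _ => range (n + 1) := by
    intro J hJ
    rw [Fintype.mem_piFinset]
    intro i
    rw [mem_range, Nat.lt_succ_iff, ← (mem_piAntidiag.mp hJ).1]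
    exact single_le_sum (fun _ _ => Nat.zero_le _) (mem_univ i)
  have h2 := card_le_card h1
  rw [Fintype.card_piFinset, prod_const, card_range, card_univ] at h2
  have h3 : ((piAntidiag (univ : Finset ι) n).card : ℝ) ≤ (n + 1) ^ Fintype.card ι := by
    exact_mod_cast h2
  rw [exp_nat_mul]
  exact h3.trans (pow_le_pow_left₀ (by positivity) (add_one_le_exp _) _)

variable {κ : Type*} [Fintype κ] [DecidableEq κ]

lemma exists_omega [Nonempty ι] (d : κ → ℕ) : ∃ Ω : Finset (κ × ι →₀ ℕ),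
    (∀ β, β ∈ Ω ↔ ∀ h, ∑ i, β (h, i) = d h) ∧ 0 < Ω.card ∧
    (Ω.card : ℝ) ≤ exp (Fintype.card ι * ∑ h, (d h : ℝ)) ∧
    ∀ (c : κ → ι → ℝ) (M η : ℝ), 0 < M → 0 < η → η ≤ 1 → (∀ h i, |c h i| * d h ≤ M) →
      ((Ω.filter fun β => 4 * η * Fintype.card κ * M +
          ∑ h, d h * (∑ i, c h i) / Fintype.card ι < ∑ s, β s * c s.1 s.2).card : ℝ) ≤
        Ω.card * exp (-(Fintype.card κ * η ^ 2)) := by
  let e : (κ → ι → ℕ) ≃ (κ × ι →₀ ℕ) :=
    (Equiv.curry κ ι ℕ).symm.trans Finsupp.equivFunOnFinite.symm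
  have he : ∀ J h i, e J (h, i) = J h i := fun _ _ _ => rfl
  let S : κ → Finset (ι → ℕ) := fun h => piAntidiag univ (d h)
  have hN : (0 : ℝ) < Fintype.card ι := by exact_mod_cast Fintype.card_pos
  refine ⟨(Fintype.piFinset S).map e.toEmbedding, fun β => ?_, ?_, ?_, ?_⟩
  · obtain ⟨J, rfl⟩ := e.surjective β
    rw [mem_map_equiv, Equiv.symm_apply_apply, Fintype.mem_piFinset]
    simp only [he, S, mem_piAntidiag, mem_univ, implies_true, and_true]
  · rw [card_map, card_pos, Fintype.piFinset_nonempty]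
    intro h
    obtain ⟨i⟩ := ‹Nonempty ι›
    exact ⟨Pi.single i (d h), by simp [S]⟩
  · rw [card_map, Fintype.card_piFinset, mul_sum, exp_sum]
    push_cast
    exact prod_le_prod (fun _ _ => by positivity) fun h _ => card_piAntidiag_le _
  · intro c M η hM hη hη1 hc
    have := count_bad S (fun h J => ∑ i, J i * c h i - d h * (∑ i, c h i) / Fintype.card ι)
      (M := 2 * M) (by positivity) hη hη1 ?_ ?_
    · rw [filter_map, card_map, card_map]
      refine le_trans (le_of_eq ?_) this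
      congr 2
      refine filter_congr fun J _ => ?_
      simp only [Function.comp, Equiv.coe_toEmbedding, Fintype.sum_prod_type, he,
        sum_sub_distrib]
      constructor <;> intro h <;> linarith
    · intro h J hJ
      have hJ' : ∑ i, (J i : ℝ) = d h := by exact_mod_cast (mem_piAntidiag.mp hJ).1
      obtain ⟨i0, hi0⟩ := Finite.exists_max fun i => |c h i|
      have h1 : |∑ i, J i * c h i| ≤ M := by
        refine (abs_sum_le_sum_abs _ _).trans (le_trans ?_ (hc h i0))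
        rw [← hJ', mul_sum]
        refine sum_le_sum fun i _ => ?_
        rw [abs_mul, Nat.abs_cast, mul_comm]
        exact mul_le_mul_of_nonneg_right (hi0 i) (by positivity)
      have h2 : |d h * (∑ i, c h i) / Fintype.card ι| ≤ M := by
        rw [abs_div, abs_mul, Nat.abs_cast, Nat.abs_cast, div_le_iff₀ hN]
        have : |∑ i, c h i| ≤ Fintype.card ι * |c h i0| := by
          refine (abs_sum_le_sum_abs _ _).trans ?_
          simpa using sum_le_sum (s := univ) fun i _ => hi0 i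
        calc (d h : ℝ) * |∑ i, c h i| ≤ d h * (Fintype.card ι * |c h i0|) := by gcongr
          _ = |c h i0| * d h * Fintype.card ι := by ring
          _ ≤ _ := by gcongr; exact hc h i0
      refine (abs_sub _ _).trans ?_
      linarith
    · intro h
      rw [sum_sub_distrib, sum_comm, sum_const, nsmul_eq_mul, sub_eq_zero]
      have : ∀ i, ∑ J ∈ S h, (J i : ℝ) * c h i = (S h).card * (d h * c h i / Fintype.card ι) := by
        intro i
        rw [← sum_mul]
        have := sum_apply_mul (d h) i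
        field_simp
        calc _ = ((Fintype.card ι : ℝ) * ∑ J ∈ piAntidiag univ (d h), (J i : ℝ)) * c h i := by
              ring
          _ = _ := by rw [this]; ring
      rw [sum_congr rfl fun i _ => this i, ← mul_sum, ← sum_div, ← mul_sum]

/-! ### Siegel's lemma -/

lemma siegel {α β : Type*} [Fintype α] [Fintype β] (A : Matrix α β ℤ) (hβ : 0 < Fintype.card β)
    (h : 2 * Fintype.card α ≤ Fintype.card β) {M : ℝ} (hM : 1 ≤ M)
    (hA : ∀ a b, |(A a b : ℝ)| ≤ M) :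
    ∃ t : β → ℤ, t ≠ 0 ∧ A.mulVec t = 0 ∧ ∀ b, |(t b : ℝ)| ≤ Fintype.card β * M := by
  have hβ' : (1 : ℝ) ≤ Fintype.card β := by exact_mod_cast hβ
  rcases Nat.eq_zero_or_pos (Fintype.card α) with h0 | h0
  · have : IsEmpty α := Fintype.card_eq_zero_iff.mp h0
    obtain ⟨b⟩ := Fintype.card_pos_iff.mp hβ
    refine ⟨fun _ => 1, fun h => one_ne_zero (congrFun h b), Subsingleton.elim _ _, fun _ => ?_⟩
    simpa using one_le_mul_of_one_le_of_one_le hβ' hM
  · let : SeminormedAddCommGroup (Matrix α β ℤ) := Matrix.seminormedAddCommGroup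
    obtain ⟨t, ht0, ht1, ht2⟩ := Int.Matrix.exists_ne_zero_int_vec_norm_le A (by omega) h0
    refine ⟨t, ht0, ht1, fun b => ?_⟩
    have h1 : ‖A‖ ≤ M := (Matrix.norm_le_iff (by linarith)).mpr fun a b => by
      rw [Int.norm_eq_abs]; exact hA a b
    have h2 : (1 : ℝ) ≤ Fintype.card β * max 1 ‖A‖ :=
      one_le_mul_of_one_le_of_one_le hβ' (le_max_left _ _)
    have h3 : (Fintype.card α : ℝ) / (Fintype.card β - Fintype.card α) ≤ 1 := by
      have h4 : (2 : ℝ) * Fintype.card α ≤ Fintype.card β := by exact_mod_cast h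
      have h5 : (0 : ℝ) < Fintype.card α := by exact_mod_cast h0
      rw [div_le_one (by linarith)]
      linarith
    calc |(t b : ℝ)| = ‖t b‖ := (Int.norm_eq_abs _).symm
      _ ≤ ‖t‖ := norm_le_pi_norm t b
      _ ≤ _ := ht2
      _ ≤ (Fintype.card β * max 1 ‖A‖) ^ (1 : ℝ) := rpow_le_rpow_of_exponent_le h2 h3
      _ ≤ _ := by
        rw [rpow_one]
        exact mul_le_mul_of_nonneg_left (max_le hM h1) (by positivity)

lemma exists_poly {σ Pl : Type*} [Fintype Pl] (Ω : Finset (σ →₀ ℕ)) (hΩ : 0 < Ω.card)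
    (E : Pl → Finset (σ →₀ ℕ)) (hE : 2 * ∑ v, (E v).card ≤ Ω.card)
    (φ : Pl → MvPolynomial σ ℚ →ₐ[ℚ] MvPolynomial σ ℚ) {M : ℝ} (hM : 1 ≤ M)
    (hφ : ∀ v β, IsInt (φ v (monomial β 1)))
    (hφ' : ∀ v, ∀ β ∈ Ω, l1 (φ v (monomial β 1)) ≤ M) :
    ∃ P : MvPolynomial σ ℚ, P ≠ 0 ∧ IsInt P ∧ P.support ⊆ Ω ∧ l1 P ≤ Ω.card * (Ω.card * M) ∧
      ∀ v, ∀ J ∈ E v, coeff J (φ v P) = 0 := by
  classical
  choose z hz using fun v β => isInt_iff.mp (hφ v β)
  obtain ⟨t, ht0, ht1, ht2⟩ := siegel (α := Σ v : Pl, E v) (β := Ω)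
    (Matrix.of fun a b => z a.1 b.1 a.2.1) (by simpa using hΩ) (by simpa using hE) hM
    (fun a b => by
      refine le_trans (le_of_eq ?_) ((abs_coeff_le_l1 _ a.2.1).trans (hφ' a.1 b.1 b.2))
      rw [hz]; simp)
  have hc : ∀ b : Ω, coeff b.1 (∑ b : Ω, monomial b.1 (t b : ℚ)) = t b := by
    intro b
    rw [coeff_sum, sum_eq_single b]
    · simp
    · intro b' _ hb
      rw [coeff_monomial, if_neg fun h => hb (Subtype.ext h)]
    · simp
  refine ⟨∑ b : Ω, monomial b.1 (t b : ℚ), fun h0 => ht0 ?_,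
    IsInt.sum fun b _ => IsInt.monomial _ _, fun β hβ => ?_, ?_, fun v J hJ => ?_⟩
  · ext b
    have := hc b
    rw [h0, coeff_zero] at this
    exact_mod_cast this.symm
  · by_contra hb
    apply mem_support_iff.mp hβ
    rw [coeff_sum]
    refine sum_eq_zero fun b _ => ?_
    rw [coeff_monomial, if_neg]
    rintro rfl
    exact hb b.2
  · refine (l1_sum_le _ _).trans ?_
    have : ∀ b : Ω, l1 (monomial b.1 (t b : ℚ)) ≤ Ω.card * M := fun b => by
      rw [l1_monomial]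
      simpa using ht2 b
    simpa using sum_le_sum (s := univ) fun b _ => this b
  · have := congrFun ht1 ⟨v, J, hJ⟩
    rw [map_sum, coeff_sum]
    have e : ∀ b : Ω, coeff J (φ v (monomial b.1 (t b : ℚ))) = ((z v b.1 J * t b : ℤ) : ℚ) := by
      intro b
      rw [← mul_one (t b : ℚ), ← smul_eq_mul, ← smul_monomial, map_smul, coeff_smul, hz]
      simp [mul_comm]
    rw [sum_congr rfl fun b _ => e b, ← Int.cast_sum]
    exact_mod_cast this

/-! ### Linear substitutions -/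

/-- The same linear substitution in each block of variables. -/
noncomputable def lin (M : Matrix ι ι ℚ) : MvPolynomial (κ × ι) ℚ →ₐ[ℚ] MvPolynomial (κ × ι) ℚ :=
  aeval fun s => ∑ j, C (M s.2 j) * X (s.1, j)

omit [Fintype κ] [DecidableEq κ] in
lemma lin_lin {M M' : Matrix ι ι ℚ} (h : M' * M = 1) (P : MvPolynomial (κ × ι) ℚ) :
    lin M (lin M' P) = P := by
  have : (lin (κ := κ) M).comp (lin M') = AlgHom.id ℚ _ := by
    ext1 ⟨a, i⟩
    simp only [lin, AlgHom.comp_apply, aeval_X, map_sum, map_mul, algHom_C, algebraMap_eq,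
      AlgHom.id_apply, mul_sum]
    rw [sum_comm]
    simp only [← mul_assoc, ← sum_mul, ← C_mul, ← map_sum, ← Matrix.mul_apply, h,
      Matrix.one_apply]
    rw [sum_eq_single i]
    · simp
    · intro j _ hj
      simp [hj.symm]
    · simp
  exact congrArg (fun f => f P) this

omit [DecidableEq ι] in
lemma lin_hom (M : Matrix ι ι ℚ) {d : κ → ℕ} {P : MvPolynomial (κ × ι) ℚ}
    (hP : ∀ β ∈ P.support, ∀ h, ∑ i, β (h, i) = d h) :
    ∀ β ∈ (lin M P).support, ∀ h, ∑ i, β (h, i) = d h := by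
  intro β hβ h
  let w : κ × ι → ℕ := fun s => if s.1 = h then 1 else 0
  have hw : ∀ β : κ × ι →₀ ℕ, Finsupp.weight w β = ∑ i, β (h, i) := by
    intro β
    rw [Finsupp.weight_apply, Finsupp.sum_fintype _ _ (by simp), Fintype.sum_prod_type,
      sum_eq_single h]
    · simp [w]
    · intro b _ hb
      simp [w, hb]
    · simp
  have : IsWeightedHomogeneous w (lin M P) (d h) := by
    rw [P.as_sum, map_sum]
    refine IsWeightedHomogeneous.sum _ _ _ fun α hα => ?_
    rw [lin, aeval_monomial, algebraMap_eq, ← hP α hα h, ← hw, Finsupp.weight_apply]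
    refine IsWeightedHomogeneous.C_mul ?_ _
    refine IsWeightedHomogeneous.prod _ _ _ fun s _ => IsWeightedHomogeneous.pow ?_ _
    exact IsWeightedHomogeneous.sum _ _ _ fun j _ =>
      (isWeightedHomogeneous_X ℚ w (s.1, j)).C_mul _
  rw [← hw]
  exact this (mem_support_iff.mp hβ)

lemma wnorm_le_l1 {σ : Type*} {ab : AbsoluteValue ℚ ℝ} (hab : ∀ z : ℤ, ab z ≤ |(z : ℝ)|)
    {r : σ → ℝ} (hr : ∀ s, 0 ≤ r s) {F : MvPolynomial σ ℚ} (hF : IsInt F) {T : ℝ}
    (hT : ∀ α ∈ F.support, (α.prod fun s k => r s ^ k) ≤ T) : wnorm ab r F ≤ l1 F * T := by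
  rw [wnorm, l1, sum_mul]
  refine sum_le_sum fun α hα => ?_
  obtain ⟨z, hz⟩ := isInt_iff.mp hF α
  refine mul_le_mul ?_ (hT α hα) (rprod_nonneg hr α) (abs_nonneg _)
  rw [hz]
  simpa using hab z

lemma prod_exp {σ : Type*} [Fintype σ] (α : σ →₀ ℕ) (a : σ → ℝ) :
    (α.prod fun s k => exp (a s) ^ k) = exp (∑ s, α s * a s) := by
  rw [Finsupp.prod_fintype _ _ (by simp), exp_sum]
  exact prod_congr rfl fun s _ => (exp_nat_mul _ _).symm

omit [DecidableEq ι] [DecidableEq κ] in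
lemma sum_hom {d : κ → ℕ} {β : κ × ι →₀ ℕ} (hβ : ∀ h, ∑ i, β (h, i) = d h) (c : ℝ) :
    ∑ s, (β s : ℝ) * c = c * ∑ h, (d h : ℝ) := by
  rw [← sum_mul, mul_comm, Fintype.sum_prod_type]
  congr 1
  exact sum_congr rfl fun h _ => by exact_mod_cast hβ h

omit [DecidableEq ι] [Fintype κ] [DecidableEq κ] in
lemma isInt_lin (M : Matrix ι ι ℤ) {P : MvPolynomial (κ × ι) ℚ} (hP : IsInt P) :
    IsInt (lin (M.map (↑)) P) :=
  hP.aeval fun _ => IsInt.sum fun _ _ => (IsInt.C _).mul (IsInt.X _)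

omit [DecidableEq ι] [DecidableEq κ] in
lemma l1_lin_le (M : Matrix ι ι ℤ) {c : ℝ} (hc : ∀ i, ∑ j, |(M i j : ℝ)| ≤ exp c) {d : κ → ℕ}
    {P : MvPolynomial (κ × ι) ℚ} (hi : IsInt P)
    (hP : ∀ β ∈ P.support, ∀ h, ∑ i, β (h, i) = d h) :
    l1 (lin (M.map (↑)) P) ≤ l1 P * exp (c * ∑ h, (d h : ℝ)) := by
  rw [l1_eq_wnorm, lin]
  refine (wnorm_aeval_le (r := fun _ => exp c) (by simp) (fun s => ?_) P).trans ?_
  · refine (wnorm_sum_le (by simp) _ _).trans (le_trans (sum_le_sum fun j _ => ?_) (hc s.2))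
    refine (wnorm_mul_le (by simp) _ _).trans ?_
    rw [wnorm_C, wnorm_X]
    simp [Rat.AbsoluteValue.real_eq_abs]
  · refine wnorm_le_l1 (fun z => ?_) (fun _ => (exp_pos _).le) hi fun α hα => ?_
    · simp [Rat.AbsoluteValue.real_eq_abs]
    · rw [prod_exp α fun _ => c, sum_hom (hP α hα)]

lemma local_bound {ab : AbsoluteValue ℚ ℝ} (hab : ∀ z : ℤ, ab z ≤ |(z : ℝ)|) (L : Matrix ι ι ℤ)
    (hL : L.det ≠ 0) {B c : ℝ} (hc : ∀ i, (|B| + ∑ j, |(L i j : ℝ)|) / ab L.det ≤ exp c)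
    {P : MvPolynomial (κ × ι) ℚ} (hi : IsInt P) {d : κ → ℕ}
    (hP : ∀ β ∈ P.support, ∀ h, ∑ i, β (h, i) = d h) (u : κ → ι → ℝ) (a : κ → ℝ)
    (hu : ∀ h i, a h ≤ u h i) {T : ℝ}
    (hT : ∀ J ∈ (lin (L.adjugate.map (↑)) P).support, ∑ s, J s * u s.1 s.2 ≤ T)
    (x : κ × ι → ℤ) (hx : ∀ h i, ab ((∑ j, L i j * x (h, j) : ℤ) : ℚ) ≤ B * exp (u h i))
    (I : κ × ι →₀ ℕ) :
    ab (coeff I (shift (fun s => (x s : ℚ)) P)) * exp (∑ s, I s * a s.1) ≤
      l1 (lin (L.adjugate.map (↑)) P) * exp (c * ∑ h, (d h : ℝ) + T) := by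
  have hdet : (L.det : ℚ) ≠ 0 := by exact_mod_cast hL
  have hab0 : 0 < ab L.det := ab.pos hdet
  set Q := lin (L.adjugate.map (↑)) P with hQ
  let M : Matrix ι ι ℚ := (L.det : ℚ)⁻¹ • L.map (↑)
  have hM : L.adjugate.map (↑) * M = 1 := by
    have h1 : (L.adjugate.map (↑) : Matrix ι ι ℚ) * L.map (↑) = (L.det : ℚ) • 1 := by
      have := congrArg (fun N : Matrix ι ι ℤ => (Int.castRingHom ℚ).mapMatrix N)
        (Matrix.adjugate_mul L)
      simp only [map_mul, map_zsmul, map_one] at this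
      rw [Int.cast_smul_eq_zsmul]
      exact this
    rw [Matrix.mul_smul, h1, smul_smul, inv_mul_cancel₀ hdet, one_smul]
  have h1 : shift (fun s => (x s : ℚ)) P = aeval (fun s : κ × ι =>
      shift (fun s => (x s : ℚ)) (∑ j, C (M s.2 j) * X (s.1, j))) Q := by
    conv_lhs => rw [← lin_lin hM P, ← hQ, lin]
    rw [← AlgHom.comp_apply, comp_aeval]
  have hρ : ∀ s : κ × ι, 0 ≤ exp (a s.1) := fun _ => (exp_pos _).le
  rw [← prod_exp I fun s => a s.1]
  refine (coeff_le_wnorm hρ _ I).trans ?_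
  rw [h1]
  refine (wnorm_aeval_le (r := fun s => exp (c + u s.1 s.2)) hρ (fun s => ?_) Q).trans ?_
  · have e : shift (fun s => (x s : ℚ)) (∑ j, C (M s.2 j) * X (s.1, j)) =
        (L.det : ℚ)⁻¹ • (C ((∑ j, L s.2 j * x (s.1, j) : ℤ) : ℚ) +
          ∑ j, C (L s.2 j : ℚ) * X (s.1, j)) := by
      rw [map_sum, Int.cast_sum, map_sum, ← sum_add_distrib, smul_sum]
      refine sum_congr rfl fun j _ => ?_
      simp only [M, map_mul, shift_C, shift_X, Matrix.smul_apply, Matrix.map_apply, smul_eq_mul,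
        Int.cast_mul, smul_eq_C_mul]
      ring
    rw [e, wnorm_smul, map_inv₀, exp_add]
    have h2 : wnorm ab (fun s : κ × ι => exp (a s.1)) (C ((∑ j, L s.2 j * x (s.1, j) : ℤ) : ℚ) +
        ∑ j, C (L s.2 j : ℚ) * X (s.1, j)) ≤ (|B| + ∑ j, |(L s.2 j : ℝ)|) * exp (u s.1 s.2) := by
      rw [add_mul, sum_mul]
      refine (wnorm_add_le hρ _ _).trans (add_le_add ?_ ?_)
      · rw [wnorm_C]
        exact (hx _ _).trans (mul_le_mul_of_nonneg_right (le_abs_self _) (exp_pos _).le)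
      · refine (wnorm_sum_le hρ _ _).trans (sum_le_sum fun j _ => ?_)
        refine (wnorm_mul_le hρ _ _).trans ?_
        rw [wnorm_C, wnorm_X]
        exact mul_le_mul (hab _) (exp_le_exp.mpr (hu _ _)) (exp_pos _).le (abs_nonneg _)
    refine (mul_le_mul_of_nonneg_left h2 (by positivity)).trans ?_
    rw [← mul_assoc, ← div_eq_inv_mul]
    exact mul_le_mul_of_nonneg_right (hc _) (exp_pos _).le
  · refine wnorm_le_l1 hab (fun _ => (exp_pos _).le) (isInt_lin _ hi) fun J hJ => ?_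
    rw [prod_exp J fun s => c + u s.1 s.2, exp_le_exp]
    simp only [mul_add, sum_add_distrib]
    rw [sum_hom (lin_hom _ hP J hJ)]
    linarith [hT J hJ]

lemma exists_exp_bound {α : Type*} [Finite α] (f : α → ℝ) :
    ∃ c : ℝ, 0 ≤ c ∧ ∀ a, f a ≤ exp c := by
  obtain ⟨K, hK⟩ := Finite.exists_le f
  exact ⟨|K|, abs_nonneg _, fun a => by linarith [hK a, le_abs_self K, add_one_le_exp |K|]⟩

lemma exists_param (p A γ : ℝ) (hp : 0 ≤ p) (hA : 0 < A) (hγ : 0 < γ) :
    ∃ (η : ℝ) (m : ℕ), 0 < η ∧ η ≤ 1 ∧ 0 < m ∧ p * (4 * η * A) ≤ γ / 4 ∧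
      p * (2 * A) ≤ γ / 4 * m ∧ 2 * p ≤ m * η ^ 2 := by
  set η := min 1 (γ / (16 * A * (p + 1))) with hη
  have hη0 : 0 < η := lt_min one_pos (by positivity)
  obtain ⟨m, hm⟩ := exists_nat_gt (max (p * (2 * A) / (γ / 4)) (2 * p / η ^ 2))
  have h1 := (le_max_left _ _).trans_lt hm
  have h2 := (le_max_right _ _).trans_lt hm
  refine ⟨η, m, hη0, min_le_left _ _, ?_, ?_, ?_, ?_⟩
  · have : (0 : ℝ) < m := lt_of_le_of_lt (by positivity) h1
    exact_mod_cast this
  · have : η ≤ γ / (16 * A * (p + 1)) := min_le_right _ _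
    rw [le_div_iff₀ (by positivity)] at this
    nlinarith [mul_pos hη0 hA]
  · rw [div_lt_iff₀ (by positivity)] at h1
    linarith
  · rw [div_lt_iff₀ (by positivity)] at h2
    linarith

end AuxP

open AuxP in
/-- The auxiliary polynomial. -/
theorem aux_poly {ι Pl : Type} [Fintype ι] [DecidableEq ι] [Nonempty ι] [Fintype Pl]
    (ab : Pl → AbsoluteValue ℚ ℝ)
    (hle : ∀ v (z : ℤ), ab v z ≤ |(z : ℝ)|) (hpf : ∀ z : ℤ, z ≠ 0 → 1 ≤ ∏ v, ab v z)
    (L : Pl → Matrix ι ι ℤ) (hL : ∀ v, (L v).det ≠ 0) (A δ : ℝ) (hδ : 0 < δ) :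
    ∃ m : ℕ, ∀ B : ℝ, ∃ C q0 : ℝ, ∀ (q : Fin m → ℝ) (u : Fin m → Pl → ι → ℝ) (D : ℝ)
      (d : Fin m → ℕ), (∀ h, q0 ≤ q h) → (∀ h v i, |u h v i| ≤ A * q h) →
      (∀ h, ∑ v, ∑ i, u h v i ≤ -δ * q h) → (∀ h, 0 < d h) → (∀ h, q h * d h ≤ D) →
      (∀ h, D ≤ 2 * (q h * d h)) →
      ∃ P : MvPolynomial (Fin m × ι) ℚ, P ≠ 0 ∧ IsInt P ∧
        (∀ β ∈ P.support, ∀ h, ∑ i, β (h, i) = d h) ∧ log (l1 P) ≤ C * ∑ h, (d h : ℝ) ∧
        ∀ x : Fin m × ι → ℤ,
          (∀ h v i, ab v ((∑ j, L v i j * x (h, j) : ℤ) : ℚ) ≤ B * exp (u h v i)) →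
          Ind (fun s => 1 / (d s.1 : ℝ)) 2 (shift (fun s => (x s : ℚ)) P) := by
  classical
  set N : ℝ := (Fintype.card ι : ℝ) with hN
  set p : ℝ := (Fintype.card Pl : ℝ) with hp
  have hN0 : 0 < N := by rw [hN]; exact_mod_cast Fintype.card_pos
  have hp0 : 0 ≤ p := by positivity
  set A' := max A 1 with hA'
  have hA0 : 0 < A' := lt_max_of_lt_right one_pos
  set γ := δ / (2 * N) with hγ
  have hγ0 : 0 < γ := by positivity
  obtain ⟨η, m, hη0, hη1, hm0, hm1, hm2, hm3⟩ := exists_param p A' γ hp0 hA0 hγ0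
  have hm0' : (0 : ℝ) < m := by exact_mod_cast hm0
  refine ⟨m, fun B => ?_⟩
  obtain ⟨c1, hc1, hc1'⟩ := exists_exp_bound fun a : Pl × ι =>
    ∑ j, |((L a.1).adjugate a.2 j : ℝ)|
  obtain ⟨c2, hc2, hc2'⟩ := exists_exp_bound fun a : Pl × ι =>
    (|B| + ∑ j, |(L a.1 a.2 j : ℝ)|) / ab a.1 (L a.1).det
  set c3 := 2 * N + 2 * c1 + c2 with hc3
  have hc30 : 0 ≤ c3 := by positivity
  refine ⟨2 * N + c1, max 1 (p * c3 / (γ / 4)), fun q u D d hq hu hsum hd hD1 hD2 => ?_⟩
  have hq1 : ∀ h, 1 ≤ q h := fun h => (le_max_left _ _).trans (hq h)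
  have hd1 : ∀ h, (1 : ℝ) ≤ d h := fun h => by exact_mod_cast hd h
  have hD0 : 0 < D := by
    have := hD1 ⟨0, hm0⟩
    nlinarith [hq1 ⟨0, hm0⟩, hd1 ⟨0, hm0⟩]
  have hu' : ∀ h v i, |u h v i| ≤ A' * q h := fun h v i =>
    (hu h v i).trans (mul_le_mul_of_nonneg_right (le_max_left _ _) (by linarith [hq1 h]))
  set S : ℝ := ∑ h, (d h : ℝ) with hS
  have hS0 : 0 ≤ S := by positivity
  obtain ⟨Ω, hΩ, hΩ0, hΩ1, hΩ2⟩ := exists_omega (ι := ι) d
  let T : Pl → ℝ := fun v => 4 * η * m * (A' * D) + ∑ h, d h * (∑ i, u h v i) / N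
  let E : Pl → Finset (Fin m × ι →₀ ℕ) := fun v =>
    Ω.filter fun β => T v < ∑ s, β s * u s.1 v s.2
  have hE : ∀ v, ((E v).card : ℝ) ≤ Ω.card * exp (-(m * η ^ 2)) := fun v => by
    have := hΩ2 (fun h i => u h v i) (A' * D) η (by positivity) hη0 hη1 fun h i => by
      calc |u h v i| * d h ≤ A' * q h * d h := by gcongr; exact hu' h v i
        _ = A' * (q h * d h) := by ring
        _ ≤ _ := by gcongr; exact hD1 h
    simpa [E, T] using this
  have hE' : 2 * ∑ v, (E v).card ≤ Ω.card := by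
    have h1 : ∑ v, ((E v).card : ℝ) ≤ p * (Ω.card * exp (-(m * η ^ 2))) := by
      simpa using sum_le_sum (s := univ) fun v _ => hE v
    have h2 : 2 * p * exp (-(m * η ^ 2)) ≤ 1 := by
      rw [exp_neg, ← div_eq_mul_inv, div_le_one (exp_pos _)]
      linarith [add_one_le_exp (m * η ^ 2)]
    have h3 : (0 : ℝ) ≤ Ω.card := by positivity
    have h4 : 2 * ∑ v, ((E v).card : ℝ) ≤ Ω.card := by nlinarith
    exact_mod_cast h4
  obtain ⟨P, hP0, hPi, hPΩ, hPl, hPE⟩ := exists_poly Ω hΩ0 E hE'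
    (fun v => lin ((L v).adjugate.map (↑))) (M := exp (c1 * S)) (one_le_exp (by positivity))
    (fun v β => isInt_lin _ (by simpa using IsInt.monomial β 1)) fun v β hβ => by
      have := l1_lin_le (L v).adjugate (fun i => hc1' (v, i)) (d := d) (P := monomial β 1)
        (by simpa using IsInt.monomial β 1) fun α hα => by
          have : α = β := by simpa using support_monomial_subset hα
          rw [this]; exact (hΩ β).mp hβ
      simpa [l1_monomial] using this
  have hom : ∀ β ∈ P.support, ∀ h, ∑ i, β (h, i) = d h := fun β hβ => (hΩ β).mp (hPΩ hβ)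
  have hPl' : l1 P ≤ exp ((2 * N + c1) * S) := by
    calc l1 P ≤ exp (N * S) * (exp (N * S) * exp (c1 * S)) := hPl.trans (by gcongr)
      _ = _ := by rw [← exp_add, ← exp_add]; congr 1; ring
  refine ⟨P, hP0, hPi, hom, ?_, fun x hx => Ind.of_coeff fun I hI => ?_⟩
  · exact (log_le_iff_le_exp (zero_lt_one.trans_le (one_le_l1 hPi hP0))).mpr hPl'
  obtain ⟨z, hz⟩ := isInt_iff.mp (hPi.shift x) I
  by_contra hz0
  have hz1 : z ≠ 0 := by
    rintro rfl
    exact hz0 (by simpa using hz)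
  have hI' : -(2 * (A' * D)) ≤ ∑ s : Fin m × ι, I s * -(A' * q s.1) := by
    rw [Finsupp.weight_apply, Finsupp.sum_fintype _ _ (by simp)] at hI
    have : ∑ s : Fin m × ι, -(A' * D) * (I s • (1 / (d s.1 : ℝ))) ≤
        ∑ s : Fin m × ι, I s * -(A' * q s.1) := by
      refine sum_le_sum fun s _ => ?_
      have h1 : q s.1 ≤ D / d s.1 := by
        rw [le_div_iff₀ (by linarith [hd1 s.1])]; exact hD1 _
      have h2 : (I s : ℝ) * (A' * q s.1) ≤ I s * (A' * (D / d s.1)) := by gcongr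
      rw [nsmul_eq_mul]
      calc _ = -((I s : ℝ) * (A' * (D / d s.1))) := by ring
        _ ≤ _ := by linarith
    rw [← mul_sum] at this
    nlinarith [mul_pos hA0 hD0]
  have hv : ∀ v, ab v z ≤ exp (2 * (A' * D) + c3 * S + T v) := fun v => by
    have h1 := local_bound (hle v) (L v) (hL v) (fun i => hc2' (v, i)) hPi hom
      (fun h i => u h v i) (fun h => -(A' * q h)) (fun h i => (abs_le.mp (hu' h v i)).1)
      (T := T v) (fun J hJ => by
        by_contra hJ'
        exact mem_support_iff.mp hJ (hPE v J (mem_filter.mpr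
          ⟨(hΩ J).mpr (lin_hom _ hom J hJ), not_le.mp hJ'⟩))) x (fun h i => hx h v i) I
    have h2 := l1_lin_le (L v).adjugate (fun i => hc1' (v, i)) hPi hom
    rw [hz] at h1
    have h3 : ab v z * exp (-(2 * (A' * D))) ≤ exp (c3 * S + T v) := by
      calc ab v z * exp (-(2 * (A' * D)))
          ≤ ab v z * exp (∑ s : Fin m × ι, I s * -(A' * q s.1)) :=
            mul_le_mul_of_nonneg_left (exp_le_exp.mpr hI') ((ab v).nonneg _)
        _ ≤ _ := h1
        _ ≤ exp ((2 * N + c1) * S) * exp (c1 * S) * exp (c2 * S + T v) :=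
            mul_le_mul_of_nonneg_right (h2.trans
              (mul_le_mul_of_nonneg_right hPl' (exp_pos _).le)) (exp_pos _).le
        _ = _ := by rw [← exp_add, ← exp_add, hc3]; congr 1; ring
    rw [exp_neg, ← div_eq_mul_inv, div_le_iff₀ (exp_pos _), ← exp_add] at h3
    exact h3.trans (le_of_eq (by congr 1; ring))
  have h1 : 1 ≤ exp (∑ v, (2 * (A' * D) + c3 * S + T v)) := by
    rw [exp_sum]
    exact (hpf z hz1).trans (prod_le_prod (fun v _ => (ab v).nonneg _) fun v _ => hv v)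
  rw [one_le_exp_iff] at h1
  have h2 : ∑ v, ∑ h, d h * (∑ i, u h v i) / N ≤ m * (-γ * D) := by
    rw [sum_comm]
    have : ∀ h, ∑ v, d h * (∑ i, u h v i) / N ≤ -γ * D := fun h => by
      rw [← sum_div, ← mul_sum, div_le_iff₀ hN0]
      have e : -γ * D * N = -δ * D / 2 := by rw [hγ]; field_simp
      have h3 := mul_le_mul_of_nonneg_left (hsum h) (zero_le_one.trans (hd1 h))
      rw [e]
      nlinarith [hD2 h]
    simpa using sum_le_sum (s := univ) fun h _ => this h
  have h3 : p * c3 * S ≤ m * (γ / 4 * D) := by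
    have : ∀ h, p * c3 * d h ≤ γ / 4 * D := fun h => by
      have h4 : p * c3 / (γ / 4) ≤ q h := (le_max_right _ _).trans (hq h)
      rw [div_le_iff₀ (by positivity)] at h4
      calc p * c3 * d h ≤ q h * (γ / 4) * d h := by gcongr
        _ = γ / 4 * (q h * d h) := by ring
        _ ≤ _ := by gcongr; exact hD1 h
    rw [hS, mul_sum]
    simpa using sum_le_sum (s := univ) fun h _ => this h
  simp only [T, sum_add_distrib, sum_const, card_univ, nsmul_eq_mul, ← hp] at h1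
  have h4 := mul_le_mul_of_nonneg_right hm1 (mul_pos hm0' hD0).le
  have h5 := mul_le_mul_of_nonneg_right hm2 hD0.le
  have h6 := mul_pos hγ0 (mul_pos hm0' hD0)
  nlinarith

end Pool.Agent.Subspace
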